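import Pool.Agent.W911.AL.Sz

/-!
# The numbers of children are computable in polynomial time
-/

set_option autoImplicit false

namespace Pool.Agent.W911.AL

open Finset Pool.Agent.NPC Pool.Agent.H622R2 Pool.Agent.H620R2.Gauge

variable {α : Type} [TEnc α]

theorem exists_bound {G : α → ℕ} (h : UPoly G) : ∃ q : Polynomial ℕ, ∀ a, G a ≤ q.eval (sz a) := by
  obtain ⟨q, hq⟩ := Poly.sz_le h
  refine ⟨q, fun a => ?_⟩
  have h1 := hq a
  have h2 := length_lt_sz (List.replicate (G a) ())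
  rw [List.length_replicate] at h2
  omega

theorem poly_pow2 {B : α → ℕ} (hB : UPoly B) : Poly (fun a => 2 ^ B a) := by
  have h1 : Poly (fun a => List.replicate (B a) ()) := hB
  have h2 : Poly (fun a => (List.replicate (B a) ()).map (fun _ => false)) :=
    NPC.Poly.map (F := fun _ _ => false) h1 (NPC.Poly.const false)
  refine (Poly.valBits (Poly.append h2 (NPC.Poly.const [true]))).congr fun a => ?_
  rw [List.map_replicate, valB_replicate_false]
  simp

theorem poly_size {m : α → ℕ} (hm : Poly m) : Poly (fun a => Nat.size (m a)) :=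
  (Poly.length (Poly.natBits hm)).congr fun a => (Nat.size_eq_bits_len _)

theorem upoly_ex {n W P : α → ℕ} (hn : UPoly n) (hW : Poly W) (hP : Poly P) :
    UPoly (fun a => ex (n a) (W a) (P a)) := by
  have h64 : UPoly (fun a => 64 * n a) := UPoly.mul (UPoly.const 64) hn
  exact UPoly.of_le (Poly.min (poly_size (Poly.div hW hP)) h64.toPoly) h64
    (fun a => min_le_right _ _)

theorem sqd_le {B Y : ℕ} (h : Y ≤ 2 ^ B) : sqd B Y ≤ 2 ^ B := by
  unfold sqd
  calc Y * Y / 2 ^ B ≤ 2 ^ B * 2 ^ B / 2 ^ B := Nat.div_le_div_right (Nat.mul_le_mul h h)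
    _ = 2 ^ B := Nat.mul_div_cancel _ (by positivity)

theorem sqi_le {B Y : ℕ} (h : Y ≤ 2 ^ B) (a : ℕ) : (sqd B)^[a] Y ≤ 2 ^ B := by
  induction a with
  | zero => exact h
  | succ a ih =>
    rw [Function.iterate_succ_apply']
    exact sqd_le ih

theorem sz_le_pow {B Y : ℕ} (h : Y ≤ 2 ^ B) : sz Y ≤ 4 * (B + 1) + 1 := by
  have h1 := sz_nat_le Y
  have h2 : Nat.size Y ≤ B + 1 := by
    rw [Nat.size_le]
    exact lt_of_le_of_lt h (Nat.pow_lt_pow_right (by norm_num) (by omega))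
  omega

theorem poly_sqi {B a Y : α → ℕ} (hB : UPoly B) (ha : UPoly a) (hY : Poly Y)
    (h : ∀ x, Y x ≤ 2 ^ B x) : Poly (fun x => (sqd (B x))^[a x] (Y x)) := by
  obtain ⟨q, hq⟩ := exists_bound (UPoly.add (UPoly.mul (UPoly.const 4)
    (UPoly.add hB (UPoly.const 1))) (UPoly.const 1))
  have h2 : Poly (fun p : α × ℕ => sqd (B p.1) p.2) :=
    Poly.div (Poly.mul (Poly.snd Poly.id) (Poly.snd Poly.id))
      ((poly_pow2 hB).comp (Poly.fst Poly.id))
  refine (Poly.iterLen (F := fun x y => sqd (B x) y) ha hY h2 q ?_).congr ?_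
  · intro x k _
    exact (sz_le_pow (sqi_le (h x) k)).trans (hq x)
  · intro x
    rw [List.length_replicate]

/-- one level -/
def lvs (n B : ℕ) (s : ℕ × List ℕ) : ℕ × List ℕ :=
  ((sqd B)^[ex n (31 * n * 2 ^ (B - 1)) s.1] (2 ^ B - s.1), ex n (31 * n * 2 ^ (B - 1)) s.1 :: s.2)

theorem szs_lvs (n B : ℕ) : ∀ (k P : ℕ) (acc : List ℕ),
    (szs n B k P).reverse ++ acc =
      ex n (2 ^ (B - 1)) ((lvs n B)^[k] (P, acc)).1 :: ((lvs n B)^[k] (P, acc)).2 := by
  intro k
  induction k with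
  | zero => intro P acc; simp [szs]
  | succ k ih =>
    intro P acc
    rw [szs, List.reverse_cons, List.append_assoc, List.singleton_append, ih,
      Function.iterate_succ_apply]
    rfl

theorem lvs_bound (n B : ℕ) : ∀ (i : ℕ) (s : ℕ × List ℕ), s.1 ≤ 2 ^ B →
    (∀ a ∈ s.2, a ≤ 64 * n) →
    ((lvs n B)^[i] s).1 ≤ 2 ^ B ∧ ((lvs n B)^[i] s).2.length = s.2.length + i ∧
      ∀ a ∈ ((lvs n B)^[i] s).2, a ≤ 64 * n := by
  intro i
  induction i with
  | zero => intro s h1 h2; exact ⟨h1, rfl, h2⟩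
  | succ i ih =>
    intro s h1 h2
    rw [Function.iterate_succ_apply]
    obtain ⟨h3, h4, h5⟩ := ih (lvs n B s) (sqi_le (Nat.sub_le _ _) _) (by
      intro a ha
      rcases List.mem_cons.1 ha with rfl | ha
      · exact ex_le _ _ _
      · exact h2 a ha)
    refine ⟨h3, ?_, h5⟩
    rw [h4]
    show (ex n (31 * n * 2 ^ (B - 1)) s.1 :: s.2).length + i = _
    rw [List.length_cons]
    omega

/-- the list of the exponents is computable in polynomial time -/
theorem poly_Sz {n κ : α → ℕ} (hn : UPoly n) (hκ : UPoly κ) :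
    Poly (fun x => (Sz (n x) (κ x)).reverse) := by
  have hB : UPoly (fun x => BB (n x) (κ x)) :=
    UPoly.add (UPoly.add (UPoly.mul (UPoly.const 116) hn) (UPoly.const 7))
      (UPoly.mul hκ (UPoly.add hn (UPoly.const 8)))
  have hB1 : UPoly (fun x => BB (n x) (κ x) - 1) :=
    UPoly.of_le (Poly.sub hB.toPoly (NPC.Poly.const 1)) hB (fun x => Nat.sub_le _ _)
  have hB8 : UPoly (fun x => BB (n x) (κ x) - 8 * n x) :=
    UPoly.of_le (Poly.sub hB.toPoly (UPoly.mul (UPoly.const 8) hn).toPoly) hB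
      (fun x => Nat.sub_le _ _)
  have hexs : UPoly (fun p : α × ℕ × List ℕ =>
      ex (n p.1) (31 * n p.1 * 2 ^ (BB (n p.1) (κ p.1) - 1)) p.2.1) :=
    upoly_ex (hn.comp (Poly.fst Poly.id)) (Poly.mul
      ((UPoly.mul (UPoly.const 31) hn).toPoly.comp (Poly.fst Poly.id))
      ((poly_pow2 hB1).comp (Poly.fst Poly.id))) (Poly.fst (Poly.snd Poly.id))
  have hlvs : Poly (fun p : α × ℕ × List ℕ => lvs (n p.1) (BB (n p.1) (κ p.1)) p.2) := by
    refine Poly.pair (poly_sqi (hB.comp (Poly.fst Poly.id)) hexs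
      (Poly.sub ((poly_pow2 hB).comp (Poly.fst Poly.id)) (Poly.fst (Poly.snd Poly.id)))
      (fun x => Nat.sub_le _ _)) (Poly.cons hexs.toPoly (Poly.snd (Poly.snd Poly.id)))
  obtain ⟨q, hq⟩ := exists_bound (UPoly.add (UPoly.add (UPoly.mul (UPoly.const 4)
    (UPoly.add hB (UPoly.const 1))) (UPoly.const 3))
    (UPoly.mul hκ (UPoly.add (UPoly.mul (UPoly.const 256) hn) (UPoly.const 2))))
  have hit : Poly (fun x => (lvs (n x) (BB (n x) (κ x)))^[κ x]
      (2 ^ (BB (n x) (κ x) - 8 * n x), ([] : List ℕ))) := by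
    refine (Poly.iterLen (σ := ℕ × List ℕ) (F := fun x s => lvs (n x) (BB (n x) (κ x)) s)
      (s := fun x => (2 ^ (BB (n x) (κ x) - 8 * n x), ([] : List ℕ))) hκ
      (Poly.pair (poly_pow2 hB8) (NPC.Poly.const [])) hlvs q ?_).congr ?_
    · intro x i hi
      rw [List.length_replicate] at hi
      obtain ⟨h1, h2, h3⟩ := lvs_bound (n x) (BB (n x) (κ x)) i
        (2 ^ (BB (n x) (κ x) - 8 * n x), ([] : List ℕ))
        (Nat.pow_le_pow_right (by norm_num) (Nat.sub_le _ _)) (by simp)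
      have h4 := hq x
      set s := (lvs (n x) (BB (n x) (κ x)))^[i] (2 ^ (BB (n x) (κ x) - 8 * n x), ([] : List ℕ))
        with hs
      have h5 : sz s.1 ≤ 4 * (BB (n x) (κ x) + 1) + 1 := sz_le_pow h1
      have h6 : sz s.2 ≤ s.2.length * (4 * (64 * n x) + 1 + 1) + 1 :=
        sz_le_length_mul _ _ (fun a ha => by
          have e1 := sz_nat_le a
          have e2 := Poly.size_le_self a
          have e3 := h3 a ha
          omega)
      rw [h2, List.length_nil, zero_add] at h6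
      have h7 : i * (4 * (64 * n x) + 1 + 1) ≤ κ x * (256 * n x + 2) := by
        have : 4 * (64 * n x) + 1 + 1 = 256 * n x + 2 := by ring
        rw [this]
        exact Nat.mul_le_mul_right _ hi
      have h8 : sz s = sz s.1 + sz s.2 + 1 := sz_pair s.1 s.2
      show sz s ≤ _
      rw [h8]
      refine le_trans ?_ h4
      omega
    · intro x
      rw [List.length_replicate]
  have hfin : Poly (fun x => ex (n x) (2 ^ (BB (n x) (κ x) - 1))
      ((lvs (n x) (BB (n x) (κ x)))^[κ x] (2 ^ (BB (n x) (κ x) - 8 * n x), ([] : List ℕ))).1 ::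
      ((lvs (n x) (BB (n x) (κ x)))^[κ x] (2 ^ (BB (n x) (κ x) - 8 * n x), ([] : List ℕ))).2) :=
    Poly.cons (upoly_ex hn (poly_pow2 hB1) (Poly.fst hit)).toPoly (Poly.snd hit)
  refine hfin.congr fun x => ?_
  have := szs_lvs (n x) (BB (n x) (κ x)) (κ x) (2 ^ (BB (n x) (κ x) - 8 * n x)) []
  rw [List.append_nil] at this
  exact this.symm

end Pool.Agent.W911.AL
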