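import Pool.Agent.W911.AL.Prob
import Pool.Agent.W911.AL.PolSz
import Pool.Agent.H671R2.PolyAuto

/-!
# The hard language for `k` alternations is decided with `k + 1` alternations
-/

set_option autoImplicit false

namespace Pool.Agent.W911.AL

open Finset Pool.Agent.NPC H568R2 Pool.Agent.H676 Pool.Agent.H622R2
open Pool.Agent.H620R2.Gauge Pool.Agent.H591R3.PHG

namespace Up

/-- the state: the type of the next quantifier, the rest of the parameters, the rest of the
quantified strings, the address -/
abbrev St := Bool × List ℕ × List Bool × List Bool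

/-- one quantified string, of length `m`, is read -/
def step (m : ℕ) (s : St) : St :=
  (!s.1, s.2.1.tail, s.2.2.1.drop m, s.2.2.2 ++ s.2.2.1.take (min (s.2.1.headD 0) m))

theorem step_append (m : ℕ) : ∀ (i : ℕ) (b : Bool) (r : List ℕ) (u v q : List Bool),
    u.length = i * m →
    (step m)^[i] (b, r, u ++ v, q) =
      (((step m)^[i] (b, r, u, q)).1, ((step m)^[i] (b, r, u, q)).2.1, v,
        ((step m)^[i] (b, r, u, q)).2.2.2) := by
  intro i
  induction i with
  | zero =>
    intro b r u v q hu
    have : u = [] := List.length_eq_zero_iff.1 (by simpa using hu)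
    subst this
    simp
  | succ i ih =>
    intro b r u v q hu
    rw [Function.iterate_succ_apply, Function.iterate_succ_apply]
    have h0 : m ≤ u.length := by
      rw [hu]
      exact Nat.le_mul_of_pos_left _ (Nat.succ_pos i)
    have h1 : step m (b, r, u ++ v, q) =
        (!b, r.tail, u.drop m ++ v, q ++ u.take (min (r.headD 0) m)) := by
      unfold step
      simp only
      rw [List.drop_append_of_le_length h0, List.take_append_of_le_length
        ((min_le_right _ _).trans h0)]
    have h2 : step m (b, r, u, q) = (!b, r.tail, u.drop m,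
          q ++ u.take (min (r.headD 0) m)) := rfl
    rw [h1, h2]
    refine ih _ _ _ v _ ?_
    rw [List.length_drop, hu, add_mul, one_mul]
    omega

theorem exists_take {a m : ℕ} (φ : List Bool → Prop) (ha : a ≤ m) :
    (∃ w : List Bool, w.length = m ∧ φ (w.take a)) ↔ ∃ i < 2 ^ a, φ (bitsOf a i) := by
  constructor
  · rintro ⟨w, hw, h⟩
    obtain ⟨i, hi, h2⟩ := exists_bitsOf (w.take a)
    have h3 : (w.take a).length = a := by rw [List.length_take, hw]; omega
    rw [h3] at hi h2
    exact ⟨i, hi, by rw [h2]; exact h⟩
  · rintro ⟨i, _, h⟩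
    refine ⟨bitsOf a i ++ List.replicate (m - a) false, ?_, ?_⟩
    · rw [List.length_append, length_bitsOf, List.length_replicate]
      omega
    · have : (bitsOf a i ++ List.replicate (m - a) false).take a = bitsOf a i := by
        rw [List.take_append_of_le_length (by rw [length_bitsOf]),
          List.take_of_length_le (by rw [length_bitsOf])]
      rw [this]
      exact h

theorem forall_take {a m : ℕ} (φ : List Bool → Prop) (ha : a ≤ m) :
    (∀ w : List Bool, w.length = m → φ (w.take a)) ↔ ∀ i < 2 ^ a, φ (bitsOf a i) := by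
  have h := exists_take (fun w => ¬ φ w) ha
  constructor
  · intro h1
    by_contra h2
    push Not at h2
    obtain ⟨w, hw, h3⟩ := h.2 h2
    exact h3 (h1 w hw)
  · intro h1
    by_contra h2
    push Not at h2
    obtain ⟨i, hi, h3⟩ := h.1 h2
    exact h3 (h1 i hi)


theorem alt_iff (A : Oracle) (m w K : ℕ) (R0 : List ℕ) (x : List Bool) :
    ∀ (j i : ℕ) (b : Bool) (u : List Bool) (r : List ℕ) (q : List Bool),
      i + j = K → u.length = i * m →
      (step m)^[i] (true, R0, u, x) = (b, r, [], q) → r.length = j → (∀ a ∈ r, a ≤ m) →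
      (Alt m (fun v => bitv A w ((step m)^[K] (true, R0, v, x)).2.2.2 =
          !((step m)^[K] (true, R0, v, x)).1) j b u ↔
        (r.foldr up (bitv A w)) q = !b) := by
  intro j
  induction j with
  | zero =>
    intro i b u r q hi hu hs hr hrm
    have hi : i = K := by omega
    subst hi
    have hr0 : r = [] := List.length_eq_zero_iff.1 hr
    subst hr0
    have h1 : (Alt m (fun v => bitv A w ((step m)^[i] (true, R0, v, x)).2.2.2 =
        !((step m)^[i] (true, R0, v, x)).1) 0 b u ↔
        bitv A w ((step m)^[i] (true, R0, u, x)).2.2.2 =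
        !((step m)^[i] (true, R0, u, x)).1) := by cases b <;> exact Iff.rfl
    rw [h1, hs]
    exact Iff.rfl
  | succ j ih =>
    intro i b u r q hi hu hs hr hrm
    obtain ⟨a, r', rfl⟩ : ∃ a r', r = a :: r' := by
      cases r with
      | nil => simp at hr
      | cons a r' => exact ⟨a, r', rfl⟩
    have ha : a ≤ m := hrm a (List.mem_cons_self ..)
    have key : ∀ (z : List Bool), z.length = m →
        (Alt m (fun v => bitv A w ((step m)^[K] (true, R0, v, x)).2.2.2 =
          !((step m)^[K] (true, R0, v, x)).1) j (!b) (u ++ z) ↔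
        (r'.foldr up (bitv A w)) (q ++ z.take a) = b) := by
      intro z hz
      have h1 := ih (i + 1) (!b) (u ++ z) r' (q ++ z.take a)
        (by omega) (by rw [List.length_append, hu, hz]; ring) (by
          rw [Function.iterate_succ_apply', step_append m i true R0 u z x hu, hs]
          unfold step
          simp only [List.tail_cons, List.headD_cons]
          rw [← hz, List.drop_length, hz, min_eq_left ha]) (by simpa using hr)
        (fun c hc => hrm c (List.mem_cons_of_mem _ hc))
      rw [Bool.not_not] at h1
      exact h1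
    have hfold : ((a :: r').foldr up (bitv A w)) q =
        decide (∀ i < 2 ^ a, (r'.foldr up (bitv A w)) (q ++ bitsOf a i) = false) := rfl
    rw [hfold]
    cases b with
    | true =>
      have h2 : Alt m (fun v => bitv A w ((step m)^[K] (true, R0, v, x)).2.2.2 =
          !((step m)^[K] (true, R0, v, x)).1) (j + 1) true u ↔
          ∃ z : List Bool, z.length = m ∧ (r'.foldr up (bitv A w)) (q ++ z.take a) = true := by
        rw [Alt]
        exact exists_congr fun z => and_congr_right fun hz => key z hz
      rw [h2, exists_take (fun z => (r'.foldr up (bitv A w)) (q ++ z) = true) ha]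
      simp
    | false =>
      have h2 : Alt m (fun v => bitv A w ((step m)^[K] (true, R0, v, x)).2.2.2 =
          !((step m)^[K] (true, R0, v, x)).1) (j + 1) false u ↔
          ∀ z : List Bool, z.length = m → (r'.foldr up (bitv A w)) (q ++ z.take a) = false := by
        rw [Alt]
        exact forall_congr' fun z => forall_congr' fun hz => key z hz
      rw [h2, forall_take (fun z => (r'.foldr up (bitv A w)) (q ++ z) = false) ha]
      simp

theorem iter_len (m : ℕ) : ∀ (i : ℕ) (s : St),
    sz ((step m)^[i] s).2.1 ≤ sz s.2.1 ∧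
    ((step m)^[i] s).2.2.1.length + ((step m)^[i] s).2.2.2.length ≤
      s.2.2.1.length + s.2.2.2.length := by
  intro i
  induction i with
  | zero => intro s; exact ⟨le_rfl, le_rfl⟩
  | succ i ih =>
    intro s
    rw [Function.iterate_succ_apply]
    obtain ⟨h1, h2⟩ := ih (step m s)
    refine ⟨h1.trans ?_, h2.trans ?_⟩
    · have h3 : sz (s.2.1.drop 1) ≤ sz s.2.1 := NPC.Poly.sz_drop_le _ _
      rw [List.drop_one] at h3
      exact h3
    · unfold step
      simp only [List.length_drop, List.length_append, List.length_take]
      omega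

theorem tail_iterate {β : Type} (k : ℕ) (l : List β) :
    (fun l : List β => l.tail)^[k] l = l.drop k := by
  induction k with
  | zero => simp
  | succ k ih =>
    rw [Function.iterate_succ_apply', ih]
    simp

theorem poly_drop {α β : Type} [TEnc α] [TEnc β] {l : α → List β} {n : α → ℕ} (hl : Poly l)
    (hn : UPoly n) : Poly (fun a => (l a).drop (n a)) := by
  obtain ⟨q, hq⟩ := hl.sz_le
  refine (Poly.iterLen (F := fun _ (l : List β) => l.tail) hn hl (Poly.tail (Poly.snd Poly.id)) q
    ?_).congr ?_
  · intro a k _
    rw [tail_iterate]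
    exact (NPC.Poly.sz_drop_le _ _).trans (hq a)
  · intro a
    rw [List.length_replicate, tail_iterate]


theorem poly_step {α : Type} [TEnc α] {m : α → ℕ} {s : α → St} (hm : UPoly m) (hs : Poly s) :
    Poly (fun a => step (m a) (s a)) := by
  have hr : Poly (fun a => (s a).2.1) := Poly.fst (Poly.snd hs)
  have hu : Poly (fun a => (s a).2.2.1) := Poly.fst (Poly.snd (Poly.snd hs))
  have hh : Poly (fun a => (s a).2.1.headD 0) :=
    (Poly.head?_getD hr 0).congr fun a => by cases (s a).2.1 <;> rfl
  have ha : UPoly (fun a => min ((s a).2.1.headD 0) (m a)) :=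
    UPoly.of_le (Poly.min hh hm.toPoly) hm (fun a => min_le_right _ _)
  exact Poly.pair (Poly.not (Poly.fst hs)) (Poly.pair (Poly.tail hr) (Poly.pair (poly_drop hu hm)
    (Poly.append (Poly.snd (Poly.snd (Poly.snd hs))) (R1.poly_take hu ha))))

theorem nice_upoly {k : ℕ → ℕ} (hk : Nice k) :
    UPoly (fun x : List Bool => k x.length) := by
  have h1 : Poly (fun x : List Bool => List.replicate (k x.length) true) := poly_of_polyTime hk
  exact (UPoly.length h1).congr fun x => by simp

theorem nice_bound' {k : ℕ → ℕ} (hk : Nice k) : ∃ q : Polynomial ℕ, ∀ n, k n ≤ q.eval n := by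
  have h1 : Poly (fun x : List Bool => List.replicate (k x.length) true) := poly_of_polyTime hk
  obtain ⟨q, hq⟩ := h1.sz_le
  refine ⟨q.comp (Polynomial.C 4 * Polynomial.X + Polynomial.C 1), fun n => ?_⟩
  have h2 := hq (List.replicate n true)
  rw [List.length_replicate] at h2
  have h3 := length_lt_sz (List.replicate (k n) true)
  rw [List.length_replicate] at h3
  rw [Polynomial.eval_comp]
  refine h3.le.trans (h2.trans (eval_mono _ ?_))
  have h4 := sz_listBool_le (List.replicate n true)
  rw [List.length_replicate] at h4
  simpa using h4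

/-- the end of the computation, for the input `x` and all the quantified strings `u` -/
def dec (k : ℕ → ℕ) (x u : List Bool) : St :=
  (step (64 * x.length))^[k x.length + 1] (true, (Sz x.length (k x.length)).reverse, u, x)

theorem poly_dec {k : ℕ → ℕ} (hk : Nice k) :
    Poly (fun p : List Bool × List Bool => dec k p.1 p.2) := by
  have hx : UPoly (fun p : List Bool × List Bool => p.1.length) := UPoly.length (Poly.fst Poly.id)
  have hkx : UPoly (fun p : List Bool × List Bool => k p.1.length) :=
    (nice_upoly hk).comp (Poly.fst Poly.id)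
  have h1 : UPoly (fun p : List Bool × List Bool => k p.1.length + 1) :=
    UPoly.add hkx (UPoly.const 1)
  have hS : Poly (fun p : List Bool × List Bool => (Sz p.1.length (k p.1.length)).reverse) :=
    poly_Sz hx hkx
  have hm : UPoly (fun p : List Bool × List Bool => 64 * p.1.length) :=
    UPoly.mul (UPoly.const 64) hx
  obtain ⟨r, hr⟩ := hS.sz_le
  refine (Poly.iterLen (σ := St) (F := fun (p : List Bool × List Bool) s =>
      step (64 * p.1.length) s)
    (s := fun p : List Bool × List Bool =>
      (true, (Sz p.1.length (k p.1.length)).reverse, p.2, p.1)) h1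
    (Poly.pair (NPC.Poly.const true) (Poly.pair hS (Poly.pair (Poly.snd Poly.id)
      (Poly.fst Poly.id))))
    (poly_step (hm.comp (Poly.fst Poly.id)) (Poly.snd Poly.id))
    (r + Polynomial.C 8 * Polynomial.X + Polynomial.C 20) ?_).congr ?_
  · rintro ⟨x, u⟩ i _
    obtain ⟨h2, h2'⟩ := iter_len (64 * x.length) i
      (true, (Sz x.length (k x.length)).reverse, u, x)
    have h3 : ∀ s : St, sz s ≤ 3 + sz s.2.1 + (4 * s.2.2.1.length + 1) +
        (4 * s.2.2.2.length + 1) + 3 := by
      rintro ⟨b, r, v, q⟩
      have e1 := sz_bool_le b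
      have e3 := sz_listBool_le v
      have e4 := sz_listBool_le q
      simp only [sz_pair]
      omega
    have h4 := sz_listBool_ge x
    have h5 := sz_listBool_ge u
    have h6 := hr (x, u)
    show sz ((step (64 * x.length))^[i] (true, (Sz x.length (k x.length)).reverse, u, x)) ≤ _
    refine (h3 _).trans ?_
    simp only [Polynomial.eval_add, Polynomial.eval_mul, Polynomial.eval_C,
      Polynomial.eval_X]
    have h7 : sz (x, u) = sz x + sz u + 1 := sz_pair x u
    simp only at h2 h2' h6
    rw [h7] at h6 ⊢
    omega
  · rintro ⟨x, u⟩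
    rw [List.length_replicate]
    rfl

/-- the questions to the oracle -/
def Qs (k : ℕ → ℕ) (y : List Bool) : List (List Bool) :=
  (List.range (8 * (unpair y).1.length)).map (fun l =>
    (dec k (unpair y).1 (unpair y).2).2.2.2 ++
      (List.replicate (min l (8 * (unpair y).1.length)) ()).map (fun _ => true))

theorem poly_decy {k : ℕ → ℕ} (hk : Nice k) :
    Poly (fun y : List Bool => dec k (unpair y).1 (unpair y).2) :=
  (poly_dec hk).comp poly_unpair

theorem poly_Qs {k : ℕ → ℕ} (hk : Nice k) : Poly (Qs k) := by
  have h0 := poly_decy hk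
  have h2 : UPoly (fun y : List Bool => 8 * (unpair y).1.length) :=
    UPoly.mul (UPoly.const 8) (UPoly.length (Poly.fst poly_unpair))
  have h3 : UPoly (fun p : List Bool × ℕ => min p.2 (8 * (unpair p.1).1.length)) :=
    UPoly.of_le (Poly.min (Poly.snd Poly.id) (h2.toPoly.comp (Poly.fst Poly.id)))
      (h2.comp (Poly.fst Poly.id)) (fun p => min_le_right _ _)
  have h4 : Poly (fun p : List Bool × ℕ => (dec k (unpair p.1).1 (unpair p.1).2).2.2.2 ++
      (List.replicate (min p.2 (8 * (unpair p.1).1.length)) ()).map (fun _ => true)) :=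
    Poly.append (Poly.snd (Poly.snd (Poly.snd (h0.comp (Poly.fst Poly.id)))))
      (NPC.Poly.map (F := fun _ _ => true) h3 (NPC.Poly.const true))
  exact NPC.Poly.map (F := fun y l => (dec k (unpair y).1 (unpair y).2).2.2.2 ++
    (List.replicate (min l (8 * (unpair y).1.length)) ()).map (fun _ => true)) h2.range h4

/-- the verifier -/
def Ver (k : ℕ → ℕ) (A : Oracle) (y : List Bool) : List Bool :=
  [decide (((Qs k y).map A).all (fun b => !b) = !(dec k (unpair y).1 (unpair y).2).1)]

theorem isFP_Ver {k : ℕ → ℕ} (hk : Nice k) (A : Oracle) : IsFP A (Ver k A) := by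
  have h0 : Poly (fun p : List Bool × List Bool => dec k (unpair p.1).1 (unpair p.1).2) :=
    (poly_decy hk).comp (Poly.fst Poly.id)
  have h1 : Poly (fun p : List Bool × List Bool => p.2.all (fun b => !b)) :=
    Poly.all (p := fun _ b => !b) (Poly.snd Poly.id) (Poly.not (Poly.snd Poly.id))
  have h2 : Poly (fun p : List Bool × List Bool =>
      [decide (p.2.all (fun b => !b) = !(dec k (unpair p.1).1 (unpair p.1).2).1)]) :=
    Poly.cons (Poly.decide_eq h1 (Poly.not (Poly.fst h0))) (NPC.Poly.const [])
  exact IsFP.tt (A := A) (H := fun p =>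
    [decide (p.2.all (fun b => !b) = !(dec k (unpair p.1).1 (unpair p.1).2).1)]) (poly_Qs hk) h2

theorem Ver_iff (k : ℕ → ℕ) (A : Oracle) (x u : List Bool) :
    Ver k A (pairBits x u) = [true] ↔ bitv A (8 * x.length) (dec k x u).2.2.2 = !(dec k x u).1 := by
  have h1 : ((Qs k (pairBits x u)).map A).all (fun b => !b) =
      bitv A (8 * x.length) (dec k x u).2.2.2 := by
    rw [Bool.eq_iff_iff]
    unfold bitv Qs
    rw [List.all_eq_true, decide_eq_true_iff, unpair_pairBits]
    simp only [List.mem_map, List.mem_range, Bool.not_eq_true', List.map_replicate]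
    constructor
    · intro h l hl
      have h2 := h (A ((dec k x u).2.2.2 ++ List.replicate l true)) ⟨_, ⟨l, hl, rfl⟩, by
        rw [Nat.min_eq_left hl.le]⟩
      exact h2
    · rintro h b ⟨_, ⟨l, hl, rfl⟩, rfl⟩
      rw [Nat.min_eq_left hl.le]
      exact h l hl
  unfold Ver
  rw [h1, unpair_pairBits]
  simp only [List.cons.injEq, and_true, decide_eq_true_eq]

end Up

/-- the hard language for `k` alternations is decided with `k + 1` alternations -/
theorem HL_sigma {k : ℕ → ℕ} (hk : Nice k) (A : Oracle) :
    IsSigma A (fun n => k n + 1) (HL k A) := by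
  refine ⟨Up.Ver k A, Polynomial.C 64 * Polynomial.X, Up.isFP_Ver hk A, fun x => ?_⟩
  have hm : (Polynomial.C 64 * Polynomial.X : Polynomial ℕ).eval x.length = 64 * x.length := by
    simp
  rw [hm]
  have h1 := Up.alt_iff A (64 * x.length) (8 * x.length) (k x.length + 1)
    (Sz x.length (k x.length)).reverse x (k x.length + 1) 0 true []
    (Sz x.length (k x.length)).reverse x (by omega) (by simp) rfl
    (by rw [List.length_reverse, Sz_length])
    (fun a ha => Sz_le x.length (k x.length) a (List.mem_reverse.1 ha))
  have h2 : Alt (64 * x.length) (fun u => Up.Ver k A (pairBits x u) = [true])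
      (k x.length + 1) true [] ↔ _ :=
    (Alt_congr _ _ _ fun v _ => Up.Ver_iff k A x v).trans h1
  rw [h2, List.foldr_reverse]
  exact Iff.rfl

end Pool.Agent.W911.AL
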