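import Pool.Agent.W911.AL.PH
import Pool.Agent.W911.IB.Tra

/-!
# Polynomial space is the union of the classes with a growing number of alternations

The simulation of Chandra, Kozen and Stockmeyer, relative to an oracle.
-/

set_option autoImplicit false

namespace Pool.Agent.W911.AL

open Pool.Agent.NPC Pool.Agent.H622R2
open Pool.Agent.H620R2.Gauge (Oracle IsFP Alg SAlg IsPSPACE)
open Pool.Agent.W911.IB (stp stb qy length_iter length_stb final_iter)

namespace CKS

/-- the state: the first and the last content of the memory, the rest of the quantified strings -/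
abbrev S3 : Type := List Bool × List Bool × List Bool

/-- one round: a content of the memory in the middle, and the choice of one half -/
def rnd (ℓ : ℕ) (s : S3) : S3 :=
  if (s.2.2.drop (2 * ℓ + 1)).head?.getD false = true then
    (dc ℓ (s.2.2.take (2 * ℓ + 1)), s.2.1, s.2.2.drop (2 * (2 * ℓ + 1)))
  else (s.1, dc ℓ (s.2.2.take (2 * ℓ + 1)), s.2.2.drop (2 * (2 * ℓ + 1)))

/-- the state at the start -/
def ini (ℓ : ℕ) (u : List Bool) : S3 :=
  ([], dc ℓ (u.take (2 * ℓ + 1)), u.drop (2 * (2 * ℓ + 1)))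

theorem rnd_append (ℓ : ℕ) : ∀ (i : ℕ) (a b u v : List Bool), u.length = i * (2 * (2 * ℓ + 1)) →
    (rnd ℓ)^[i] (a, b, u ++ v) =
      (((rnd ℓ)^[i] (a, b, u)).1, ((rnd ℓ)^[i] (a, b, u)).2.1, v) := by
  intro i
  induction i with
  | zero =>
    intro a b u v hu
    have : u = [] := List.length_eq_zero_iff.1 (by simpa using hu)
    subst this
    simp
  | succ i ih =>
    intro a b u v hu
    rw [Function.iterate_succ_apply, Function.iterate_succ_apply]
    have h0 : 2 * (2 * ℓ + 1) ≤ u.length := by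
      rw [hu]
      exact Nat.le_mul_of_pos_left _ (Nat.succ_pos i)
    have hlt : 2 * ℓ + 1 < u.length := by omega
    have hd : ((u ++ v).drop (2 * ℓ + 1)).head? = (u.drop (2 * ℓ + 1)).head? := by
      rw [List.drop_append_of_le_length hlt.le]
      rw [List.head?_append_of_ne_nil]
      intro h
      have := congrArg List.length h
      rw [List.length_drop, List.length_nil] at this
      omega
    have h1 : rnd ℓ (a, b, u ++ v) =
        ((rnd ℓ (a, b, u)).1, (rnd ℓ (a, b, u)).2.1, u.drop (2 * (2 * ℓ + 1)) ++ v) := by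
      unfold rnd
      simp only
      rw [hd, List.take_append_of_le_length hlt.le, List.drop_append_of_le_length h0]
      split_ifs <;> rfl
    have h2 : rnd ℓ (a, b, u) =
        ((rnd ℓ (a, b, u)).1, (rnd ℓ (a, b, u)).2.1, u.drop (2 * (2 * ℓ + 1))) := by
      unfold rnd
      simp only
      split_ifs <;> rfl
    have hl : (u.drop (2 * (2 * ℓ + 1))).length = i * (2 * (2 * ℓ + 1)) := by
      rw [List.length_drop, hu, add_mul, one_mul]
      omega
    rw [h1, ih _ _ _ v hl, ← h2]

theorem rnd_bound (ℓ : ℕ) : ∀ (i : ℕ) (s : S3), s.1.length ≤ ℓ → s.2.1.length ≤ ℓ →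
    ((rnd ℓ)^[i] s).1.length ≤ ℓ ∧ ((rnd ℓ)^[i] s).2.1.length ≤ ℓ ∧
      ((rnd ℓ)^[i] s).2.2.length ≤ s.2.2.length := by
  intro i
  induction i with
  | zero => intro s h1 h2; exact ⟨h1, h2, le_rfl⟩
  | succ i ih =>
    intro s h1 h2
    rw [Function.iterate_succ_apply]
    have h3 : (rnd ℓ s).1.length ≤ ℓ ∧ (rnd ℓ s).2.1.length ≤ ℓ ∧
        (rnd ℓ s).2.2.length ≤ s.2.2.length := by
      unfold rnd
      split_ifs
      · exact ⟨dc_length _ _, h2, by simp⟩
      · exact ⟨h1, dc_length _ _, by simp⟩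
    obtain ⟨h4, h5, h6⟩ := ih (rnd ℓ s) h3.1 h3.2.1
    exact ⟨h4, h5, h6.trans h3.2.2⟩

/-- the truth at the end -/
def Acc (M : SAlg) (A : Oracle) (x : List Bool) (ℓ : ℕ) (a b c : List Bool) : Prop :=
  stp M A x ℓ a = b ∧ M.act (pairBits x c) = [true, true]

theorem game (M : SAlg) (A : Oracle) (x : List Bool) (ℓ e : ℕ) : ∀ (j i : ℕ) (u w₀ : List Bool)
    (a b : List Bool), i + j = e → w₀.length = 2 * (2 * ℓ + 1) →
    u.length = i * (2 * (2 * ℓ + 1)) →
    (rnd ℓ)^[i] ([], dc ℓ (w₀.take (2 * ℓ + 1)), u) = (a, b, []) →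
    (Alt (2 * ℓ + 1) (fun v => Acc M A x ℓ ((rnd ℓ)^[e] (ini ℓ v)).1
        ((rnd ℓ)^[e] (ini ℓ v)).2.1 (dc ℓ (v.take (2 * ℓ + 1)))) (2 * j) true (w₀ ++ u) ↔
      (stp M A x ℓ)^[2 ^ j] a = b ∧
        M.act (pairBits x (dc ℓ (w₀.take (2 * ℓ + 1)))) = [true, true]) := by
  intro j
  induction j with
  | zero =>
    intro i u w₀ a b hi hw hu hs
    have hi : i = e := by omega
    subst hi
    have h1 : ini ℓ (w₀ ++ u) = ([], dc ℓ (w₀.take (2 * ℓ + 1)), u) := by
      unfold ini
      rw [← hw, List.drop_left, List.take_append_of_le_length (by omega)]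
    have h2 : (w₀ ++ u).take (2 * ℓ + 1) = w₀.take (2 * ℓ + 1) :=
      List.take_append_of_le_length (by omega)
    show Acc M A x ℓ ((rnd ℓ)^[i] (ini ℓ (w₀ ++ u))).1 _ _ ↔ _
    rw [h1, h2, hs]
    unfold Acc
    simp
  | succ j ih =>
    intro i u w₀ a b hi hw hu hs
    have hab := rnd_bound ℓ i ([], dc ℓ (w₀.take (2 * ℓ + 1)), u) (by simp) (dc_length _ _)
    rw [hs] at hab
    have key : ∀ w w' : List Bool, w.length = 2 * ℓ + 1 → w'.length = 2 * ℓ + 1 →
        (Alt (2 * ℓ + 1) (fun v => Acc M A x ℓ ((rnd ℓ)^[e] (ini ℓ v)).1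
          ((rnd ℓ)^[e] (ini ℓ v)).2.1 (dc ℓ (v.take (2 * ℓ + 1)))) (2 * j) true
          (w₀ ++ u ++ w ++ w') ↔
        (stp M A x ℓ)^[2 ^ j] (if w'.head?.getD false = true then dc ℓ w else a) =
            (if w'.head?.getD false = true then b else dc ℓ w) ∧
          M.act (pairBits x (dc ℓ (w₀.take (2 * ℓ + 1)))) = [true, true]) := by
      intro w w' hw1 hw2
      have h1 : w₀ ++ u ++ w ++ w' = w₀ ++ (u ++ (w ++ w')) := by simp
      rw [h1]
      refine ih (i + 1) (u ++ (w ++ w')) w₀ _ _ (by omega) hw (by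
        rw [List.length_append, List.length_append, hu, hw1, hw2]; ring) ?_
      rw [Function.iterate_succ_apply', rnd_append ℓ i _ _ u (w ++ w') hu, hs]
      unfold rnd
      simp only
      have e1 : (w ++ w').drop (2 * ℓ + 1) = w' := by rw [← hw1, List.drop_left]
      have e2 : (w ++ w').take (2 * ℓ + 1) = w := by rw [← hw1, List.take_left]
      have e3 : (w ++ w').drop (2 * (2 * ℓ + 1)) = [] := by
        apply List.drop_of_length_le
        rw [List.length_append, hw1, hw2]
        omega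
      rw [e1, e2, e3]
      split_ifs <;> rfl
    have h2j : 2 * (j + 1) = (2 * j + 1) + 1 := by ring
    rw [h2j, Alt]
    simp only [Alt]
    have h5 : 2 ^ (j + 1) = 2 ^ j + 2 ^ j := by rw [pow_succ]; ring
    rw [h5, Function.iterate_add_apply]
    have h4 : ((stp M A x ℓ)^[2 ^ j] a).length ≤ ℓ :=
      (length_iter M A x _ a _).trans (max_le hab.1 le_rfl)
    constructor
    · rintro ⟨w, hw1, h⟩
      have g1 := (key w (true :: List.replicate (2 * ℓ) false) hw1 (by simp)).1
        (h _ (by simp))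
      have g2 := (key w (false :: List.replicate (2 * ℓ) false) hw1 (by simp)).1
        (h _ (by simp))
      simp only [List.head?_cons, Option.getD_some, if_true, Bool.false_eq_true, if_false] at g1 g2
      exact ⟨by rw [g2.1]; exact g1.1, g1.2⟩
    · rintro ⟨h6, h7⟩
      obtain ⟨z, hz, hz2⟩ := dc_surj h4
      refine ⟨z, hz, fun w' hw' => (key z w' hz hw').2 ⟨?_, h7⟩⟩
      rw [hz2]
      split_ifs
      · exact h6
      · rfl

/-- the argument of the last check -/
def fin (p : Polynomial ℕ) (x u : List Bool) : S3 :=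
  (rnd (p.eval x.length))^[p.eval x.length + 1] (ini (p.eval x.length) u)

section

attribute [local fun_prop] poly_pairBits

attribute [local irreducible] unpair

variable {α : Type} [TEnc α]

theorem poly_dc {m : α → ℕ} {w : α → List Bool} (hm : UPoly m) (hw : Poly w) :
    Poly (fun a => dc (m a) (w a)) := Pool.Agent.H620R2.Gauge.R1.poly_take (Poly.fst (poly_unpair.comp hw)) hm

theorem poly_rnd {ℓ : α → ℕ} {s : α → S3} (hℓ : UPoly ℓ) (hs : Poly s) :
    Poly (fun a => rnd (ℓ a) (s a)) := by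
  have h1 : UPoly (fun a => 2 * ℓ a + 1) := UPoly.add (UPoly.mul (UPoly.const 2) hℓ)
    (UPoly.const 1)
  have h2 : UPoly (fun a => 2 * (2 * ℓ a + 1)) := UPoly.mul (UPoly.const 2) h1
  have h3 : Poly (fun a => (s a).2.2) := Poly.snd (Poly.snd hs)
  have h4 : Poly (fun a => dc (ℓ a) ((s a).2.2.take (2 * ℓ a + 1))) :=
    poly_dc hℓ (Pool.Agent.H620R2.Gauge.R1.poly_take h3 h1)
  have h5 : Poly (fun a => (s a).2.2.drop (2 * (2 * ℓ a + 1))) := Up.poly_drop h3 h2
  have h6 : Poly (fun a => ((s a).2.2.drop (2 * ℓ a + 1)).head?.getD false) :=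
    Poly.head?_getD (Up.poly_drop h3 h1) false
  exact Poly.ite (Poly.decide_eq h6 (NPC.Poly.const true))
    (Poly.pair h4 (Poly.pair (Poly.fst (Poly.snd hs)) h5))
    (Poly.pair (Poly.fst hs) (Poly.pair h4 h5))

theorem poly_fin (p : Polynomial ℕ) {x u : α → List Bool} (hx : Poly x) (hu : Poly u) :
    Poly (fun a => fin p (x a) (u a)) := by
  have hp : UPoly (fun a => p.eval (x a).length) := UPoly.eval (UPoly.length hx) p
  have h1 : UPoly (fun a => p.eval (x a).length + 1) := UPoly.add hp (UPoly.const 1)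
  have h2 : UPoly (fun a => 2 * p.eval (x a).length + 1) :=
    UPoly.add (UPoly.mul (UPoly.const 2) hp) (UPoly.const 1)
  have hini : Poly (fun a => ini (p.eval (x a).length) (u a)) :=
    Poly.pair (NPC.Poly.const []) (Poly.pair (poly_dc hp (Pool.Agent.H620R2.Gauge.R1.poly_take hu h2))
      (Up.poly_drop hu (UPoly.mul (UPoly.const 2) h2)))
  obtain ⟨q, hq⟩ := exists_bound (UPoly.add (UPoly.mul (UPoly.const 8) hp)
    (UPoly.add (UPoly.mul (UPoly.const 4) (UPoly.length hu)) (UPoly.const 10)))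
  refine (Poly.iterLen (σ := S3) (F := fun a s => rnd (p.eval (x a).length) s)
    (s := fun a => ini (p.eval (x a).length) (u a)) h1 hini
    (poly_rnd (hp.comp (Poly.fst Poly.id)) (Poly.snd Poly.id)) q ?_).congr ?_
  · intro a i _
    obtain ⟨h3, h4, h5⟩ := rnd_bound (p.eval (x a).length) i (ini (p.eval (x a).length) (u a))
      (by unfold ini; simp) (dc_length _ _)
    have h6 := hq a
    show sz ((rnd (p.eval (x a).length))^[i] (ini (p.eval (x a).length) (u a))) ≤ _
    obtain ⟨s, hs⟩ : ∃ s, s = (rnd (p.eval (x a).length))^[i] (ini (p.eval (x a).length) (u a)) :=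
      ⟨_, rfl⟩
    rw [← hs] at h3 h4 h5 ⊢
    obtain ⟨c, d, v⟩ := s
    have e1 := sz_listBool_le c
    have e2 := sz_listBool_le d
    have e3 := sz_listBool_le v
    have e4 : (ini (p.eval (x a).length) (u a)).2.2.length ≤ (u a).length := by
      unfold ini
      simp
    simp only [sz_pair] at *
    refine le_trans ?_ h6
    omega
  · intro a
    rw [List.length_replicate]
    rfl

/-- the verifier -/
def Ver (M : SAlg) (p : Polynomial ℕ) (A : Oracle) (y : List Bool) : List Bool :=
  [decide (stp M A (unpair y).1 (p.eval (unpair y).1.length) (fin p (unpair y).1 (unpair y).2).1 =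
      (fin p (unpair y).1 (unpair y).2).2.1 ∧
    M.act (pairBits (unpair y).1 (dc (p.eval (unpair y).1.length)
      ((unpair y).2.take (2 * p.eval (unpair y).1.length + 1)))) = [true, true])]

theorem isFP_Ver (M : SAlg) (p : Polynomial ℕ) (A : Oracle) : IsFP A (Ver M p A) := by
  have i1 : Poly (fun y : List Bool => (unpair y).1) := Poly.fst poly_unpair
  have i2 : Poly (fun y : List Bool => (unpair y).2) := Poly.snd poly_unpair
  have hf := poly_fin p i1 i2
  have hq : Poly (fun y : List Bool => [qy M (unpair y).1 (fin p (unpair y).1 (unpair y).2).1]) :=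
    Poly.cons (Pool.Agent.W911.IB.poly_qy M |>.comp (Poly.pair i1 (Poly.fst hf)))
      (NPC.Poly.const [])
  have hp : UPoly (fun y : List Bool => p.eval (unpair y).1.length) :=
    UPoly.eval (UPoly.length i1) p
  have h2 : UPoly (fun y : List Bool => 2 * p.eval (unpair y).1.length + 1) :=
    UPoly.add (UPoly.mul (UPoly.const 2) hp) (UPoly.const 1)
  have hc : Poly (fun y : List Bool => M.act (pairBits (unpair y).1 (dc (p.eval (unpair y).1.length)
      ((unpair y).2.take (2 * p.eval (unpair y).1.length + 1))))) :=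
    (poly_of_polyTime M.act_poly).comp (poly_pairBits i1 (poly_dc hp (Pool.Agent.H620R2.Gauge.R1.poly_take i2 h2)))
  have hs : Poly (fun z : List Bool × List Bool => stb M (z.2.head?.getD false) (unpair z.1).1
      (p.eval (unpair z.1).1.length) (fin p (unpair z.1).1 (unpair z.1).2).1) :=
    (Pool.Agent.W911.IB.poly_stb M).comp (Poly.pair (Poly.head?_getD (Poly.snd Poly.id) false)
      (Poly.pair (i1.comp (Poly.fst Poly.id)) (Poly.pair (hp.toPoly.comp (Poly.fst Poly.id))
        (Poly.fst (hf.comp (Poly.fst Poly.id))))))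
  have hH : Poly (fun z : List Bool × List Bool =>
      [decide (stb M (z.2.head?.getD false) (unpair z.1).1
        (p.eval (unpair z.1).1.length) (fin p (unpair z.1).1 (unpair z.1).2).1 =
        (fin p (unpair z.1).1 (unpair z.1).2).2.1 ∧
      M.act (pairBits (unpair z.1).1 (dc (p.eval (unpair z.1).1.length)
        ((unpair z.1).2.take (2 * p.eval (unpair z.1).1.length + 1)))) = [true, true])]) :=
    Poly.cons (Poly.decide_and (Poly.dec_eq hs (Poly.fst (Poly.snd (hf.comp (Poly.fst Poly.id)))))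
      (Poly.dec_eq (hc.comp (Poly.fst Poly.id)) (NPC.Poly.const _))) (NPC.Poly.const [])
  exact Pool.Agent.H620R2.Gauge.IsFP.tt (A := A) hq hH

theorem Ver_iff (M : SAlg) (p : Polynomial ℕ) (A : Oracle) (x u : List Bool) :
    Ver M p A (pairBits x u) = [true] ↔ Acc M A x (p.eval x.length)
      ((rnd (p.eval x.length))^[p.eval x.length + 1] (ini (p.eval x.length) u)).1
      ((rnd (p.eval x.length))^[p.eval x.length + 1] (ini (p.eval x.length) u)).2.1
      (dc (p.eval x.length) (u.take (2 * p.eval x.length + 1))) := by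
  unfold Ver
  rw [unpair_pairBits]
  simp only [List.cons.injEq, and_true, decide_eq_true_eq]
  exact Iff.rfl

end

end CKS

open CKS in
theorem isSigma_of_isPSPACE {A : Oracle} {L : Set (List Bool)} (h : IsPSPACE A L) :
    ∃ k, Nice k ∧ IsSigma A k L := by
  obtain ⟨M, p, hM⟩ := h
  refine ⟨fun n => 2 * (p.eval n + 1) + 2, ?_, Ver M p A, 2 * p + 1, isFP_Ver M p A,
    fun x => ?_⟩
  · apply polyTime_of_poly_list
    have h1 : UPoly (fun x : List Bool => 2 * (p.eval x.length + 1) + 2) :=
      UPoly.add (UPoly.mul (UPoly.const 2) (UPoly.add (UPoly.eval (UPoly.length Poly.id) p)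
        (UPoly.const 1))) (UPoly.const 2)
    exact (NPC.Poly.map (F := fun _ _ => true) h1 (NPC.Poly.const true)).congr fun x => by
      rw [List.map_replicate]
  · have e : (2 * p + 1).eval x.length = 2 * p.eval x.length + 1 := by simp
    rw [e]
    obtain ⟨h1, s, z, h2, h3, h4⟩ := hM x
    set ℓ := p.eval x.length with hℓ
    have h5 := final_iter h1 h2 h3
    rw [← hℓ] at h5
    have h6 : Alt (2 * ℓ + 1) (fun u => Ver M p A (pairBits x u) = [true])
        (2 * (ℓ + 1) + 2) true [] ↔
        ∃ w₀ : List Bool, w₀.length = 2 * ℓ + 1 ∧ ∀ w₁ : List Bool, w₁.length = 2 * ℓ + 1 →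
          ((stp M A x ℓ)^[2 ^ (ℓ + 1)] [] = dc ℓ w₀ ∧
            M.act (pairBits x (dc ℓ w₀)) = [true, true]) := by
      rw [Alt_congr (R' := fun v => Acc M A x ℓ ((rnd ℓ)^[ℓ + 1] (ini ℓ v)).1
        ((rnd ℓ)^[ℓ + 1] (ini ℓ v)).2.1 (dc ℓ (v.take (2 * ℓ + 1)))) _ _ _
        (fun v _ => Ver_iff M p A x v)]
      rw [show 2 * (ℓ + 1) + 2 = (2 * (ℓ + 1) + 1) + 1 by ring, Alt]
      refine exists_congr fun w₀ => and_congr_right fun hw₀ => ?_
      rw [Alt]
      refine forall_congr' fun w₁ => forall_congr' fun hw₁ => ?_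
      have h7 := game M A x ℓ (ℓ + 1) (ℓ + 1) 0 [] (w₀ ++ w₁) [] (dc ℓ w₀) (by omega)
        (by rw [List.length_append, hw₀, hw₁]; ring) (by simp) (by
          have : (w₀ ++ w₁).take (2 * ℓ + 1) = w₀ := by rw [← hw₀, List.take_left]
          rw [this]
          rfl)
      have h8 : (w₀ ++ w₁).take (2 * ℓ + 1) = w₀ := by rw [← hw₀, List.take_left]
      rw [h8, List.append_nil] at h7
      rw [List.nil_append]
      exact h7
    rw [h6, h4]
    constructor
    · intro hz
      have hs : s.length ≤ ℓ := h1 s h2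
      obtain ⟨w₀, hw₀, hw⟩ := dc_surj hs
      refine ⟨w₀, hw₀, fun _ _ => ⟨by rw [hw]; exact h5, ?_⟩⟩
      rw [hw, h3, hz]
    · rintro ⟨w₀, hw₀, h⟩
      obtain ⟨h7, h8⟩ := h w₀ hw₀
      rw [h5] at h7
      rw [← h7, h3] at h8
      simpa using h8

/-- polynomial space is the union of the classes -/
theorem isPSPACE_iff {A : Oracle} {L : Set (List Bool)} :
    IsPSPACE A L ↔ ∃ k, Nice k ∧ IsSigma A k L :=
  ⟨isSigma_of_isPSPACE, fun ⟨_, hk, h⟩ => h.isPSPACE hk⟩

end Pool.Agent.W911.AL
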