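import Pool.Agent.W911.AL.Defs

/-!
# From alternating quantifiers over strings of a fixed length to nested pairs
-/

set_option autoImplicit false

namespace Pool.Agent.W911.AL

open Pool.Agent.NPC H568R2 Pool.Agent.H676
open Pool.Agent.H620R2.Gauge

/-- the string `w` with zeros, exactly `m` bits -/
def fm (m : ℕ) (w : List Bool) : List Bool := (w ++ List.replicate m false).take m

theorem length_fm (m : ℕ) (w : List Bool) : (fm m w).length = m := by
  simp [fm]

theorem fm_eq {m : ℕ} {w : List Bool} (h : w.length = m) : fm m w = w := by
  unfold fm
  rw [← h, List.take_left]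

/-- the string at the start and the concatenation of `j` strings, from the nested pairs -/
def nd (m : ℕ) : ℕ → List Bool → List Bool × List Bool
  | 0, y => (y, [])
  | j + 1, y => ((nd m j (unpair y).2).1, (nd m j (unpair y).2).2 ++ fm m (unpair y).1)

theorem nd_pair (m j : ℕ) (w y : List Bool) :
    nd m (j + 1) (pairBits w y) = ((nd m j y).1, (nd m j y).2 ++ fm m w) := by
  simp only [nd, unpair_pairBits]

theorem nd_len (m : ℕ) : ∀ (j : ℕ) (y : List Bool),
    (nd m j y).1.length ≤ y.length ∧ (nd m j y).2.length = j * m := by
  intro j
  induction j with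
  | zero => intro y; simp [nd]
  | succ j ih =>
    intro y
    have h1 := ih (unpair y).2
    have h2 := Pool.Agent.H591R3.PHG.LangSig.length_unpair y
    refine ⟨by simp only [nd]; omega, ?_⟩
    simp only [nd, List.length_append, length_fm, h1.2]
    ring

/-- the property at the end, with nested pairs -/
noncomputable def GG {I : Type*} (m κ : ℕ) (F : List Bool → (I → Bool) → Bool) :
    List Bool → (I → Bool) → Bool :=
  fun y a => F (pairBits (nd m κ y).1 (nd m κ y).2) a

theorem qf_alt {I : Type*} (m κ : ℕ) (F : List Bool → (I → Bool) → Bool) (a : I → Bool)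
    (y0 : List Bool) : ∀ (j i : ℕ) (b : Bool) (y u : List Bool), i + j = κ →
      nd m i y = (y0, u) →
      (QF m (GG m κ F) j b y a = true ↔ Alt m (fun v => F (pairBits y0 v) a = true) j b u) := by
  intro j
  induction j with
  | zero =>
    intro i b y u hi hy
    have : i = κ := by omega
    subst this
    have h1 : GG m i F y a = F (pairBits y0 u) a := by
      unfold GG
      rw [hy]
    cases b <;> simp only [QF, Alt, h1]
  | succ j ih =>
    intro i b y u hi hy
    have h1 : ∀ (b : Bool) (w : List Bool), (QF m (GG m κ F) j b (pairBits w y) a = true ↔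
        Alt m (fun v => F (pairBits y0 v) a = true) j b (u ++ fm m w)) := by
      intro b w
      refine ih (i + 1) b (pairBits w y) (u ++ fm m w) (by omega) ?_
      rw [nd_pair, hy]
    cases b with
    | true =>
      simp only [QF, Alt, decide_eq_true_eq, h1]
      constructor
      · rintro ⟨w, _, h⟩
        exact ⟨fm m w, length_fm m w, h⟩
      · rintro ⟨w, hw, h⟩
        exact ⟨w, hw.le, by rw [fm_eq hw]; exact h⟩
    | false =>
      simp only [QF, Alt, decide_eq_true_eq, h1]
      constructor
      · intro h w hw
        have := h w hw.le
        rwa [fm_eq hw] at this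
      · intro h w _
        exact h (fm m w) (length_fm m w)

end Pool.Agent.W911.AL
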