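import Pool.Agent.H591R3.PHG.Main
import Pool.Agent.H591R3.PHG.Event
import Pool.Agent.H591R3.PHG.LangSig
import Pool.Agent.H620R2.GaugeR.R1
import Pool.Agent.W911.IB.Law

/-!
# Polynomial time with a growing number of alternations: definitions
-/

set_option autoImplicit false

namespace Pool.Agent.W911.AL

open Pool.Agent.NPC MeasureTheory
open Pool.Agent.H620R2.Gauge (Oracle IsFP IsPSPACE)

/-- `j` alternating quantifiers over the bit strings of length exactly `m`, the first one
existential if the bit is `true` and universal if it is `false`; the quantified strings are
appended, one after the other, to the string `u`, and the resulting string has the property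
`R`. -/
def Alt (m : ℕ) (R : List Bool → Prop) : ℕ → Bool → List Bool → Prop
  | 0, _, u => R u
  | j + 1, true, u => ∃ w : List Bool, w.length = m ∧ Alt m R j false (u ++ w)
  | j + 1, false, u => ∀ w : List Bool, w.length = m → Alt m R j true (u ++ w)

/-- The language `L` is in the class `Σ_{k(n)}` relative to the oracle `A`: there are a function
`V` which is polynomial-time computable relative to `A` and a polynomial `p` such that a string
`x` of length `n` is in `L` if and only if `∃ w₁ ∀ w₂ ∃ w₃ ⋯ V ⟨x, w₁ w₂ w₃ ⋯⟩ = [true]`, with
`k n` alternating quantifiers over the strings of length `p n`. -/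
def IsSigma (A : Oracle) (k : ℕ → ℕ) (L : Set (List Bool)) : Prop :=
  ∃ (V : List Bool → List Bool) (p : Polynomial ℕ), IsFP A V ∧
    ∀ x, x ∈ L ↔ Alt (p.eval x.length) (fun u => V (pairBits x u) = [true]) (k x.length) true []

/-- The language `L` is in the class `Σ_{k(n)}` relative to the oracle `A` with polynomial advice:
the function `V` gets, besides `x` and the quantified strings, a string `h |x|` of polynomially
bounded length which depends on the length of `x` only. -/
def IsSigmaPoly (A : Oracle) (k : ℕ → ℕ) (L : Set (List Bool)) : Prop :=
  ∃ (V : List Bool → List Bool) (p p' : Polynomial ℕ) (h : ℕ → List Bool), IsFP A V ∧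
    (∀ n, (h n).length ≤ p'.eval n) ∧
    ∀ x, x ∈ L ↔ Alt (p.eval x.length)
      (fun u => V (pairBits (pairBits x (h x.length)) u) = [true]) (k x.length) true []

/-- The number `k n`, in unary, is computable in polynomial time from any string of
length `n`. -/
def Nice (k : ℕ → ℕ) : Prop := PolyTime (fun x => List.replicate (k x.length) true)

/-- The distribution of a random oracle: every string is in it with probability `1 / 2`,
independently of the other ones. -/
noncomputable def fair : Measure Oracle :=
  Pool.Agent.W911.IB.law (fun _ => ⟨1 / 2, by norm_num, by norm_num⟩)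

instance : IsProbabilityMeasure fair :=
  inferInstanceAs (IsProbabilityMeasure (Pool.Agent.W911.IB.law _))

theorem Alt_congr {m : ℕ} {R R' : List Bool → Prop} : ∀ (j : ℕ) (b : Bool) (u : List Bool),
    (∀ v : List Bool, v.length = u.length + j * m → (R v ↔ R' v)) →
      (Alt m R j b u ↔ Alt m R' j b u) := by
  intro j
  induction j with
  | zero =>
    intro b u h
    cases b <;> exact h u (by simp)
  | succ j ih =>
    intro b u h
    have h1 : ∀ (b : Bool) (w : List Bool), w.length = m →
        (Alt m R j b (u ++ w) ↔ Alt m R' j b (u ++ w)) := by
      intro b w hw
      refine ih b (u ++ w) fun v hv => h v ?_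
      rw [hv, List.length_append, hw, add_mul, one_mul]
      omega
    cases b with
    | true =>
      simp only [Alt]
      exact exists_congr fun w => and_congr_right fun hw => h1 _ w hw
    | false =>
      simp only [Alt]
      exact forall_congr' fun w => forall_congr' fun hw => h1 _ w hw

end Pool.Agent.W911.AL
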