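import Pool.Agent.W911.AL.Prob

/-!
# The probability that the hard language is easy for the inputs of one length
-/

set_option autoImplicit false

namespace Pool.Agent.W911.AL

open Finset MeasureTheory Pool.Agent.NPC H568R2 Pool.Agent.H676
open Pool.Agent.H620R2.Gauge Pool.Agent.H591R3.PHG
open Pool.Agent.W911.IB (Ew bt law_local)

/-- the parameters: an algorithm and two polynomials -/
structure Th where
  M : Alg
  p : Polynomial ℕ
  p' : Polynomial ℕ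

theorem countable_polynomial : Countable (Polynomial ℕ) := by
  have : Function.Injective (fun p : Polynomial ℕ => (p.toFinsupp.coeff : ℕ →₀ ℕ)) := by
    intro p q h
    ext n
    exact DFunLike.congr_fun h n
  exact this.countable

instance : Countable Th := by
  have h2 := countable_polynomial
  let F : Th → Alg × Polynomial ℕ × Polynomial ℕ := fun θ => (θ.M, θ.p, θ.p')
  have hF : Function.Injective F := by
    rintro ⟨M, p, p'⟩ ⟨N, q, q'⟩ h
    simp only [F, Prod.mk.injEq] at h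
    obtain ⟨rfl, rfl, rfl⟩ := h
    rfl
  exact hF.countable

/-- The oracles for which some advice is right for all the inputs of length `ℓ`. -/
def Bad (θ : Th) (ℓ κ : ℕ) : Set Oracle :=
  {A | ∃ h : List Bool, h.length ≤ θ.p'.eval ℓ ∧ ∀ x : List Bool, x.length = ℓ →
    (HV κ A x = false ↔ Alt (θ.p.eval ℓ)
      (fun u => θ.M.out A (pairBits (pairBits x h) u) = some [true]) κ true [])}

open Classical in
theorem Ew_fair (N : ℕ) (Φ : (Fin N → Bool) → ℝ) :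
    Ew (bt (fun _ => ⟨1 / 2, by norm_num, by norm_num⟩) N) Φ = Ex unif Φ := by
  unfold Ew Ex
  refine Finset.sum_congr rfl fun a _ => ?_
  congr 1
  refine Finset.prod_congr rfl fun i _ => ?_
  unfold bt unif
  split_ifs <;> norm_num

theorem evz_of_bad {θ : Th} {qb : Polynomial ℕ}
    (hqb : ∀ (A : Oracle) (x : List Bool), ∃ Q : Finset (List Bool),
      Q.card ≤ θ.M.p.eval x.length ∧ (∀ q ∈ Q, q.length ≤ qb.eval x.length) ∧
      ∀ A' : Oracle, (∀ q ∈ Q, A' q = A q) → θ.M.out A' x = θ.M.out A x)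
    {A : Oracle} {ℓ κ N K : ℕ} (hA : A ∈ Bad θ ℓ κ)
    (xs : Fin K → List Bool) (hxl : ∀ j, (xs j).length = ℓ)
    (hpos : ∀ g : Idx (Fin K) (8 * ℓ :: pw (Sz ℓ κ)),
      idx (addr xs (Sz ℓ κ) g.1 ++ List.replicate g.2.val true) < N)
    {T : ℕ} (hT : 2 * ℓ + 1 + θ.p'.eval ℓ + κ * (2 * θ.p.eval ℓ + 1) ≤ T)
    (hN : 2 ^ (qb.eval (2 * T + 1 + κ * θ.p.eval ℓ) + 1) ≤ N) :
    EvZ θ.M xs (Sz ℓ κ) ℓ N κ (θ.p.eval ℓ) (θ.p'.eval ℓ) hpos (pre N A) := by
  obtain ⟨h, hh, hx⟩ := hA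
  have hV : ∀ y : List Bool, y.length ≤ 2 * T + 1 + κ * θ.p.eval ℓ →
      (θ.M.out A y = some [true] ↔ leaf θ.M N y (pre N A) = true) := by
    intro y hy
    obtain ⟨Q, _, hQl, hQA⟩ := hqb A y
    have h1 : θ.M.out (orc N (pre N A)) y = θ.M.out A y := by
      apply hQA
      intro q hq
      apply orc_pre
      have h2 := idx_lt q
      have h3 : q.length ≤ qb.eval (2 * T + 1 + κ * θ.p.eval ℓ) :=
        (hQl q hq).trans (eval_mono _ hy)
      have h4 : 2 ^ (q.length + 1) ≤ 2 ^ (qb.eval (2 * T + 1 + κ * θ.p.eval ℓ) + 1) :=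
        Nat.pow_le_pow_right (by norm_num) (by omega)
      omega
    unfold leaf
    rw [h1, decide_eq_true_eq]
  refine ⟨h.length, hh, h, rfl, fun j => ?_⟩
  have h1 := hx (xs j) (hxl j)
  have h2 : HV κ A (xs j) =
      Tr (8 * ℓ :: pw (Sz ℓ κ)) (fun g => pre N A (posz xs (Sz ℓ κ) ℓ N hpos g)) j := by
    unfold HV
    rw [hxl j, ← tr_leaves A (Sz ℓ κ) (8 * ℓ) xs j]
    have e : leaves xs (Sz ℓ κ) (8 * ℓ) A =
        fun g => pre N A (posz xs (Sz ℓ κ) ℓ N hpos g) := by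
      funext g
      show A (addr xs (Sz ℓ κ) g.1 ++ List.replicate g.2.val true) =
        A (str (idx (addr xs (Sz ℓ κ) g.1 ++ List.replicate g.2.val true)))
      rw [str_idx]
    rw [e]
  have h3 := qf_alt (θ.p.eval ℓ) κ (leaf θ.M N) (pre N A)
    (pairBits (xs j) h) κ 0 true (pairBits (xs j) h) [] (by omega) rfl
  have h4 : Alt (θ.p.eval ℓ) (fun v => θ.M.out A
      (pairBits (pairBits (xs j) h) v) = some [true]) κ true [] ↔
      Alt (θ.p.eval ℓ) (fun v => leaf θ.M N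
        (pairBits (pairBits (xs j) h) v) (pre N A) = true) κ true [] := by
    apply Alt_congr
    intro v hv
    apply hV
    rw [length_pairBits, length_pairBits, hxl, hv, List.length_nil, zero_add]
    omega
  have h5 : QF (θ.p.eval ℓ) (GG (θ.p.eval ℓ) κ (leaf θ.M N)) κ true
      (pairBits (xs j) h) (pre N A) = true ↔
      Tr (8 * ℓ :: pw (Sz ℓ κ)) (fun g => pre N A (posz xs (Sz ℓ κ) ℓ N hpos g)) j =
        false := by
    rw [h3, ← h4, ← h1, h2]
  intro heq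
  rw [heq] at h5
  cases hb : Tr (8 * ℓ :: pw (Sz ℓ κ)) (fun g => pre N A (posz xs (Sz ℓ κ) ℓ N hpos g)) j with
  | true => rw [hb] at h5; exact absurd (h5.1 rfl) (by simp)
  | false => rw [hb] at h5; exact absurd (h5.2 rfl) (by simp)

theorem law_bad (θ : Th) {ℓ κ u T : ℕ} (hn : 13 ≤ ℓ) (hu : 8 * u ≤ ℓ)
    (hT : 2 * ℓ + 1 + θ.p'.eval ℓ + κ * (2 * θ.p.eval ℓ + 1) ≤ T)
    (hP : θ.M.p.eval (2 * T + 1 + κ * θ.p.eval ℓ) ≤ 2 ^ (2 * u)) :
    fair (Bad θ ℓ κ) ≤ ENNReal.ofReal (2 ^ (2 * θ.p'.eval ℓ) *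
      (κ * (2 ^ (T + 2) * (1 / 2) ^ (2 ^ (2 * u) + 1)) + 3 * (1 / 2) ^ (2 ^ u))) := by
  classical
  have hn5 : 5 ≤ ℓ := by omega
  have hlaw := Sz_spec hn5 κ (Fin (2 ^ (u + 11))) (2 ^ (3 * u + 11)) (2 ^ (u + 9)) (by
      calc 16 * 2 ^ (3 * u + 11) = 2 ^ (3 * u + 15) := by
            rw [show 3 * u + 15 = 3 * u + 11 + 4 from rfl, pow_add _ (3 * u + 11) 4]; ring
        _ ≤ 2 ^ (4 * ℓ) := Nat.pow_le_pow_right (by norm_num) (by omega)) (by
      rw [Fintype.card_fin]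
      have : 2 ^ (u + 11) = 4 * 2 ^ (u + 9) := by
        rw [show u + 11 = u + 9 + 2 from rfl, pow_add _ (u + 9) 2]; ring
      omega)
  rw [Fintype.card_fin] at hlaw
  set xs : Fin (2 ^ (u + 11)) → List Bool := fun j => bitsOf ℓ j.val with hxs
  have hxl : ∀ j, (xs j).length = ℓ := fun j => length_bitsOf ℓ j.val
  have hK : 2 ^ (u + 11) ≤ 2 ^ ℓ := Nat.pow_le_pow_right (by norm_num) (by omega)
  have hxi : Function.Injective xs := by
    intro j j' h
    exact Fin.ext (bitsOf_inj (lt_of_lt_of_le j.2 hK) (lt_of_lt_of_le j'.2 hK) h)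
  obtain ⟨qb, hqb⟩ := Alg.out_local θ.M
  set N : ℕ := 2 ^ (ℓ + (Sz ℓ κ).sum + 8 * ℓ + qb.eval (2 * T + 1 + κ * θ.p.eval ℓ) + 1) with hN
  have hpos : ∀ g : Idx (Fin (2 ^ (u + 11))) (8 * ℓ :: pw (Sz ℓ κ)),
      idx (addr xs (Sz ℓ κ) g.1 ++ List.replicate g.2.val true) < N := by
    intro g
    have h1 := leaf_len xs ℓ hxl (Sz ℓ κ) (8 * ℓ) g
    have h2 := idx_lt (addr xs (Sz ℓ κ) g.1 ++ List.replicate g.2.val true)
    have h3 : 2 ^ ((addr xs (Sz ℓ κ) g.1 ++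
        List.replicate g.2.val true).length + 1) ≤ N :=
      Nat.pow_le_pow_right (by norm_num) (by omega)
    omega
  have hN2 : 2 ^ (qb.eval (2 * T + 1 + κ * θ.p.eval ℓ) + 1) ≤ N :=
    Nat.pow_le_pow_right (by norm_num) (by omega)
  have h1 : Bad θ ℓ κ ⊆
      {A | EvZ θ.M xs (Sz ℓ κ) ℓ N κ (θ.p.eval ℓ) (θ.p'.eval ℓ) hpos (pre N A)} :=
    fun A hA => evz_of_bad hqb hA xs hxl hpos hT hN2
  refine (measure_mono h1).trans ?_
  unfold fair
  rw [law_local, Ew_fair]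
  apply ENNReal.ofReal_le_ofReal
  exact evz_bound θ.M hn5 hu rfl xs hxi hxl (Sz_length ℓ κ) hlaw hpos hT hP

end Pool.Agent.W911.AL
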