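import Pool.Agent.W911.AL.Easy

/-!
# Almost every oracle: the lower bound for all numbers of alternations at once
-/

set_option autoImplicit false

namespace Pool.Agent.W911.AL

open Finset MeasureTheory Filter Topology Pool.Agent.NPC H568R2 Pool.Agent.H676
open Pool.Agent.H620R2.Gauge Pool.Agent.H591R3.PHG Pool.Agent.H622R2

/-- the bound for the length of the strings -/
noncomputable def TT (θ : Th) (q : Polynomial ℕ) : Polynomial ℕ :=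
  2 * Polynomial.X + 1 + θ.p' + q * (2 * θ.p + 1)

theorem eval_TT (θ : Th) (q : Polynomial ℕ) (ℓ : ℕ) :
    (TT θ q).eval ℓ = 2 * ℓ + 1 + θ.p'.eval ℓ + q.eval ℓ * (2 * θ.p.eval ℓ + 1) := by
  simp [TT]

/-- the polynomial for the final bound -/
noncomputable def PQ (θ : Th) (q : Polynomial ℕ) : Polynomial ℕ :=
  2 * θ.p' + TT θ q + θ.M.p.comp (2 * TT θ q + 1 + q * θ.p) + q + 3 * Polynomial.X + 2

theorem eval_PQ (θ : Th) (q : Polynomial ℕ) (ℓ : ℕ) :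
    (PQ θ q).eval ℓ = 2 * θ.p'.eval ℓ + (TT θ q).eval ℓ +
    θ.M.p.eval (2 * (TT θ q).eval ℓ + 1 + q.eval ℓ * θ.p.eval ℓ) + q.eval ℓ + 3 * ℓ + 2 := by
  simp [PQ, Polynomial.eval_comp]

theorem law_bad_adm (θ : Th) (q : Polynomial ℕ) {ℓ κ u : ℕ} (hκ : κ ≤ q.eval ℓ) (hℓ : 13 ≤ ℓ)
    (hu : 8 * u ≤ ℓ) (hP : 3 * (PQ θ q).eval ℓ ≤ 2 ^ u) :
    fair (Bad θ ℓ κ) ≤ ENNReal.ofReal ((1 / 2) ^ (q.eval ℓ + ℓ)) := by
  have hPQ := eval_PQ θ q ℓ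
  have hTT := eval_TT θ q ℓ
  set P : ℕ := (PQ θ q).eval ℓ with hPdef
  set T : ℕ := (TT θ q).eval ℓ with hTdef
  have hu2 : 2 ^ u ≤ 2 ^ (2 * u) := Nat.pow_le_pow_right (by norm_num) (by omega)
  have hT : 2 * ℓ + 1 + θ.p'.eval ℓ + κ * (2 * θ.p.eval ℓ + 1) ≤ T := by
    rw [hTT]
    have : κ * (2 * θ.p.eval ℓ + 1) ≤ q.eval ℓ * (2 * θ.p.eval ℓ + 1) :=
      Nat.mul_le_mul_right _ hκ
    omega
  have hM : θ.M.p.eval (2 * T + 1 + κ * θ.p.eval ℓ) ≤ 2 ^ (2 * u) := by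
    have h1 : κ * θ.p.eval ℓ ≤ q.eval ℓ * θ.p.eval ℓ := Nat.mul_le_mul_right _ hκ
    have h2 : θ.M.p.eval (2 * T + 1 + κ * θ.p.eval ℓ) ≤
        θ.M.p.eval (2 * T + 1 + q.eval ℓ * θ.p.eval ℓ) := eval_mono _ (by omega)
    omega
  refine (law_bad θ hℓ hu hT hM).trans (ENNReal.ofReal_le_ofReal ?_)
  have hκ2 : (κ : ℝ) ≤ 2 ^ q.eval ℓ := by
    have : κ ≤ 2 ^ q.eval ℓ := hκ.trans Nat.lt_two_pow_self.le
    exact_mod_cast this
  have hhalf : ∀ a b : ℕ, a ≤ b → ((1 : ℝ) / 2) ^ b ≤ (1 / 2) ^ a := fun a b hab =>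
    pow_le_pow_of_le_one (by norm_num) (by norm_num) hab
  have hcancel : ∀ a b : ℕ, (2 : ℝ) ^ a * (1 / 2) ^ (a + b) = (1 / 2) ^ b := by
    intro a b
    rw [pow_add, ← mul_assoc, ← mul_pow]
    norm_num
  have h1 : (2 : ℝ) ^ (2 * θ.p'.eval ℓ) * (κ * (2 ^ (T + 2) * (1 / 2) ^ (2 ^ (2 * u) + 1))) ≤
      (1 / 2) ^ (2 * P) := by
    calc (2 : ℝ) ^ (2 * θ.p'.eval ℓ) * (κ * (2 ^ (T + 2) * (1 / 2) ^ (2 ^ (2 * u) + 1)))
        ≤ 2 ^ (2 * θ.p'.eval ℓ) * (2 ^ q.eval ℓ * (2 ^ (T + 2) * (1 / 2) ^ (P + 2 * P))) := by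
          apply mul_le_mul_of_nonneg_left _ (by positivity)
          apply mul_le_mul hκ2 _ (by positivity) (by positivity)
          apply mul_le_mul_of_nonneg_left _ (by positivity)
          exact hhalf _ _ (by omega)
      _ = 2 ^ (2 * θ.p'.eval ℓ + q.eval ℓ + (T + 2)) * (1 / 2) ^ (P + 2 * P) := by
          rw [pow_add, pow_add]; ring
      _ ≤ 2 ^ P * (1 / 2) ^ (P + 2 * P) := by
          apply mul_le_mul_of_nonneg_right _ (by positivity)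
          exact pow_le_pow_right₀ (by norm_num) (by omega)
      _ = (1 / 2) ^ (2 * P) := hcancel _ _
  have h2 : (2 : ℝ) ^ (2 * θ.p'.eval ℓ) * (3 * (1 / 2) ^ (2 ^ u)) ≤ (1 / 2) ^ (2 * P) := by
    calc (2 : ℝ) ^ (2 * θ.p'.eval ℓ) * (3 * (1 / 2) ^ (2 ^ u))
        ≤ 2 ^ (2 * θ.p'.eval ℓ) * (2 ^ 2 * (1 / 2) ^ (P + 2 * P)) := by
          apply mul_le_mul_of_nonneg_left _ (by positivity)
          apply mul_le_mul (by norm_num) (hhalf _ _ (by omega)) (by positivity) (by positivity)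
      _ = 2 ^ (2 * θ.p'.eval ℓ + 2) * (1 / 2) ^ (P + 2 * P) := by
          rw [pow_add]; ring
      _ ≤ 2 ^ P * (1 / 2) ^ (P + 2 * P) := by
          apply mul_le_mul_of_nonneg_right _ (by positivity)
          exact pow_le_pow_right₀ (by norm_num) (by omega)
      _ = (1 / 2) ^ (2 * P) := hcancel _ _
  have h3 : ((1 : ℝ) / 2) ^ (2 * P) ≤ (1 / 2) ^ (q.eval ℓ + ℓ + 1) := hhalf _ _ (by omega)
  have h4 : ((1 : ℝ) / 2) ^ (q.eval ℓ + ℓ + 1) = (1 / 2) ^ (q.eval ℓ + ℓ) / 2 := by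
    rw [pow_succ]; ring
  rw [mul_add]
  linarith

theorem poly_le_pow (P : Polynomial ℕ) : ∃ d : ℕ, ∀ᶠ ℓ : ℕ in atTop, P.eval ℓ ≤ ℓ ^ d := by
  refine ⟨P.natDegree + 1, ?_⟩
  filter_upwards [eventually_ge_atTop (P.eval 1 + 1)] with ℓ hℓ
  have h1 : P.eval ℓ ≤ P.eval 1 * ℓ ^ P.natDegree := by
    rw [Polynomial.eval_eq_sum_range, Polynomial.eval_eq_sum_range, Finset.sum_mul]
    refine Finset.sum_le_sum fun i hi => ?_
    rw [one_pow, mul_one]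
    apply Nat.mul_le_mul_left
    exact Nat.pow_le_pow_right (by omega) (Nat.lt_succ_iff.1 (Finset.mem_range.1 hi))
  refine h1.trans ?_
  rw [pow_succ, mul_comm]
  exact Nat.mul_le_mul_left _ (by omega)

theorem poly_le_exp (P : Polynomial ℕ) : ∀ᶠ ℓ : ℕ in atTop, P.eval ℓ ≤ 2 ^ (ℓ / 8) := by
  obtain ⟨d, hd⟩ := poly_le_pow P
  have h1 := tendsto_pow_const_div_const_pow_of_one_lt d (show (1 : ℝ) < 109 / 100 by norm_num)
  have h2 := h1.eventually (Iio_mem_nhds (show (0 : ℝ) < 1 / 2 by norm_num))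
  filter_upwards [hd, h2] with ℓ h3 h4
  refine h3.trans ?_
  have h5 : (ℓ : ℝ) ^ d / (109 / 100) ^ ℓ < 1 / 2 := h4
  rw [div_lt_iff₀ (by positivity)] at h5
  have h6 : (109 / 100 : ℝ) ^ ℓ ≤ (109 / 100) ^ (8 * (ℓ / 8) + 7) :=
    pow_le_pow_right₀ (by norm_num) (by omega)
  have h7 : (109 / 100 : ℝ) ^ (8 * (ℓ / 8) + 7) ≤ 2 ^ (ℓ / 8) * 2 := by
    rw [pow_add, pow_mul]
    apply mul_le_mul (pow_le_pow_left₀ (by norm_num) (by norm_num) _) (by norm_num)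
      (by norm_num) (by positivity)
  have h8 : ((ℓ ^ d : ℕ) : ℝ) ≤ ((2 ^ (ℓ / 8) : ℕ) : ℝ) := by
    push_cast
    linarith
  exact_mod_cast h8

theorem ae_good : ∀ᵐ A ∂fair, ∀ (θ : Th) (q : Polynomial ℕ), ∀ᶠ ℓ : ℕ in atTop,
    ∀ κ ≤ q.eval ℓ, A ∉ Bad θ ℓ κ := by
  haveI := countable_polynomial
  rw [ae_all_iff]
  intro θ
  rw [ae_all_iff]
  intro q
  classical
  set s : ℕ → Set Oracle := fun ℓ => if 13 ≤ ℓ ∧ 3 * (PQ θ q).eval ℓ ≤ 2 ^ (ℓ / 8) then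
    ⋃ κ ∈ range (q.eval ℓ + 1), Bad θ ℓ κ else ∅ with hs
  have hμ : ∀ ℓ, fair (s ℓ) ≤ ENNReal.ofReal ((1 / 2) ^ ℓ) := by
    intro ℓ
    by_cases hc : 13 ≤ ℓ ∧ 3 * (PQ θ q).eval ℓ ≤ 2 ^ (ℓ / 8)
    · have e : s ℓ = ⋃ κ ∈ range (q.eval ℓ + 1), Bad θ ℓ κ := if_pos hc
      rw [e]
      refine (measure_biUnion_finset_le _ _).trans ?_
      refine (Finset.sum_le_sum (g := fun _ => ENNReal.ofReal ((1 / 2) ^ (q.eval ℓ + ℓ)))
        fun κ hκ => law_bad_adm θ q (Nat.lt_succ_iff.1 (Finset.mem_range.1 hκ)) hc.1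
          (Nat.mul_div_le ℓ 8) hc.2).trans ?_
      rw [Finset.sum_const, nsmul_eq_mul, ← ENNReal.ofReal_natCast,
        ← ENNReal.ofReal_mul (by positivity), Finset.card_range]
      apply ENNReal.ofReal_le_ofReal
      have h1 : (((q.eval ℓ + 1 : ℕ)) : ℝ) ≤ 2 ^ q.eval ℓ := by
        have : q.eval ℓ + 1 ≤ 2 ^ q.eval ℓ := Nat.lt_two_pow_self
        exact_mod_cast this
      calc (((q.eval ℓ + 1 : ℕ)) : ℝ) * (1 / 2) ^ (q.eval ℓ + ℓ)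
          ≤ 2 ^ q.eval ℓ * (1 / 2) ^ (q.eval ℓ + ℓ) :=
            mul_le_mul_of_nonneg_right h1 (by positivity)
        _ = (1 / 2) ^ ℓ := by
            rw [pow_add, ← mul_assoc, ← mul_pow]
            norm_num
    · have e : s ℓ = ∅ := if_neg hc
      rw [e, measure_empty]
      exact zero_le
  have hsum : ∑' ℓ, fair (s ℓ) ≠ ⊤ := by
    refine ne_top_of_le_ne_top ?_ (ENNReal.tsum_le_tsum hμ)
    rw [← ENNReal.ofReal_tsum_of_nonneg (fun n => by positivity) summable_geometric_two]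
    exact ENNReal.ofReal_ne_top
  have hev : ∀ᶠ ℓ : ℕ in atTop, 13 ≤ ℓ ∧ 3 * (PQ θ q).eval ℓ ≤ 2 ^ (ℓ / 8) := by
    filter_upwards [eventually_ge_atTop 13, poly_le_exp (3 * PQ θ q)] with ℓ h1 h2
    refine ⟨h1, ?_⟩
    have : (3 * PQ θ q).eval ℓ = 3 * (PQ θ q).eval ℓ := by simp
    omega
  filter_upwards [ae_eventually_notMem hsum] with A hA
  filter_upwards [hA, hev] with ℓ hℓ hc κ hκ hbad
  apply hℓ
  have e : s ℓ = ⋃ κ ∈ range (q.eval ℓ + 1), Bad θ ℓ κ := if_pos hc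
  rw [e]
  exact Set.mem_biUnion (Finset.mem_coe.2 (Finset.mem_range.2 (Nat.lt_succ_of_le hκ))) hbad

/-- almost every oracle: the lower bound for all polynomially bounded numbers of alternations at
once -/
theorem lower_ae : ∀ᵐ A ∂fair, ∀ k : ℕ → ℕ, (∃ q : Polynomial ℕ, ∀ n, k n ≤ q.eval n) →
    ∀ L', IsSigmaPoly A k L' →
      ∀ᶠ n : ℕ in atTop, ∃ x : List Bool, x.length = n ∧ ¬ (x ∈ HL k A ↔ x ∈ L') := by
  filter_upwards [ae_good] with A hA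
  intro k hk L' hL'
  obtain ⟨q, hq⟩ := hk
  obtain ⟨V, p, p', h, ⟨M, hM⟩, hh, hx⟩ := hL'
  filter_upwards [hA ⟨M, p, p'⟩ q] with ℓ h1
  by_contra hcon
  push Not at hcon
  refine h1 (k ℓ) (hq ℓ) ⟨h ℓ, hh ℓ, fun x hxl => ?_⟩
  have h3 := hcon x hxl
  have h4 := hx x
  rw [hxl] at h4
  have h5 : x ∈ HL k A ↔ HV (k ℓ) A x = false := by
    unfold HL
    rw [Set.mem_ofPred_eq, hxl]
  rw [← h5, h3, h4]
  apply Alt_congr
  intro v _
  show V _ = [true] ↔ M.out A _ = some [true]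
  rw [hM, Option.some.injEq]

end Pool.Agent.W911.AL
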