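import Pool.Agent.W911.AL.CKS
import Pool.Agent.W911.AL.Low

/-!
# Growing numbers of alternations relative to a random oracle
-/

set_option autoImplicit false

namespace Pool.Agent.W911.AL

open Filter MeasureTheory Pool.Agent.NPC Pool.Agent.H622R2
open Pool.Agent.H620R2.Gauge (Oracle IsFP IsPH IsPSPACE IsFP.precomp IsFP.seq IsFP.of_poly
  length_pairBits)
open Pool.Agent.H591R3.PHG (LangSig.length_unpair)

theorem nice_pred {k : ℕ → ℕ} (hk : Nice k) : Nice (fun n => k n - 1) := by
  apply polyTime_of_poly_list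
  have h1 : Poly (fun x : List Bool => List.replicate (k x.length) true) := poly_of_polyTime hk
  exact (Poly.tail h1).congr fun x => by rw [List.tail_replicate]

/-- The hard language, where it can be decided with `k n` alternations. -/
def HK (k : ℕ → ℕ) (A : Oracle) : Set (List Bool) :=
  {x | 0 < k x.length ∧ x ∈ HL (fun n => k n - 1) A}

theorem HK_sigma {k : ℕ → ℕ} (hk : Nice k) (A : Oracle) : IsSigma A k (HK k A) := by
  obtain ⟨V, p, hV, hx⟩ := HL_sigma (nice_pred hk) A
  have h1 : Poly (fun y : List Bool => (unpair y).1) := Poly.fst poly_unpair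
  have hkx : Poly (fun z : List Bool × List Bool × List Bool => k (unpair z.1).1.length) :=
    ((Up.nice_upoly hk).comp (h1.comp (Poly.fst Poly.id))).toPoly
  have hψ : Poly (fun z : List Bool × List Bool × List Bool =>
      if k (unpair z.1).1.length = 0 then [] else z.2.1) :=
    Poly.ite (Poly.decide_eq hkx (NPC.Poly.const 0)) (NPC.Poly.const [])
      (Poly.fst (Poly.snd Poly.id))
  refine ⟨_, p, IsFP.seq (G := fun _ => []) (φ := fun _ => []) hV
    (IsFP.of_poly (NPC.Poly.const [])) (NPC.Poly.const []) hψ, fun x => ?_⟩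
  simp only [unpair_pairBits]
  by_cases h0 : k x.length = 0
  · simp only [h0, if_true]
    constructor
    · rintro ⟨h2, _⟩
      omega
    · intro h2
      have h3 : ([] : List Bool) = [true] := h2
      simp at h3
  · simp only [h0, if_false]
    have h2 : k x.length - 1 + 1 = k x.length := by omega
    have h3 := hx x
    simp only [h2] at h3
    rw [← h3]
    constructor
    · rintro ⟨_, h4⟩
      exact h4
    · intro h4
      exact ⟨by omega, h4⟩

theorem IsSigma.toPoly {A : Oracle} {k : ℕ → ℕ} {L : Set (List Bool)} (h : IsSigma A k L) :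
    IsSigmaPoly A k L := by
  obtain ⟨V, p, hV, hx⟩ := h
  have h1 : Poly (fun y : List Bool => (unpair y).1) := Poly.fst poly_unpair
  have h2 : Poly (fun y : List Bool => (unpair y).2) := Poly.snd poly_unpair
  refine ⟨fun y => V (pairBits (unpair (unpair y).1).1 (unpair y).2), p, 0, fun _ => [],
    IsFP.precomp hV (poly_pairBits (h1.comp h1) h2), fun n => by simp, fun x => ?_⟩
  simp only [unpair_pairBits]
  exact hx x

/-- With advice, the number of quantifiers need not be computable. -/
theorem pad_poly {A : Oracle} {k' k₁ : ℕ → ℕ} (hk₁ : Nice k₁) {L' : Set (List Bool)}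
    (h : IsSigmaPoly A k' L') : ∃ L'', IsSigmaPoly A k₁ L'' ∧
      ∀ x : List Bool, k' x.length ≤ k₁ x.length → (x ∈ L'' ↔ x ∈ L') := by
  obtain ⟨V, p, p', h, hV, hh, hx⟩ := h
  obtain ⟨q, hq⟩ := Up.nice_bound' hk₁
  set c : ℕ → ℕ := fun n => if k' n ≤ k₁ n then k' n * p.eval n else 0 with hc
  set h' : ℕ → List Bool := fun n => pairBits (h n) (List.replicate (c n) true) with hh'
  have i1 : Poly (fun y : List Bool => (unpair y).1) := Poly.fst poly_unpair
  have i2 : Poly (fun y : List Bool => (unpair y).2) := Poly.snd poly_unpair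
  set V' : List Bool → List Bool := fun y => V (pairBits (pairBits (unpair (unpair y).1).1
    (unpair (unpair (unpair y).1).2).1) ((unpair y).2.take
      (unpair (unpair (unpair y).1).2).2.length)) with hV'
  have hV'fp : IsFP A V' := by
    refine IsFP.precomp hV (poly_pairBits (poly_pairBits (i1.comp i1)
      (i1.comp (i2.comp i1))) ?_)
    exact Pool.Agent.H620R2.Gauge.R1.poly_take i2 (UPoly.length (i2.comp (i2.comp i1)))
  refine ⟨{x | Alt (p.eval x.length) (fun u => V' (pairBits (pairBits x (h' x.length)) u) = [true])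
    (k₁ x.length) true []}, ⟨V', p, 2 * p' + 1 + q * p, h', hV'fp, fun n => ?_,
      fun x => Iff.rfl⟩, fun x hkx => ?_⟩
  · rw [hh']
    simp only
    rw [length_pairBits, List.length_replicate]
    have h1 := hh n
    have h2 : c n ≤ q.eval n * p.eval n := by
      rw [hc]
      simp only
      split_ifs with h3
      · exact Nat.mul_le_mul_right _ (h3.trans (hq n))
      · exact Nat.zero_le _
    have h3 : (2 * p' + 1 + q * p : Polynomial ℕ).eval n =
        2 * p'.eval n + 1 + q.eval n * p.eval n := by simp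
    rw [h3]
    omega
  · have hcx : c x.length = k' x.length * p.eval x.length := by
      rw [hc]
      simp only
      rw [if_pos hkx]
    have h1 : ∀ u : List Bool, (V' (pairBits (pairBits x (h' x.length)) u) = [true] ↔
        V (pairBits (pairBits x (h x.length)) (u.take (k' x.length * p.eval x.length))) =
          [true]) := by
      intro u
      rw [hV', hh']
      simp only [unpair_pairBits]
      rw [List.length_replicate, hcx]
    show Alt (p.eval x.length) (fun u => V' (pairBits (pairBits x (h' x.length)) u) = [true])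
      (k₁ x.length) true [] ↔ _
    simp only [h1]
    rw [hx x]
    exact alt_more (κ := k' x.length) (fun v => V (pairBits (pairBits x (h x.length)) v) = [true])
      (k' x.length) 0 (k₁ x.length) true [] (by omega) hkx (by simp)

/-- almost every oracle: the hard languages -/
theorem hard_ae : ∀ᵐ A ∂fair, ∀ k : ℕ → ℕ, Nice k → ∀ (k' : ℕ → ℕ) (L' : Set (List Bool)),
    IsSigmaPoly A k' L' → ∀ᶠ n : ℕ in atTop, k' n < k n →
      ∃ x : List Bool, x.length = n ∧ ¬ (x ∈ HK k A ↔ x ∈ L') := by
  filter_upwards [lower_ae] with A hA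
  intro k hk k' L' hL'
  obtain ⟨L'', h1, h2⟩ := pad_poly (nice_pred hk) hL'
  filter_upwards [hA (fun n => k n - 1) (Up.nice_bound' (nice_pred hk)) L'' h1] with n hn hkn
  obtain ⟨x, hx, h3⟩ := hn
  refine ⟨x, hx, ?_⟩
  have h4 : x ∈ L'' ↔ x ∈ L' := h2 x (by
    show k' x.length ≤ k x.length - 1
    rw [hx]
    omega)
  have h5 : x ∈ HK k A ↔ x ∈ HL (fun n => k n - 1) A := by
    constructor
    · exact fun h => h.2
    · intro h
      refine ⟨?_, h⟩
      rw [hx]
      omega
  rw [h5, ← h4]
  exact h3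

/-- the classification -/
theorem classify_ae : ∀ᵐ A ∂fair, ∀ k : ℕ → ℕ, Nice k →
    (∃ L, IsSigma A k L ∧ ∀ (k' : ℕ → ℕ) (L' : Set (List Bool)), IsSigmaPoly A k' L' →
      ∀ᶠ n : ℕ in atTop, k' n < k n → ∃ x : List Bool, x.length = n ∧ ¬ (x ∈ L ↔ x ∈ L')) ∧
    ∀ k' : ℕ → ℕ, ((∀ L, IsSigma A k L → IsSigma A k' L) ↔ ∀ᶠ n in atTop, k n ≤ k' n) ∧
      ((∀ L, IsSigma A k L → IsSigmaPoly A k' L) ↔ ∀ᶠ n in atTop, k n ≤ k' n) := by
  filter_upwards [hard_ae] with A hA
  intro k hk
  have h1 : ∀ k' : ℕ → ℕ, (∀ L, IsSigma A k L → IsSigmaPoly A k' L) →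
      ∀ᶠ n in atTop, k n ≤ k' n := by
    intro k' h
    filter_upwards [hA k hk k' (HK k A) (h _ (HK_sigma hk A))] with n hn
    by_contra hcon
    push Not at hcon
    obtain ⟨x, _, h2⟩ := hn hcon
    exact h2 Iff.rfl
  refine ⟨⟨HK k A, HK_sigma hk A, fun k' L' hL' => hA k hk k' L' hL'⟩, fun k' => ⟨⟨fun h =>
    h1 k' fun L hL => (h L hL).toPoly, fun h L hL => hL.mono hk h⟩, ⟨h1 k', fun h L hL =>
      (hL.mono hk h).toPoly⟩⟩⟩

end Pool.Agent.W911.AL
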