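import Pool.Agent.W911.AL.Up

/-!
# More alternations
-/

set_option autoImplicit false

namespace Pool.Agent.W911.AL

open Filter Pool.Agent.NPC H568R2 Pool.Agent.H676 Pool.Agent.H622R2
open Pool.Agent.H620R2.Gauge Pool.Agent.H591R3.PHG

/-- superfluous quantifiers -/
theorem alt_dummy {m c : ℕ} (R : List Bool → Prop) : ∀ (j : ℕ) (b : Bool) (u : List Bool),
    c ≤ u.length → (Alt m (fun v => R (v.take c)) j b u ↔ R (u.take c)) := by
  intro j
  induction j with
  | zero => intro b u _; cases b <;> exact Iff.rfl
  | succ j ih =>
    intro b u hu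
    have h1 : ∀ (b : Bool) (w : List Bool), (Alt m (fun v => R (v.take c)) j b (u ++ w) ↔
        R (u.take c)) := by
      intro b w
      rw [ih b (u ++ w) (by rw [List.length_append]; omega),
        List.take_append_of_le_length hu]
    cases b with
    | true =>
      simp only [Alt, h1]
      exact ⟨fun ⟨_, _, h⟩ => h, fun h => ⟨List.replicate m false, by simp, h⟩⟩
    | false =>
      simp only [Alt, h1]
      exact ⟨fun h => h (List.replicate m false) (by simp), fun h _ _ => h⟩

theorem alt_more {m κ : ℕ} (R : List Bool → Prop) : ∀ (j i j' : ℕ) (b : Bool) (u : List Bool),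
    i + j = κ → j ≤ j' → u.length = i * m →
      (Alt m (fun v => R (v.take (κ * m))) j' b u ↔ Alt m R j b u) := by
  intro j
  induction j with
  | zero =>
    intro i j' b u hi _ hu
    have hi : i = κ := by omega
    subst hi
    rw [alt_dummy R j' b u hu.ge, List.take_of_length_le hu.le]
    cases b <;> exact Iff.rfl
  | succ j ih =>
    intro i j' b u hi hj hu
    obtain ⟨j', rfl⟩ : ∃ j'', j' = j'' + 1 := ⟨j' - 1, by omega⟩
    have h1 : ∀ (b : Bool) (w : List Bool), w.length = m →
        (Alt m (fun v => R (v.take (κ * m))) j' b (u ++ w) ↔ Alt m R j b (u ++ w)) := by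
      intro b w hw
      exact ih (i + 1) j' b (u ++ w) (by omega) (by omega) (by
        rw [List.length_append, hu, hw]; ring)
    cases b with
    | true =>
      simp only [Alt]
      exact exists_congr fun w => and_congr_right fun hw => h1 _ w hw
    | false =>
      simp only [Alt]
      exact forall_congr' fun w => forall_congr' fun hw => h1 _ w hw

/-- constant quantified properties -/
theorem alt_const {m : ℕ} (P : Prop) : ∀ (j : ℕ) (b : Bool) (u : List Bool),
    (Alt m (fun _ => P) j b u ↔ P) := by
  intro j b u
  have := alt_dummy (m := m) (c := 0) (fun _ => P) j b u (Nat.zero_le _)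
  exact this

/-- more alternations give a larger class -/
theorem IsSigma.mono {A : Oracle} {k k' : ℕ → ℕ} (hk : Nice k) (h : ∀ᶠ n in atTop, k n ≤ k' n)
    {L : Set (List Bool)} (hL : IsSigma A k L) : IsSigma A k' L := by
  classical
  obtain ⟨V, p, hV, hx⟩ := hL
  obtain ⟨n0, hn0⟩ := eventually_atTop.1 h
  have hfin : {x : List Bool | x.length < n0 ∧ x ∈ L}.Finite :=
    (List.finite_length_lt Bool n0).subset fun x hx => hx.1
  set S : List (List Bool) := hfin.toFinset.toList with hS
  have hmem : ∀ x : List Bool, x.length < n0 → (x ∈ S ↔ x ∈ L) := by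
    intro x hx
    rw [hS, Finset.mem_toList, Set.Finite.mem_toFinset]
    exact ⟨fun h => h.2, fun h => ⟨hx, h⟩⟩
  have h1 : Poly (fun y : List Bool => (unpair y).1) := Poly.fst poly_unpair
  have h2 : Poly (fun y : List Bool => (unpair y).2) := Poly.snd poly_unpair
  have hc : UPoly (fun y : List Bool => k (unpair y).1.length * p.eval (unpair y).1.length) :=
    UPoly.mul ((Up.nice_upoly hk).comp h1) (UPoly.eval (UPoly.length h1) p)
  have hg : Poly (fun y : List Bool => pairBits (unpair y).1
      ((unpair y).2.take (k (unpair y).1.length * p.eval (unpair y).1.length))) :=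
    poly_pairBits h1 (R1.poly_take h2 hc)
  have hF := hV.precomp hg
  have hψ : Poly (fun z : List Bool × List Bool × List Bool =>
      if (unpair z.1).1.length < n0 then [decide ((unpair z.1).1 ∈ S)]
      else z.2.1) := by
    refine Poly.ite (Poly.decide_lt (Poly.length (h1.comp (Poly.fst Poly.id)))
      (NPC.Poly.const n0)) (Poly.cons (Poly.dec_mem (h1.comp (Poly.fst Poly.id))
        (NPC.Poly.const S)) (NPC.Poly.const [])) (Poly.fst (Poly.snd Poly.id))
  refine ⟨_, p, IsFP.seq (G := fun _ => []) (φ := fun _ => []) hF
    (IsFP.of_poly (NPC.Poly.const [])) (NPC.Poly.const []) hψ, fun x => ?_⟩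
  by_cases hxn : x.length < n0
  · have e : ∀ u : List Bool, ((if (unpair (pairBits x u)).1.length < n0 then
        [decide ((unpair (pairBits x u)).1 ∈ S)]
        else V (pairBits (unpair (pairBits x u)).1 ((unpair (pairBits x u)).2.take
          (k (unpair (pairBits x u)).1.length * p.eval (unpair (pairBits x u)).1.length)))) =
        [true] ↔ x ∈ L) := by
      intro u
      rw [unpair_pairBits]
      simp only [hxn, if_true, List.cons.injEq, and_true, decide_eq_true_eq]
      exact hmem x hxn
    simp only [e]
    rw [alt_const]
  · have e : ∀ u : List Bool, ((if (unpair (pairBits x u)).1.length < n0 then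
        [decide ((unpair (pairBits x u)).1 ∈ S)]
        else V (pairBits (unpair (pairBits x u)).1 ((unpair (pairBits x u)).2.take
          (k (unpair (pairBits x u)).1.length * p.eval (unpair (pairBits x u)).1.length)))) =
        [true] ↔ V (pairBits x (u.take (k x.length * p.eval x.length))) = [true]) := by
      intro u
      rw [unpair_pairBits]
      simp only [hxn, if_false]
    simp only [e]
    rw [hx x]
    exact (alt_more (κ := k x.length) (fun v => V (pairBits x v) = [true]) (k x.length) 0
      (k' x.length) true [] (by omega) (hn0 _ (by omega)) (by simp)).symm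

theorem nice_succ {k : ℕ → ℕ} (hk : Nice k) : Nice (fun n => k n + 1) := by
  apply polyTime_of_poly_list
  have h1 : Poly (fun x : List Bool => List.replicate (k x.length) true) := poly_of_polyTime hk
  exact (Poly.cons (NPC.Poly.const true) h1).congr fun x => by rw [List.replicate_succ]

end Pool.Agent.W911.AL
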