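import Pool.Agent.W911.AL.Psp2
import Pool.Agent.H591R3.PHG.Sig

/-!
# Constant numbers of alternations: the polynomial hierarchy
-/

set_option autoImplicit false

namespace Pool.Agent.W911.AL

open Pool.Agent.NPC Pool.Agent.H622R2
open Pool.Agent.H620R2.Gauge
open Pool.Agent.H591R3.PHG (strip poly_strip)

variable {α : Type} [TEnc α]

theorem poly_fm {m : α → ℕ} {w : α → List Bool} (hm : UPoly m) (hw : Poly w) :
    Poly (fun a => fm (m a) (w a)) := by
  have h1 : Poly (fun a => (List.replicate (m a) ()).map (fun _ => false)) :=
    NPC.Poly.map (F := fun _ _ => false) hm (NPC.Poly.const false)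
  refine (R1.poly_take (Poly.append hw h1) hm).congr fun a => ?_
  rw [List.map_replicate]
  rfl

theorem poly_nd {m : α → ℕ} (hm : UPoly m) : ∀ (c : ℕ) {y : α → List Bool} (_ : Poly y),
    Poly (fun a => nd (m a) c (y a)) := by
  intro c
  induction c with
  | zero => intro y hy; exact Poly.pair hy (NPC.Poly.const [])
  | succ c ih =>
    intro y hy
    have h1 : Poly (fun a => unpair (y a)) := poly_unpair.comp hy
    have h2 := ih (Poly.snd h1)
    exact Poly.pair (Poly.fst h2) (Poly.append (Poly.snd h2) (poly_fm hm (Poly.fst h1)))

theorem nd_strip (m : ℕ) : ∀ (c : ℕ) (y : List Bool), (nd m c y).1 = strip c y := by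
  intro c
  induction c with
  | zero => intro y; rfl
  | succ c ih => intro y; simp only [nd, strip, ih]

/-- the argument of the verifier -/
noncomputable def gg (p : Polynomial ℕ) (c : ℕ) (y : List Bool) : List Bool :=
  pairBits (strip c y) (nd (p.eval (strip c y).length) c y).2

theorem poly_gg (p : Polynomial ℕ) (c : ℕ) : Poly (gg p c) :=
  poly_pairBits (poly_strip c) (Poly.snd (poly_nd (UPoly.eval (UPoly.length (poly_strip c)) p) c
    Poly.id))

theorem quant_alt (p : Polynomial ℕ) (c : ℕ) (V : List Bool → List Bool) (x : List Bool) :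
    ∀ (j i : ℕ) (b : Bool) (y u : List Bool), i + j = c →
      nd (p.eval x.length) i y = (x, u) →
      (Quant (p.eval x.length) (fun y => V (gg p c y)) j b y ↔
        Alt (p.eval x.length) (fun v => V (pairBits x v) = [true]) j b u) := by
  intro j
  induction j with
  | zero =>
    intro i b y u hi hy
    have : i = c := by omega
    subst this
    have h2 : strip i y = x := by rw [← nd_strip (p.eval x.length), hy]
    have h1 : gg p i y = pairBits x u := by
      unfold gg
      rw [h2, hy]
    cases b <;> simp only [Quant, Alt, h1]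
  | succ j ih =>
    intro i b y u hi hy
    have h1 : ∀ (b : Bool) (w : List Bool), (Quant (p.eval x.length) (fun y => V (gg p c y)) j b
        (pairBits w y) ↔ Alt (p.eval x.length) (fun v => V (pairBits x v) = [true]) j b
        (u ++ fm (p.eval x.length) w)) := by
      intro b w
      refine ih (i + 1) b (pairBits w y) (u ++ fm (p.eval x.length) w) (by omega) ?_
      rw [nd_pair, hy]
    cases b with
    | true =>
      simp only [Quant, Alt, h1]
      constructor
      · rintro ⟨w, _, h⟩
        exact ⟨_, length_fm _ w, h⟩
      · rintro ⟨w, hw, h⟩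
        exact ⟨w, hw.le, by rw [fm_eq hw]; exact h⟩
    | false =>
      simp only [Quant, Alt, h1]
      constructor
      · intro h w hw
        have := h w hw.le
        rwa [fm_eq hw] at this
      · intro h w _
        exact h _ (length_fm _ w)

theorem IsSigma.isPH {A : Oracle} {c : ℕ} {L : Set (List Bool)} (h : IsSigma A (fun _ => c) L) :
    IsPH A L := by
  obtain ⟨V, p, hV, hx⟩ := h
  refine ⟨fun y => V (gg p c y), p, c, hV.precomp (poly_gg p c), fun x => ?_⟩
  rw [hx x]
  exact (quant_alt p c V x c 0 true x [] (by omega) rfl).symm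

/-- the string of length at most `m` coded by a string of length `2 * m + 1` -/
def dc (m : ℕ) (w : List Bool) : List Bool := (unpair w).1.take m

theorem dc_length (m : ℕ) (w : List Bool) : (dc m w).length ≤ m := by
  unfold dc
  rw [List.length_take]
  exact min_le_left _ _

theorem dc_surj {m : ℕ} {w : List Bool} (h : w.length ≤ m) :
    ∃ z : List Bool, z.length = 2 * m + 1 ∧ dc m z = w := by
  refine ⟨pairBits w (List.replicate (2 * m - 2 * w.length) false), ?_, ?_⟩
  · rw [length_pairBits, List.length_replicate]
    omega
  · unfold dc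
    rw [unpair_pairBits]
    exact List.take_of_length_le h

/-- the nested string -/
def nest (m : ℕ) : ℕ → List Bool → List Bool → List Bool
  | 0, x, _ => x
  | j + 1, x, u => nest m j (pairBits (dc m (u.take (2 * m + 1))) x) (u.drop (2 * m + 1))

theorem nest_append (m : ℕ) : ∀ (i : ℕ) (x u w : List Bool), u.length = i * (2 * m + 1) →
    w.length = 2 * m + 1 → nest m (i + 1) x (u ++ w) = pairBits (dc m w) (nest m i x u) := by
  intro i
  induction i with
  | zero =>
    intro x u w hu hw
    have : u = [] := List.length_eq_zero_iff.1 (by simpa using hu)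
    subst this
    simp only [nest, List.nil_append]
    rw [← hw, List.take_length]
  | succ i ih =>
    intro x u w hu hw
    have h0 : 2 * m + 1 ≤ u.length := by
      rw [hu]
      exact Nat.le_mul_of_pos_left _ (Nat.succ_pos i)
    rw [nest, List.drop_append_of_le_length h0, List.take_append_of_le_length h0,
      ih _ _ w (by rw [List.length_drop, hu, add_mul, one_mul]; omega) hw]
    rfl

theorem poly_nest {m : α → ℕ} (hm : UPoly m) : ∀ (c : ℕ) {x u : α → List Bool} (_ : Poly x)
    (_ : Poly u), Poly (fun a => nest (m a) c (x a) (u a)) := by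
  intro c
  have h2 : UPoly (fun a => 2 * m a + 1) := UPoly.add (UPoly.mul (UPoly.const 2) hm)
    (UPoly.const 1)
  induction c with
  | zero => intro x u hx hu; exact hx
  | succ c ih =>
    intro x u hx hu
    refine ih (poly_pairBits ?_ hx) (Up.poly_drop hu h2)
    exact R1.poly_take (Poly.fst (poly_unpair.comp (R1.poly_take hu h2))) hm

theorem alt_quant (m k : ℕ) (V : List Bool → List Bool) (x : List Bool) :
    ∀ (j i : ℕ) (b : Bool) (u : List Bool), i + j = k → u.length = i * (2 * m + 1) →
      (Alt (2 * m + 1) (fun v => V (nest m k x v) = [true]) j b u ↔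
        Quant m V j b (nest m i x u)) := by
  intro j
  induction j with
  | zero =>
    intro i b u hi hu
    have : i = k := by omega
    subst this
    cases b <;> exact Iff.rfl
  | succ j ih =>
    intro i b u hi hu
    have h1 : ∀ (b : Bool) (w : List Bool), w.length = 2 * m + 1 →
        (Alt (2 * m + 1) (fun v => V (nest m k x v) = [true]) j b (u ++ w) ↔
        Quant m V j b (pairBits (dc m w) (nest m i x u))) := by
      intro b w hw
      rw [ih (i + 1) b (u ++ w) (by omega) (by rw [List.length_append, hu, hw]; ring),
        nest_append m i x u w hu hw]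
    cases b with
    | true =>
      simp only [Alt, Quant]
      constructor
      · rintro ⟨w, hw, h⟩
        exact ⟨_, dc_length m w, (h1 _ w hw).1 h⟩
      · rintro ⟨w, hw, h⟩
        obtain ⟨z, hz, rfl⟩ := dc_surj hw
        exact ⟨z, hz, (h1 _ z hz).2 h⟩
    | false =>
      simp only [Alt, Quant]
      constructor
      · intro h w hw
        obtain ⟨z, hz, rfl⟩ := dc_surj hw
        exact (h1 _ z hz).1 (h z hz)
      · intro h w hw
        exact (h1 _ w hw).2 (h _ (dc_length m w))

theorem IsPH.isSigma {A : Oracle} {L : Set (List Bool)} (h : IsPH A L) :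
    ∃ c, IsSigma A (fun _ => c) L := by
  obtain ⟨V, p, k, hV, hx⟩ := h
  have h1 : Poly (fun y : List Bool => (unpair y).1) := Poly.fst poly_unpair
  have h2 : Poly (fun y : List Bool => (unpair y).2) := Poly.snd poly_unpair
  refine ⟨k, fun y => V (nest (p.eval (unpair y).1.length) k (unpair y).1 (unpair y).2),
    2 * p + 1, hV.precomp (poly_nest (UPoly.eval (UPoly.length h1) p) k h1 h2), fun x => ?_⟩
  have e : (2 * p + 1).eval x.length = 2 * p.eval x.length + 1 := by simp
  rw [hx x, e]
  simp only [unpair_pairBits]
  exact (alt_quant (p.eval x.length) k V x k 0 true [] (by omega) (by simp)).symm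

/-- constant numbers of alternations give the polynomial hierarchy -/
theorem isPH_iff {A : Oracle} {L : Set (List Bool)} :
    IsPH A L ↔ ∃ c : ℕ, IsSigma A (fun _ => c) L :=
  ⟨IsPH.isSigma, fun ⟨_, h⟩ => h.isPH⟩

end Pool.Agent.W911.AL
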