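import Pool.Agent.W911.AL.Win

/-!
# Computable numbers of children
-/

set_option autoImplicit false

namespace Pool.Agent.W911.AL

open Finset H568R2 Pool.Agent.H676 Pool.Agent.H620R2.Gauge Pool.Agent.NPC
open Pool.Agent.H591R3.PHG

/-- one squaring of a number between `0` and `1`, with `B` binary digits -/
def sqd (B Y : ℕ) : ℕ := Y * Y / 2 ^ B

/-- the least exponent `a` with `W / P < 2 ^ a`, at most `64 * n` -/
def ex (n W P : ℕ) : ℕ := min (Nat.size (W / P)) (64 * n)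

/-- The exponents of the numbers of children, for `k` levels and the roots; `P / 2 ^ B` is an
approximation of the probability that a node is true. -/
def szs (n B : ℕ) : ℕ → ℕ → List ℕ
  | 0, P => [ex n (2 ^ (B - 1)) P]
  | k + 1, P => ex n (31 * n * 2 ^ (B - 1)) P ::
      szs n B k ((sqd B)^[ex n (31 * n * 2 ^ (B - 1)) P] (2 ^ B - P))

theorem szs_length (n B : ℕ) : ∀ (k P : ℕ), (szs n B k P).length = k + 1 := by
  intro k
  induction k with
  | zero => intro P; rfl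
  | succ k ih => intro P; simp [szs, ih]

theorem ex_le (n W P : ℕ) : ex n W P ≤ 64 * n := min_le_right _ _

theorem szs_le (n B : ℕ) : ∀ (k P : ℕ), ∀ a ∈ szs n B k P, a ≤ 64 * n := by
  intro k
  induction k with
  | zero =>
    intro P a ha
    rw [szs, List.mem_singleton] at ha
    rw [ha]
    exact ex_le _ _ _
  | succ k ih =>
    intro P a ha
    rw [szs, List.mem_cons] at ha
    rcases ha with rfl | ha
    · exact ex_le _ _ _
    · exact ih _ a ha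

/-- `P / 2 ^ B` approximates `p` -/
def Near (B P : ℕ) (p ε : ℝ) : Prop := |(P : ℝ) / 2 ^ B - p| ≤ ε * p

theorem sqd_bounds {B S : ℕ} :
    ((S : ℝ) / 2 ^ B) ^ 2 - 1 / 2 ^ B ≤ (sqd B S : ℝ) / 2 ^ B ∧
      (sqd B S : ℝ) / 2 ^ B ≤ ((S : ℝ) / 2 ^ B) ^ 2 := by
  have hB : (0 : ℝ) < 2 ^ B := by positivity
  have h1 : sqd B S * 2 ^ B ≤ S * S := Nat.div_mul_le_self _ _
  have h2 : S * S < (sqd B S + 1) * 2 ^ B := by
    have := Nat.lt_succ_iff.2 (le_refl (S * S / 2 ^ B))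
    rwa [Nat.div_lt_iff_lt_mul (by positivity)] at this
  have h1' : (sqd B S : ℝ) * 2 ^ B ≤ S * S := by exact_mod_cast h1
  have h2' : (S : ℝ) * S < (sqd B S + 1) * 2 ^ B := by exact_mod_cast h2
  have e : ((S : ℝ) / 2 ^ B) ^ 2 = S * S / 2 ^ B / 2 ^ B := by
    field_simp
  constructor
  · rw [e, ← sub_div]
    apply div_le_div_of_nonneg_right _ hB.le
    rw [sub_le_iff_le_add, div_le_iff₀ hB]
    exact h2'.le
  · rw [e]
    apply div_le_div_of_nonneg_right _ hB.le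
    rw [le_div_iff₀ hB]
    exact h1'

theorem sqi_bounds {B Y : ℕ} (hY : Y ≤ 2 ^ B) : ∀ a : ℕ,
    ((Y : ℝ) / 2 ^ B) ^ (2 ^ a) - (2 ^ a - 1) * (1 / 2 ^ B) ≤ (((sqd B)^[a] Y : ℕ) : ℝ) / 2 ^ B ∧
      (((sqd B)^[a] Y : ℕ) : ℝ) / 2 ^ B ≤ ((Y : ℝ) / 2 ^ B) ^ (2 ^ a) := by
  have hB : (0 : ℝ) < 2 ^ B := by positivity
  have hy0 : (0 : ℝ) ≤ (Y : ℝ) / 2 ^ B := by positivity
  have hy1 : (Y : ℝ) / 2 ^ B ≤ 1 := by
    rw [div_le_one hB]
    exact_mod_cast hY
  intro a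
  induction a with
  | zero => simp
  | succ a ih =>
    obtain ⟨h1, h2⟩ := ih
    rw [Function.iterate_succ_apply']
    set S := (sqd B)^[a] Y with hS
    obtain ⟨h3, h4⟩ := sqd_bounds (B := B) (S := S)
    set s : ℝ := (S : ℝ) / 2 ^ B with hs
    set z : ℝ := ((Y : ℝ) / 2 ^ B) ^ (2 ^ a) with hz
    have hz0 : 0 ≤ z := pow_nonneg hy0 _
    have hz1 : z ≤ 1 := pow_le_one₀ hy0 hy1
    have hs0 : 0 ≤ s := by positivity
    have e : ((Y : ℝ) / 2 ^ B) ^ (2 ^ (a + 1)) = z ^ 2 := by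
      rw [hz, ← pow_mul, pow_succ]
    set t : ℝ := 1 / 2 ^ B with ht
    have ht0 : 0 < t := by positivity
    have h2a : (1 : ℝ) ≤ 2 ^ a := one_le_pow₀ (by norm_num)
    rw [e]
    constructor
    · have hδ : 0 ≤ (2 ^ a - 1) * t := mul_nonneg (by linarith) ht0.le
      have e2 : ((2 : ℝ) ^ (a + 1) - 1) * t = 2 * ((2 ^ a - 1) * t) + t := by
        rw [pow_succ]; ring
      rw [e2]
      set δ : ℝ := (2 ^ a - 1) * t with hδdef
      have h5 : z ^ 2 - 2 * δ ≤ s ^ 2 := by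
        by_cases hzd : δ ≤ z
        · have h6 : (z - δ) ^ 2 ≤ s ^ 2 := pow_le_pow_left₀ (by linarith) h1 2
          nlinarith
        · push Not at hzd
          nlinarith
      linarith
    · exact h4.trans (pow_le_pow_left₀ hs0 h2 2)

theorem ex_spec {n W P : ℕ} (hP : 0 < P) (hW : P ≤ W) (h : W < 2 ^ (64 * n) * P) :
    W < 2 ^ ex n W P * P ∧ 2 ^ ex n W P * P ≤ 2 * W := by
  have h1 : Nat.size (W / P) ≤ 64 * n := by
    rw [Nat.size_le, Nat.div_lt_iff_lt_mul hP]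
    exact h
  have h2 : ex n W P = Nat.size (W / P) := min_eq_left h1
  rw [h2]
  have h3 : W / P < 2 ^ Nat.size (W / P) := Nat.lt_size_self _
  rw [Nat.div_lt_iff_lt_mul hP] at h3
  refine ⟨h3, ?_⟩
  have h4 : 0 < W / P := Nat.div_pos hW hP
  have h5 : 0 < Nat.size (W / P) := Nat.size_pos.2 h4
  obtain ⟨s, hs⟩ : ∃ s, Nat.size (W / P) = s + 1 := ⟨Nat.size (W / P) - 1, by omega⟩
  have h6 : 2 ^ s ≤ W / P := Nat.lt_size.1 (by omega)
  rw [hs, pow_succ]
  have h7 : 2 ^ s * P ≤ W := by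
    calc 2 ^ s * P ≤ W / P * P := Nat.mul_le_mul_right _ h6
      _ ≤ W := Nat.div_mul_le_self _ _
  calc 2 ^ s * 2 * P = 2 * (2 ^ s * P) := by ring
    _ ≤ 2 * W := Nat.mul_le_mul_left _ h7

/-- the bounds for a good approximation -/
theorem near_facts {n B P : ℕ} {p ε : ℝ} (hn : 5 ≤ n) (hlo : Real.exp (-(36 * n)) ≤ p)
    (hhi : p ≤ 1 / 2 ^ (8 * n)) (hε : ε ≤ 1 / 64) (h : Near B P p ε) :
    0 < P ∧ (P : ℝ) / 2 ^ B ≤ 65 / 64 * p ∧ 63 / 64 * p ≤ (P : ℝ) / 2 ^ B ∧ P ≤ 2 ^ B ∧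
      0 < p ∧ p ≤ 1 / 2 ^ 40 := by
  have hB : (0 : ℝ) < 2 ^ B := by positivity
  have hp : 0 < p := lt_of_lt_of_le (Real.exp_pos _) hlo
  have hp40 : p ≤ 1 / 2 ^ 40 := by
    refine hhi.trans (one_div_le_one_div_of_le (by positivity) ?_)
    exact pow_le_pow_right₀ (by norm_num) (by omega)
  have h1 := abs_le.1 h
  have h2 : ε * p ≤ 1 / 64 * p := mul_le_mul_of_nonneg_right hε hp.le
  have h3 : (P : ℝ) / 2 ^ B ≤ 65 / 64 * p := by linarith [h1.2]
  have h4 : 63 / 64 * p ≤ (P : ℝ) / 2 ^ B := by linarith [h1.1]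
  refine ⟨?_, h3, h4, ?_, hp, hp40⟩
  · have h5 : (0 : ℝ) < (P : ℝ) / 2 ^ B := by linarith
    rw [div_pos_iff_of_pos_right hB] at h5
    exact_mod_cast h5
  · have h5 : (P : ℝ) / 2 ^ B ≤ 1 := by
      refine h3.trans ?_
      have : (1 : ℝ) / 2 ^ 40 ≤ 1 / 2 := by norm_num
      linarith
    rw [div_le_one hB] at h5
    exact_mod_cast h5

theorem exp36_ge (n : ℕ) : 1 / (2 : ℝ) ^ (52 * n) ≤ Real.exp (-(36 * n)) := by
  rw [Real.exp_neg, ← one_div]
  exact one_div_le_one_div_of_le (Real.exp_pos _) (exp36_le n)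

/-- the choice of the number of children -/
theorem ex_window {n B P W : ℕ} {p ε β : ℝ} (hn : 5 ≤ n) (hlo : Real.exp (-(36 * n)) ≤ p)
    (hhi : p ≤ 1 / 2 ^ (8 * n)) (hε : ε ≤ 1 / 64) (h : Near B P p ε)
    (hW : (W : ℝ) = β * 2 ^ B) (hβ1 : 1 / 2 ≤ β) (hβ2 : β ≤ 16 * n) :
    64 / 65 * β ≤ (2 : ℝ) ^ ex n W P * p ∧ (2 : ℝ) ^ ex n W P * p ≤ 64 / 63 * (2 * β) ∧
      2 ^ ex n W P * ((P : ℝ) / 2 ^ B) ≤ 2 * β := by
  obtain ⟨hP, h1, h2, h3, hp, hp40⟩ := near_facts hn hlo hhi hε h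
  have hB : (0 : ℝ) < 2 ^ B := by positivity
  have hPW : P ≤ W := by
    have h4 : (P : ℝ) ≤ W := by
      rw [hW, ← div_le_iff₀ hB]
      refine h1.trans ?_
      have : (1 : ℝ) / 2 ^ 40 ≤ 1 / 4 := by norm_num
      linarith
    exact_mod_cast h4
  have hWP : W < 2 ^ (64 * n) * P := by
    have h4 : (W : ℝ) < 2 ^ (64 * n) * P := by
      rw [hW, ← lt_div_iff₀ hB, mul_div_assoc]
      have h5 : 1 / (2 : ℝ) ^ (52 * n) ≤ p := (exp36_ge n).trans hlo
      have h6 : (63 : ℝ) / 64 * (1 / 2 ^ (52 * n)) ≤ (P : ℝ) / 2 ^ B := by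
        refine le_trans ?_ h2
        exact mul_le_mul_of_nonneg_left h5 (by norm_num)
      have h7 : (2 : ℝ) ^ (64 * n) * (63 / 64 * (1 / 2 ^ (52 * n))) ≤
          2 ^ (64 * n) * ((P : ℝ) / 2 ^ B) := mul_le_mul_of_nonneg_left h6 (by positivity)
      refine lt_of_lt_of_le ?_ h7
      have h8 : (2 : ℝ) ^ (64 * n) * (63 / 64 * (1 / 2 ^ (52 * n))) = 63 / 64 * 2 ^ (12 * n) := by
        have : (2 : ℝ) ^ (64 * n) = 2 ^ (12 * n) * 2 ^ (52 * n) := by
          rw [← pow_add]; congr 1; ring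
        rw [this]
        field_simp
      rw [h8]
      have h9 : (n : ℝ) ≤ 2 ^ n := by exact_mod_cast (Nat.lt_two_pow_self (n := n)).le
      have h10 : (2 : ℝ) ^ (12 * n) = 2 ^ n * 2 ^ (11 * n) := by
        rw [← pow_add]; congr 1; ring
      have h11 : (2 : ℝ) ^ 55 ≤ 2 ^ (11 * n) := pow_le_pow_right₀ (by norm_num) (by omega)
      have h12 : (0 : ℝ) < 2 ^ n := by positivity
      have h13 : (n : ℝ) * 2 ^ 55 ≤ 2 ^ n * 2 ^ (11 * n) :=
        mul_le_mul h9 h11 (by positivity) h12.le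
      have hn0 : (5 : ℝ) ≤ n := by exact_mod_cast hn
      rw [h10]
      norm_num at h13 ⊢
      nlinarith
    exact_mod_cast h4
  obtain ⟨h4, h5⟩ := ex_spec (n := n) hP hPW hWP
  set a := ex n W P with ha
  have h4' : (W : ℝ) < 2 ^ a * P := by exact_mod_cast h4
  have h5' : (2 : ℝ) ^ a * P ≤ 2 * W := by exact_mod_cast h5
  have h6 : β < 2 ^ a * ((P : ℝ) / 2 ^ B) := by
    rw [← mul_div_assoc, lt_div_iff₀ hB, ← hW]
    exact h4'
  have h7 : 2 ^ a * ((P : ℝ) / 2 ^ B) ≤ 2 * β := by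
    rw [← mul_div_assoc, div_le_iff₀ hB, mul_assoc, ← hW]
    exact h5'
  have h2a : (0 : ℝ) < 2 ^ a := by positivity
  refine ⟨?_, ?_, h7⟩
  · have h8 : 2 ^ a * ((P : ℝ) / 2 ^ B) ≤ 2 ^ a * (65 / 64 * p) :=
      mul_le_mul_of_nonneg_left h1 h2a.le
    linarith
  · have h8 : 2 ^ a * (63 / 64 * p) ≤ 2 ^ a * ((P : ℝ) / 2 ^ B) :=
      mul_le_mul_of_nonneg_left h2 h2a.le
    linarith

theorem near_step {n B P a : ℕ} {p ε : ℝ} (hn : 5 ≤ n) (hlo : Real.exp (-(36 * n)) ≤ p)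
    (hhi : p ≤ 1 / 2 ^ (8 * n)) (hε0 : 0 ≤ ε) (hε : ε ≤ 1 / 64) (hε2 : 66 * n * ε ≤ 1)
    (h : Near B P p ε) (hcp : (2 : ℝ) ^ a * p ≤ 33 * n) (ha : a ≤ 64 * n)
    (hlo' : Real.exp (-(36 * n)) ≤ (1 - p) ^ (2 ^ a)) :
    Near B ((sqd B)^[a] (2 ^ B - P)) ((1 - p) ^ (2 ^ a))
      (132 * n * ε + 2 ^ (116 * n) / 2 ^ B) := by
  obtain ⟨hP, h1, h2, h3, hp, hp40⟩ := near_facts hn hlo hhi hε h
  have hB : (0 : ℝ) < 2 ^ B := by positivity
  have hq : (((2 ^ B - P : ℕ) : ℝ)) / 2 ^ B = 1 - (P : ℝ) / 2 ^ B := by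
    rw [Nat.cast_sub h3]
    push_cast
    field_simp
  obtain ⟨h4, h5⟩ := sqi_bounds (B := B) (Y := 2 ^ B - P) (Nat.sub_le _ _) a
  rw [hq] at h4 h5
  set pt : ℝ := (P : ℝ) / 2 ^ B with hpt
  have h6 := abs_le.1 h
  have hp2 : p ≤ 1 / 2 := hp40.trans (by norm_num)
  have hεp : 0 ≤ ε * p := mul_nonneg hε0 hp.le
  have hεp2 : ε * p ≤ 1 / 64 := by nlinarith
  set y : ℝ := (1 - p) ^ (2 ^ a) with hy
  have hy0 : 0 < y := pow_pos (by linarith) _
  have h2a : (0 : ℝ) < 2 ^ a := by positivity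
  have hc : (((2 ^ a : ℕ)) : ℝ) = 2 ^ a := by push_cast; rfl
  have hx : 2 ^ a * (2 * (ε * p)) ≤ 66 * n * ε := by
    calc 2 ^ a * (2 * (ε * p)) = 2 * ε * (2 ^ a * p) := by ring
      _ ≤ 2 * ε * (33 * n) := mul_le_mul_of_nonneg_left hcp (by linarith)
      _ = 66 * n * ε := by ring
  -- upper bound
  have hup : (1 - pt) ^ (2 ^ a) ≤ y * (1 + 132 * n * ε) := by
    have h7 : 1 - pt ≤ (1 - p) * (1 + 2 * (ε * p)) := by nlinarith [h6.1]
    have h8 : 0 ≤ 1 - pt := by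
      have : pt ≤ 1 := by linarith
      linarith
    have h9 : (1 + 2 * (ε * p)) ^ (2 ^ a) ≤ 1 + 132 * n * ε := by
      calc (1 + 2 * (ε * p)) ^ (2 ^ a) ≤ (Real.exp (2 * (ε * p))) ^ (2 ^ a) := by
            refine pow_le_pow_left₀ (by linarith) ?_ _
            have := Real.add_one_le_exp (2 * (ε * p))
            linarith
        _ = Real.exp (2 ^ a * (2 * (ε * p))) := by
            rw [← Real.exp_nat_mul, hc]
        _ ≤ Real.exp (66 * n * ε) := Real.exp_le_exp.mpr hx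
        _ ≤ 1 + 132 * n * ε := by
            have h10 : Real.exp (66 * n * ε) ≤ 1 + 66 * n * ε + (66 * n * ε) ^ 2 := by
              have h11 : |66 * (n : ℝ) * ε| ≤ 1 := by
                rw [abs_of_nonneg (by positivity)]
                exact hε2
              have h12 := Real.abs_exp_sub_one_sub_id_le h11
              have h13 := abs_le.1 h12
              linarith [h13.2]
            have h14 : (66 * (n : ℝ) * ε) ^ 2 ≤ 66 * n * ε := by
              have : 0 ≤ 66 * (n : ℝ) * ε := by positivity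
              nlinarith
            linarith
    calc (1 - pt) ^ (2 ^ a) ≤ ((1 - p) * (1 + 2 * (ε * p))) ^ (2 ^ a) :=
          pow_le_pow_left₀ h8 h7 _
      _ = y * (1 + 2 * (ε * p)) ^ (2 ^ a) := by rw [mul_pow]
      _ ≤ y * (1 + 132 * n * ε) := mul_le_mul_of_nonneg_left h9 hy0.le
  -- lower bound
  have hdown : y * (1 - 66 * n * ε) ≤ (1 - pt) ^ (2 ^ a) := by
    have h7 : (1 - p) * (1 - 2 * (ε * p)) ≤ 1 - pt := by nlinarith [h6.2]
    have h8 : 1 - 66 * n * ε ≤ (1 - 2 * (ε * p)) ^ (2 ^ a) := by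
      have h9 := one_add_mul_le_pow (show (-2 : ℝ) ≤ -(2 * (ε * p)) by linarith) (2 ^ a)
      rw [hc, ← sub_eq_add_neg (1 : ℝ)] at h9
      linarith
    calc y * (1 - 66 * n * ε) ≤ y * (1 - 2 * (ε * p)) ^ (2 ^ a) :=
          mul_le_mul_of_nonneg_left h8 hy0.le
      _ = ((1 - p) * (1 - 2 * (ε * p))) ^ (2 ^ a) := by rw [mul_pow]
      _ ≤ (1 - pt) ^ (2 ^ a) := pow_le_pow_left₀
          (mul_nonneg (by linarith) (by linarith)) h7 _
  -- the rounding error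
  have hr : (2 ^ a - 1) * (1 / 2 ^ B) ≤ 2 ^ (116 * n) / 2 ^ B * y := by
    have h7 : 1 / (2 : ℝ) ^ (52 * n) ≤ y := (exp36_ge n).trans hlo'
    have h8 : (2 : ℝ) ^ a ≤ 2 ^ (64 * n) := pow_le_pow_right₀ (by norm_num) ha
    have h9 : (2 : ℝ) ^ (64 * n) = 2 ^ (116 * n) * (1 / 2 ^ (52 * n)) := by
      rw [mul_one_div, eq_div_iff (by positivity), ← pow_add]
      congr 1
      ring
    have h10 : (2 : ℝ) ^ (116 * n) * (1 / 2 ^ (52 * n)) ≤ 2 ^ (116 * n) * y :=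
      mul_le_mul_of_nonneg_left h7 (by positivity)
    calc ((2 : ℝ) ^ a - 1) * (1 / 2 ^ B) ≤ (2 ^ (116 * n) * y) * (1 / 2 ^ B) :=
          mul_le_mul_of_nonneg_right (by linarith) (by positivity)
      _ = 2 ^ (116 * n) / 2 ^ B * y := by ring
  unfold Near
  rw [abs_le, add_mul]
  have hnn : 0 ≤ 2 ^ (116 * n) / 2 ^ B * y := by positivity
  have hnn2 : 0 ≤ (n : ℝ) * ε * y := by positivity
  constructor
  · nlinarith
  · nlinarith

/-- the sizes of the levels -/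
theorem szs_spec {n B : ℕ} (hn : 5 ≤ n) : ∀ (k P : ℕ) (law : Option Bool → ℝ), Inv n law →
    116 * n + 7 + k * (n + 8) ≤ B →
    Near B P (law none / 2 ^ (4 * n) + law (some true)) (1 / 2 ^ (6 + k * (n + 8))) →
      ∀ (X : Type) [Fintype X] [DecidableEq X] (D g : ℕ), 16 * D ≤ 2 ^ (4 * n) →
        4 * g ≤ Fintype.card X →
        Ex law (Wt (X := X) (1 / 2 ^ (4 * n)) (1 / 2 ^ (2 * n)) (8 * n * 2 ^ (4 * n)) (1 / 256) D g
          (pw (szs n B k P))) ≤ (9 / 10) ^ Fintype.card X := by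
  classical
  have hnr : (5 : ℝ) ≤ n := by exact_mod_cast hn
  have h2n : (1 : ℝ) / 2 ^ (2 * n) ≤ 1 / 32 := by
    apply one_div_le_one_div_of_le (by norm_num)
    calc (32 : ℝ) = 2 ^ 5 := by norm_num
      _ ≤ 2 ^ (2 * n) := pow_le_pow_right₀ (by norm_num) (by omega)
  intro k
  induction k with
  | zero =>
    intro P law hinv hB hnear X _ _ D g hD hg
    have hε : (1 : ℝ) / 2 ^ (6 + 0 * (n + 8)) ≤ 1 / 64 := by
      rw [zero_mul, add_zero]
      norm_num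
    have hW : ((2 ^ (B - 1) : ℕ) : ℝ) = 1 / 2 * 2 ^ B := by
      obtain ⟨b, rfl⟩ : ∃ b, B = b + 1 := ⟨B - 1, by omega⟩
      rw [Nat.add_sub_cancel, pow_succ]
      push_cast
      ring
    obtain ⟨h1, h2, _⟩ := ex_window hn hinv.lo hinv.hi hε hnear hW le_rfl (by linarith)
    have hT : (64 : ℕ) ≤ 2 ^ (4 * n) := by
      calc 64 = 2 ^ 6 := by norm_num
        _ ≤ 2 ^ (4 * n) := Nat.pow_le_pow_right (by norm_num) (by omega)
    have h16 : 16 ∣ 2 ^ (4 * n) := by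
      have : (16 : ℕ) = 2 ^ 4 := by norm_num
      rw [this]
      exact pow_dvd_pow 2 (by omega)
    have hc : (((2 ^ (4 * n) : ℕ)) : ℝ) = 2 ^ (4 * n) := by push_cast; rfl
    set a := ex n (2 ^ (B - 1)) P with ha
    have hc2 : (((2 ^ a : ℕ)) : ℝ) = 2 ^ a := by push_cast; rfl
    have hgp := good_prob_w (c := 2 ^ a) (D := D) (T := 2 ^ (4 * n)) (ξ := 1 / 2 ^ (2 * n)) hT h16
      hD (by positivity) h2n (law := law) hinv.nonneg hinv.sum (by rw [hc]; exact hinv.rare)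
      (by rw [hc, hc2]; linarith) (by rw [hc, hc2]; linarith)
    rw [hc] at hgp
    exact few_good (X := X) (c := 2 ^ a) hinv.nonneg hinv.sum hgp hg
  | succ k ih =>
    intro P law hinv hB hnear X _ _ D g hD hg
    set ε : ℝ := 1 / 2 ^ (6 + (k + 1) * (n + 8)) with hεdef
    have hε0 : 0 ≤ ε := by positivity
    have hε : ε ≤ 1 / 64 := by
      rw [hεdef]
      apply one_div_le_one_div_of_le (by norm_num)
      calc (64 : ℝ) = 2 ^ 6 := by norm_num
        _ ≤ _ := pow_le_pow_right₀ (by norm_num) (by omega)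
    have hnpow : (n : ℝ) ≤ 2 ^ n := by exact_mod_cast (Nat.lt_two_pow_self (n := n)).le
    have hn2 : 132 * (n : ℝ) ≤ 2 ^ (n + 7) := by
      have h3 : n + 1 ≤ 2 ^ n := Nat.lt_two_pow_self
      have h4 : 66 * n ≤ 2 ^ (n + 6) := by
        have h5 : ∀ m : ℕ, 66 * (m + 5) ≤ 2 ^ (m + 11) := by
          intro m
          induction m with
          | zero => norm_num
          | succ m ih =>
            have e : (2 : ℕ) ^ (m + 1 + 11) = 2 ^ (m + 11) * 2 := by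
              rw [← pow_succ]
            have : 2 ^ 11 ≤ 2 ^ (m + 11) := Nat.pow_le_pow_right (by norm_num) (by omega)
            omega
        obtain ⟨m, rfl⟩ : ∃ m, n = m + 5 := ⟨n - 5, by omega⟩
        exact h5 m
      have h6 : 132 * n ≤ 2 ^ (n + 7) := by
        rw [show n + 7 = (n + 6) + 1 by ring, pow_succ]; omega
      exact_mod_cast h6
    have hε2 : 66 * n * ε ≤ 1 := by
      rw [hεdef, mul_one_div, div_le_one (by positivity)]
      calc 66 * (n : ℝ) ≤ 132 * n := by linarith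
        _ ≤ 2 ^ (n + 7) := hn2
        _ ≤ _ := pow_le_pow_right₀ (by norm_num) (by
            have : (k + 1) * (n + 8) = k * (n + 8) + (n + 8) := by ring
            omega)
    have hW : ((31 * n * 2 ^ (B - 1) : ℕ) : ℝ) = 31 / 2 * n * 2 ^ B := by
      obtain ⟨b, rfl⟩ : ∃ b, B = b + 1 := ⟨B - 1, by omega⟩
      rw [Nat.add_sub_cancel, pow_succ]
      push_cast
      ring
    obtain ⟨h1, h2, h3⟩ := ex_window hn hinv.lo hinv.hi hε hnear hW (by linarith)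
      (by linarith)
    set a := ex n (31 * n * 2 ^ (B - 1)) P with ha
    set p := law none / 2 ^ (4 * n) + law (some true) with hp
    have hc2 : (((2 ^ a : ℕ)) : ℝ) = 2 ^ a := by push_cast; rfl
    have hinv' := inv_step_w (c := 2 ^ a) hn hinv (by rw [hc2]; linarith)
      (by rw [hc2]; linarith)
    have hp' : nxt (1 / 2 ^ (4 * n)) (1 / 2 ^ (4 * n)) (1 / 2 ^ (2 * n)) (8 * n * 2 ^ (4 * n))
        (2 ^ a) law none / 2 ^ (4 * n) +
        nxt (1 / 2 ^ (4 * n)) (1 / 2 ^ (4 * n)) (1 / 2 ^ (2 * n)) (8 * n * 2 ^ (4 * n)) (2 ^ a)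
        law (some true) = (1 - p) ^ (2 ^ a) := by
      have ht0 : (0 : ℝ) < 1 / 2 ^ (4 * n) := by positivity
      have ht1 : (1 : ℝ) / 2 ^ (4 * n) < 1 := by
        rw [div_lt_one (by positivity)]
        exact one_lt_pow₀ (by norm_num) (by omega)
      have hs : 1 ≤ 8 * n * 2 ^ (4 * n) := Nat.mul_pos (by omega) (by positivity)
      have e := nxt_p (c := 2 ^ a) (ξ := 1 / 2 ^ (2 * n)) ht0 ht1 ht0 hs hinv.sum
      rw [one_div_mul_eq_div, one_div_mul_eq_div] at e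
      exact e
    have hlo' := hinv'.lo
    rw [hp'] at hlo'
    have hnear' := near_step (a := a) hn hinv.lo hinv.hi hε0 hε hε2 hnear (by linarith)
      (ex_le _ _ _) hlo'
    have hnear2 : Near B ((sqd B)^[a] (2 ^ B - P)) ((1 - p) ^ (2 ^ a))
        (1 / 2 ^ (6 + k * (n + 8))) := by
      refine le_trans hnear' (mul_le_mul_of_nonneg_right ?_ ?_)
      · have e1 : 132 * n * ε ≤ 1 / 2 * (1 / 2 ^ (6 + k * (n + 8))) := by
          have e2 : (2 : ℝ) ^ (6 + (k + 1) * (n + 8)) = 2 ^ (n + 7) * (2 * 2 ^ (6 + k * (n + 8))) := by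
            rw [← pow_succ', ← pow_add]
            congr 1
            ring
          rw [hεdef, e2]
          rw [mul_one_div, div_le_iff₀ (by positivity)]
          calc 132 * (n : ℝ) ≤ 2 ^ (n + 7) := hn2
            _ = 1 / 2 * (1 / 2 ^ (6 + k * (n + 8))) * (2 ^ (n + 7) * (2 * 2 ^ (6 + k * (n + 8)))) := by
                field_simp
        have e3 : (2 : ℝ) ^ (116 * n) / 2 ^ B ≤ 1 / 2 * (1 / 2 ^ (6 + k * (n + 8))) := by
          rw [div_le_iff₀ (by positivity)]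
          have e4 : (2 : ℝ) ^ (116 * n + 7 + k * (n + 8)) ≤ 2 ^ B :=
            pow_le_pow_right₀ (by norm_num) (by
              have : (k + 1) * (n + 8) = k * (n + 8) + (n + 8) := by ring
              omega)
          have e5 : (2 : ℝ) ^ (116 * n + 7 + k * (n + 8)) = 2 ^ (116 * n) * (2 * 2 ^ (6 + k * (n + 8))) := by
            rw [← pow_succ', ← pow_add]
            congr 1
            ring
          rw [e5] at e4
          calc (2 : ℝ) ^ (116 * n) = 1 / 2 * (1 / 2 ^ (6 + k * (n + 8))) *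
                (2 ^ (116 * n) * (2 * 2 ^ (6 + k * (n + 8)))) := by field_simp
            _ ≤ _ := mul_le_mul_of_nonneg_left e4 (by positivity)
        linarith
      · exact (Real.exp_pos _).le.trans hlo'
    rw [← hp'] at hnear2
    have hX := ih _ _ hinv' (by
      have : (k + 1) * (n + 8) = k * (n + 8) + (n + 8) := by ring
      omega) hnear2 X D g hD hg
    refine le_trans (le_of_eq ?_) hX
    have hne : pw (szs n B k ((sqd B)^[a] (2 ^ B - P))) ≠ [] := by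
      intro h
      have : (pw (szs n B k ((sqd B)^[a] (2 ^ B - P)))).length = 0 := by rw [h]; rfl
      rw [pw, List.length_map, szs_length] at this
      omega
    rw [← law_stage (G := Idx X (pw (szs n B k ((sqd B)^[a] (2 ^ B - P))))) (c := 2 ^ a)
      (smin := 8 * n * 2 ^ (4 * n)) (t := 1 / 2 ^ (4 * n)) (t' := 1 / 2 ^ (4 * n))
      (ξ := 1 / 2 ^ (2 * n)) law]
    show Ex law (Wt (X := X) _ _ _ _ D g (2 ^ a :: pw (szs n B k _))) = _
    unfold Ex
    refine Finset.sum_congr rfl fun s _ => ?_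
    rw [Wt_two _ _ _ _ _ _ _ _ hne]
    rfl

/-- the number of digits -/
def BB (n κ : ℕ) : ℕ := 116 * n + 7 + κ * (n + 8)

/-- the exponents of the numbers of children, the last level first -/
def Sz (n κ : ℕ) : List ℕ := szs n (BB n κ) κ (2 ^ (BB n κ - 8 * n))

theorem Sz_length (n κ : ℕ) : (Sz n κ).length = κ + 1 := szs_length _ _ _ _

theorem Sz_le (n κ : ℕ) : ∀ a ∈ Sz n κ, a ≤ 64 * n := szs_le _ _ _ _

theorem Sz_spec {n : ℕ} (hn : 5 ≤ n) (κ : ℕ) (X : Type) [Fintype X] [DecidableEq X] (D g : ℕ)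
    (hD : 16 * D ≤ 2 ^ (4 * n)) (hg : 4 * g ≤ Fintype.card X) :
    Ex (nxt (1 / 2) (1 / 2 ^ (4 * n)) 0 (8 * n) (8 * n) law0)
      (Wt (X := X) (1 / 2 ^ (4 * n)) (1 / 2 ^ (2 * n)) (8 * n * 2 ^ (4 * n)) (1 / 256) D g
        (pw (Sz n κ))) ≤ (9 / 10) ^ Fintype.card X := by
  refine szs_spec (B := BB n κ) hn κ _ _ (inv_start hn) (le_of_eq rfl) ?_ X D g hD hg
  have hs : 1 ≤ 8 * n := by omega
  have hT : (0 : ℝ) < 1 / 2 ^ (4 * n) := by positivity
  obtain ⟨h2, h3⟩ := nxt_law0 (w := 8 * n) (smin := 8 * n) hs le_rfl hT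
  rw [h2, h3]
  have e1 : ((1 : ℝ) / 2) ^ (8 * n) / (1 / 2 ^ (4 * n)) / 2 ^ (4 * n) + 0 = 1 / 2 ^ (8 * n) := by
    rw [one_div_pow]
    field_simp
    ring
  have e2 : (((2 ^ (BB n κ - 8 * n) : ℕ)) : ℝ) / 2 ^ BB n κ = 1 / 2 ^ (8 * n) := by
    rw [Nat.cast_pow, Nat.cast_ofNat, div_eq_div_iff (by positivity) (by positivity), ← pow_add,
      one_mul]
    congr 1
    unfold BB
    omega
  unfold Near
  rw [e1, e2, sub_self, abs_zero]
  positivity

end Pool.Agent.W911.AL
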