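import Pool.Agent.W911.AL.Conv
import Pool.Agent.W911.AL.Sz

/-!
# The probability that some advice is right for all inputs of one length
-/

set_option autoImplicit false

namespace Pool.Agent.W911.AL

open Finset Pool.Agent.NPC H568R2 Pool.Agent.H676
open Pool.Agent.H620R2.Gauge Pool.Agent.H591R3.PHG

/-- The value of the tree of NOR gates with `κ + 1` levels for the string `x`. -/
def HV (κ : ℕ) (A : Oracle) (x : List Bool) : Bool :=
  ((Sz x.length κ).foldl (fun v a => up a v) (bitv A (8 * x.length))) x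

/-- The hard language for `k n` alternations. -/
def HL (k : ℕ → ℕ) (A : Oracle) : Set (List Bool) := {x | HV (k x.length) A x = false}

theorem tr_leaves {X : Type} (A : Oracle) (as : List ℕ) (w : ℕ) (xs : X → List Bool) (j : X) :
    Tr (w :: pw as) (leaves xs as w A) j =
      (as.foldl (fun v a => up a v) (bitv A w)) (xs j) := by
  rw [← LangTrAux.Tr_addr xs as (bitv A w) j]
  show Tr (pw as) (fun g : Idx X (pw as) => decide (∀ i : Fin w,
    A (addr xs as g ++ List.replicate i.val true) = false)) j = _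
  congr 1
  funext g
  unfold bitv
  congr 1
  apply propext
  constructor
  · intro h i hi
    exact h ⟨i, hi⟩
  · intro h i
    exact h i.val i.isLt

/-- the position of a leaf -/
def posz {K : ℕ} (xs : Fin K → List Bool) (as : List ℕ) (n N : ℕ)
    (hN : ∀ g : Idx (Fin K) (8 * n :: pw as),
      idx (addr xs as g.1 ++ List.replicate g.2.val true) < N)
    (g : Idx (Fin K) (8 * n :: pw as)) : Fin N :=
  ⟨idx (addr xs as g.1 ++ List.replicate g.2.val true), hN g⟩

theorem posz_inj {K : ℕ} (xs : Fin K → List Bool) (hxi : Function.Injective xs) {ℓ : ℕ}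
    (hxl : ∀ j, (xs j).length = ℓ) (as : List ℕ) (n N : ℕ)
    (hN : ∀ g : Idx (Fin K) (8 * n :: pw as),
      idx (addr xs as g.1 ++ List.replicate g.2.val true) < N) :
    Function.Injective (posz xs as n N hN) := by
  intro g g' h
  have h1 : idx (addr xs as g.1 ++ List.replicate g.2.val true) =
      idx (addr xs as g'.1 ++ List.replicate g'.2.val true) := by
    simpa [posz] using h
  have h2 : addr xs as g.1 ++ List.replicate g.2.val true =
      addr xs as g'.1 ++ List.replicate g'.2.val true := by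
    rw [← str_idx (addr xs as g.1 ++ List.replicate g.2.val true), h1, str_idx]
  exact leaf_inj xs hxi ℓ hxl as (8 * n) h2

open Classical in
/-- the bound for one advice string -/
theorem one_adv (M : Alg) {n N u κ c m ℓ : ℕ} (hn : 5 ≤ n) (hu : 8 * u ≤ n)
    {K : ℕ} (hK : K = 2 ^ (u + 11)) (xs : Fin K → List Bool) (hxi : Function.Injective xs)
    (hxl : ∀ j, (xs j).length = ℓ) {as : List ℕ} (hk : as.length = κ + 1)
    (hlaw : Ex (nxt (1 / 2) (1 / 2 ^ (4 * n)) 0 (8 * n) (8 * n) law0)
      (Wt (X := Fin K) (1 / 2 ^ (4 * n)) (1 / 2 ^ (2 * n)) (8 * n * 2 ^ (4 * n))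
        (1 / 256) (2 ^ (3 * u + 11)) (2 ^ (u + 9)) (pw as)) ≤ (9 / 10) ^ K)
    (hN : ∀ g : Idx (Fin K) (8 * n :: pw as),
      idx (addr xs as g.1 ++ List.replicate g.2.val true) < N)
    (h : List Bool) (hh : h.length = c)
    (hP : M.p.eval (2 * (2 * ℓ + 1 + c + κ * (2 * m + 1)) + 1 + κ * m) ≤ 2 ^ (2 * u)) :
    Ex unif (fun a : Fin N → Bool => if ∀ j : Fin K,
      QF m (GG m κ (leaf M N)) κ true (pairBits (xs j) h) a ≠
        Tr (8 * n :: pw as) (fun g => a (posz xs as n N hN g)) j
        then (1 : ℝ) else 0) ≤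
      κ * (2 ^ (2 * ℓ + 1 + c + κ * (2 * m + 1) + 2) * (1 / 2) ^ (2 ^ (2 * u) + 1)) +
        3 * (1 / 2) ^ (2 ^ u) := by
  have hinj := posz_inj xs hxi hxl as n N hN
  rw [Ex_overwrite (posz xs as n N hN) hinj]
  have hlen : ∀ j, (pairBits (xs j) h).length ≤ 2 * ℓ + 1 + c := by
    intro j
    rw [length_pairBits, hxl, hh]
  have hkey : ∀ a : Fin N → Bool, Ex (ber (1 / 2)) (fun z' : Idx (Fin K) (8 * n :: pw as) → Bool =>
      (fun a : Fin N → Bool => if ∀ j : Fin K,
        QF m (GG m κ (leaf M N)) κ true (pairBits (xs j) h) a ≠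
          Tr (8 * n :: pw as) (fun g => a (posz xs as n N hN g)) j then (1 : ℝ) else 0)
        (fun i => if h : ∃ j, posz xs as n N hN j = i then z' h.choose else a i)) ≤
      κ * (2 ^ (2 * ℓ + 1 + c + κ * (2 * m + 1) + 2) * (1 / 2) ^ (2 ^ (2 * u) + 1)) +
        3 * (1 / 2) ^ (2 ^ u) := by
    intro a
    set F : List Bool → (Idx (Fin K) (8 * n :: pw as) → Bool) → Bool := fun y z' =>
      GG m κ (leaf M N) y
        (fun i => if h : ∃ j, posz xs as n N hN j = i then z' h.choose else a i) with hF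
    have hFd : ∀ y : List Bool, y.length ≤ 2 * ℓ + 1 + c + κ * (2 * m + 1) →
        DTr (2 ^ (2 * u)) (F y) := by
      intro y hy
      have hnd := nd_len m κ y
      have h1 : DTr (M.p.eval (pairBits (nd m κ y).1 (nd m κ y).2).length)
          (leaf M N (pairBits (nd m κ y).1 (nd m κ y).2)) := dtr_out M N _
      have h2 : M.p.eval (pairBits (nd m κ y).1 (nd m κ y).2).length ≤ 2 ^ (2 * u) := by
        refine le_trans (eval_mono _ ?_) hP
        rw [length_pairBits, hnd.2]
        omega
      exact DTr_overwrite (posz xs as n N hN) a (h1.mono h2)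
    have hcard : 2 ^ (2 * u) * Fintype.card (Fin K) ≤ 2 ^ (3 * u + 11) := by
      rw [Fintype.card_fin, hK, ← pow_add]
      exact Nat.pow_le_pow_right (by norm_num) (by omega)
    have hlen2 : (pw as).length = κ + 1 := by
      rw [pw, List.length_map]; exact hk
    have h1 := main_leaf (X := Fin K) (n := n) (u := u) (D := 2 ^ (3 * u + 11)) (g := 2 ^ (u + 9))
      hn hu hcard κ (pw as) hlen2 m (2 * ℓ + 1 + c) F hFd
      (fun j => pairBits (xs j) h) hlen true
    have h2 := final_numbers hn hu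
    rw [← hK] at h2
    refine le_trans (le_of_eq ?_) (h1.trans ?_)
    · unfold Ms
      congr 1
      funext z'
      have e1 : (fun g => (fun i => if h : ∃ j, posz xs as n N hN j = i then z' h.choose else a i)
          (posz xs as n N hN g)) = val (fun _ => none) z' := by
        funext g
        have hex : ∃ j, posz xs as n N hN j = posz xs as n N hN g := ⟨g, rfl⟩
        show (if h : ∃ j, posz xs as n N hN j = posz xs as n N hN g then z' h.choose else
          a (posz xs as n N hN g)) = z' g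
        rw [dif_pos hex]
        exact congrArg z' (hinj hex.choose_spec)
      have e2 : (∀ j : Fin K, QF m (GG m κ (leaf M N)) κ true (pairBits (xs j) h)
          (fun i => if h : ∃ j, posz xs as n N hN j = i then z' h.choose else a i) ≠
          Tr (8 * n :: pw as) (fun g => (fun i =>
            if h : ∃ j, posz xs as n N hN j = i then z' h.choose else a i)
              (posz xs as n N hN g)) j) ↔
          ∀ j : Fin K, QF m F κ true (pairBits (xs j) h) z' ≠
            Tr (8 * n :: pw as) (val (fun _ => none) z') j := by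
        refine forall_congr' fun j => ?_
        rw [e1, ← QF_comp m (GG m κ (leaf M N)) (fun z' i =>
          if h : ∃ j, posz xs as n N hN j = i then z' h.choose else a i)]
      by_cases hz : ∀ j : Fin K, QF m F κ true (pairBits (xs j) h) z' ≠
            Tr (8 * n :: pw as) (val (fun _ => none) z') j
      · rw [if_pos hz]
        exact if_pos (e2.2 hz)
      · rw [if_neg hz]
        exact if_neg fun h => hz (e2.1 h)
    · linarith
  refine (Ex_mono unif_nonneg hkey).trans (le_of_eq ?_)
  exact Ex_const unif_sum _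

/-- The event: some advice of length at most `P'` gives the right answers on all the inputs. -/
def EvZ (M : Alg) {K : ℕ} (xs : Fin K → List Bool) (as : List ℕ) (n N κ m P' : ℕ)
    (hN : ∀ g : Idx (Fin K) (8 * n :: pw as),
      idx (addr xs as g.1 ++ List.replicate g.2.val true) < N)
    (a : Fin N → Bool) : Prop :=
  ∃ c ≤ P', ∃ h : List Bool, h.length = c ∧ ∀ j : Fin K,
    QF m (GG m κ (leaf M N)) κ true (pairBits (xs j) h) a ≠
      Tr (8 * n :: pw as) (fun g => a (posz xs as n N hN g)) j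

open Classical in
theorem evz_bound (M : Alg) {n N u κ m ℓ P' T : ℕ} (hn : 5 ≤ n) (hu : 8 * u ≤ n)
    {K : ℕ} (hK : K = 2 ^ (u + 11)) (xs : Fin K → List Bool) (hxi : Function.Injective xs)
    (hxl : ∀ j, (xs j).length = ℓ) {as : List ℕ} (hk : as.length = κ + 1)
    (hlaw : Ex (nxt (1 / 2) (1 / 2 ^ (4 * n)) 0 (8 * n) (8 * n) law0)
      (Wt (X := Fin K) (1 / 2 ^ (4 * n)) (1 / 2 ^ (2 * n)) (8 * n * 2 ^ (4 * n))
        (1 / 256) (2 ^ (3 * u + 11)) (2 ^ (u + 9)) (pw as)) ≤ (9 / 10) ^ K)
    (hN : ∀ g : Idx (Fin K) (8 * n :: pw as),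
      idx (addr xs as g.1 ++ List.replicate g.2.val true) < N)
    (hT : 2 * ℓ + 1 + P' + κ * (2 * m + 1) ≤ T)
    (hP : M.p.eval (2 * T + 1 + κ * m) ≤ 2 ^ (2 * u)) :
    Ex unif (fun a : Fin N → Bool => if EvZ M xs as n N κ m P' hN a then (1 : ℝ) else 0) ≤
      2 ^ (2 * P') * (κ * (2 ^ (T + 2) * (1 / 2) ^ (2 ^ (2 * u) + 1)) +
        3 * (1 / 2) ^ (2 ^ u)) := by
  set B : ℝ := κ * (2 ^ (T + 2) * (1 / 2) ^ (2 ^ (2 * u) + 1)) + 3 * (1 / 2) ^ (2 ^ u) with hB
  have hB0 : 0 ≤ B := by positivity
  have hone : ∀ c ≤ P', ∀ h ∈ strsOf c, Ex unif (fun a : Fin N → Bool =>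
      if ∀ j : Fin K,
        QF m (GG m κ (leaf M N)) κ true (pairBits (xs j) h) a ≠
          Tr (8 * n :: pw as) (fun g => a (posz xs as n N hN g)) j
        then (1 : ℝ) else 0) ≤ B := by
    intro c hc h hh
    obtain ⟨i, _, rfl⟩ := Finset.mem_image.1 hh
    refine (one_adv M hn hu hK xs hxi hxl hk hlaw hN (bitsOf c i) (length_bitsOf c i) ?_).trans ?_
    · refine le_trans (eval_mono _ ?_) hP
      omega
    · rw [hB]
      have h3 : (2 : ℝ) ^ (2 * ℓ + 1 + c + κ * (2 * m + 1) + 2) ≤ 2 ^ (T + 2) :=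
        pow_le_pow_right₀ (by norm_num) (by omega)
      have h4 : (κ : ℝ) * (2 ^ (2 * ℓ + 1 + c + κ * (2 * m + 1) + 2) *
          (1 / 2) ^ (2 ^ (2 * u) + 1)) ≤ κ * (2 ^ (T + 2) * (1 / 2) ^ (2 ^ (2 * u) + 1)) :=
        mul_le_mul_of_nonneg_left (mul_le_mul_of_nonneg_right h3 (by positivity)) (by positivity)
      linarith
  have hU : Ex unif (fun a : Fin N → Bool => if EvZ M xs as n N κ m P' hN a
      then (1 : ℝ) else 0) ≤
      ∑ c ∈ Finset.range (P' + 1), ∑ h ∈ strsOf c, Ex unif (fun a : Fin N → Bool =>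
      if ∀ j : Fin K,
        QF m (GG m κ (leaf M N)) κ true (pairBits (xs j) h) a ≠
          Tr (8 * n :: pw as) (fun g => a (posz xs as n N hN g)) j
        then (1 : ℝ) else 0) := by
    simp only [← Ex_sum]
    apply Ex_mono unif_nonneg
    intro a
    by_cases hE : EvZ M xs as n N κ m P' hN a
    · rw [if_pos hE]
      obtain ⟨c, hc, h, hh, hj⟩ := hE
      refine le_trans ?_ (Finset.single_le_sum (f := fun c => ∑ h ∈ strsOf c,
        if ∀ j : Fin K,
        QF m (GG m κ (leaf M N)) κ true (pairBits (xs j) h) a ≠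
          Tr (8 * n :: pw as) (fun g => a (posz xs as n N hN g)) j
        then (1 : ℝ) else 0) (fun c _ => Finset.sum_nonneg fun h _ => by positivity)
        (Finset.mem_range.2 (Nat.lt_succ_of_le hc)))
      have hm : h ∈ strsOf c := by rw [← hh]; exact mem_strsOf h
      refine le_trans ?_ (Finset.single_le_sum (f := fun h : List Bool =>
        if ∀ j : Fin K,
        QF m (GG m κ (leaf M N)) κ true (pairBits (xs j) h) a ≠
          Tr (8 * n :: pw as) (fun g => a (posz xs as n N hN g)) j
        then (1 : ℝ) else 0) (fun h _ => by positivity) hm)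
      beta_reduce
      rw [if_pos hj]
    · rw [if_neg hE]
      exact Finset.sum_nonneg fun c _ => Finset.sum_nonneg fun h _ => by positivity
  refine hU.trans ?_
  have h1 : ∀ c ∈ Finset.range (P' + 1), ∑ h ∈ strsOf c, Ex unif (fun a : Fin N → Bool =>
      if ∀ j : Fin K,
        QF m (GG m κ (leaf M N)) κ true (pairBits (xs j) h) a ≠
          Tr (8 * n :: pw as) (fun g => a (posz xs as n N hN g)) j
        then (1 : ℝ) else 0) ≤ 2 ^ P' * B := by
    intro c hc
    rw [Finset.mem_range, Nat.lt_succ_iff] at hc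
    refine (Finset.sum_le_sum (hone c hc)).trans ?_
    rw [Finset.sum_const, nsmul_eq_mul]
    apply mul_le_mul_of_nonneg_right _ hB0
    have h5 : (strsOf c).card ≤ 2 ^ P' :=
      (card_strsOf c).trans (Nat.pow_le_pow_right (by norm_num) hc)
    exact_mod_cast h5
  refine (Finset.sum_le_sum h1).trans ?_
  rw [Finset.sum_const, Finset.card_range, nsmul_eq_mul]
  have h2 : ((P' + 1 : ℕ) : ℝ) ≤ 2 ^ P' := by
    have : P' + 1 ≤ 2 ^ P' := Nat.lt_two_pow_self
    exact_mod_cast this
  calc ((P' + 1 : ℕ) : ℝ) * (2 ^ P' * B) ≤ 2 ^ P' * (2 ^ P' * B) :=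
        mul_le_mul_of_nonneg_right h2 (by positivity)
    _ = 2 ^ (2 * P') * B := by rw [two_mul, pow_add]; ring

end Pool.Agent.W911.AL
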