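import Pool.Agent.W911.AL.Mono

/-!
# Polynomial space evaluates a growing number of alternations
-/

set_option autoImplicit false

namespace Pool.Agent.W911.AL

open Pool.Agent.NPC Pool.Agent.H622R2
open Pool.Agent.H620R2.Gauge (Oracle IsFP Alg SAlg IsPSPACE)

namespace Psp

/-! ### Quantifiers over single bits -/

/-- `d` quantifiers over bits, the one at position `i` is existential if `ty i = true` -/
def BV (R : List Bool → Prop) (ty : ℕ → Bool) : ℕ → List Bool → Prop
  | 0, u => R u
  | d + 1, u => if ty u.length = true then BV R ty d (u ++ [false]) ∨ BV R ty d (u ++ [true])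
      else BV R ty d (u ++ [false]) ∧ BV R ty d (u ++ [true])

theorem bv_ex (R : List Bool → Prop) (ty : ℕ → Bool) (d : ℕ) : ∀ (m : ℕ) (u : List Bool),
    (∀ s < m, ty (u.length + s) = true) →
    (BV R ty (m + d) u ↔ ∃ w : List Bool, w.length = m ∧ BV R ty d (u ++ w)) := by
  intro m
  induction m with
  | zero =>
    intro u _
    rw [Nat.zero_add]
    exact ⟨fun h => ⟨[], rfl, by rwa [List.append_nil]⟩, fun ⟨w, hw, h⟩ => by
      rw [List.length_eq_zero_iff.1 hw, List.append_nil] at h
      exact h⟩
  | succ m ih =>
    intro u hu
    have h1 : ∀ b : Bool, (BV R ty (m + d) (u ++ [b]) ↔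
        ∃ w : List Bool, w.length = m ∧ BV R ty d (u ++ [b] ++ w)) := by
      intro b
      refine ih (u ++ [b]) fun s hs => ?_
      rw [List.length_append, List.length_singleton, add_assoc]
      exact hu (1 + s) (by omega)
    have h2 : ty u.length = true := by simpa using hu 0 (by omega)
    rw [show m + 1 + d = (m + d) + 1 by ring, BV, if_pos h2, h1, h1]
    constructor
    · rintro (⟨w, hw, h⟩ | ⟨w, hw, h⟩)
      · exact ⟨false :: w, by simp [hw], by simpa using h⟩
      · exact ⟨true :: w, by simp [hw], by simpa using h⟩
    · rintro ⟨w, hw, h⟩
      cases w with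
      | nil => simp at hw
      | cons b w =>
        have hw' : w.length = m := by simpa using hw
        cases b with
        | false => exact Or.inl ⟨w, hw', by simpa using h⟩
        | true => exact Or.inr ⟨w, hw', by simpa using h⟩

theorem bv_all (R : List Bool → Prop) (ty : ℕ → Bool) (d : ℕ) : ∀ (m : ℕ) (u : List Bool),
    (∀ s < m, ty (u.length + s) = false) →
    (BV R ty (m + d) u ↔ ∀ w : List Bool, w.length = m → BV R ty d (u ++ w)) := by
  intro m
  induction m with
  | zero =>
    intro u _
    rw [Nat.zero_add]
    exact ⟨fun h w hw => by
      rw [List.length_eq_zero_iff.1 hw, List.append_nil]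
      exact h, fun h => by simpa using h [] rfl⟩
  | succ m ih =>
    intro u hu
    have h1 : ∀ b : Bool, (BV R ty (m + d) (u ++ [b]) ↔
        ∀ w : List Bool, w.length = m → BV R ty d (u ++ [b] ++ w)) := by
      intro b
      refine ih (u ++ [b]) fun s hs => ?_
      rw [List.length_append, List.length_singleton, add_assoc]
      exact hu (1 + s) (by omega)
    have h2 : ty u.length = false := by simpa using hu 0 (by omega)
    rw [show m + 1 + d = (m + d) + 1 by ring, BV, if_neg (by rw [h2]; simp), h1, h1]
    constructor
    · rintro ⟨h3, h4⟩ w hw
      cases w with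
      | nil => simp at hw
      | cons b w =>
        have hw' : w.length = m := by simpa using hw
        cases b with
        | false => simpa using h3 w hw'
        | true => simpa using h4 w hw'
    · intro h
      exact ⟨fun w hw => by simpa using h (false :: w) (by simp [hw]),
        fun w hw => by simpa using h (true :: w) (by simp [hw])⟩

theorem bv_alt (R : List Bool → Prop) (ty : ℕ → Bool) (m : ℕ) :
    ∀ (j : ℕ) (b : Bool) (u : List Bool),
    (∀ t < j, ∀ s < m, ty (u.length + t * m + s) = (b ^^ decide (t % 2 = 1))) →
    (BV R ty (j * m) u ↔ Alt m R j b u) := by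
  intro j
  induction j with
  | zero =>
    intro b u _
    rw [Nat.zero_mul]
    cases b <;> exact Iff.rfl
  | succ j ih =>
    intro b u hu
    have h1 : ∀ w : List Bool, w.length = m →
        (BV R ty (j * m) (u ++ w) ↔ Alt m R j (!b) (u ++ w)) := by
      intro w hw
      refine ih (!b) (u ++ w) fun t ht s hs => ?_
      have h2 := hu (t + 1) (by omega) s hs
      rw [List.length_append, hw, show u.length + m + t * m + s = u.length + (t + 1) * m + s by
        ring, h2]
      rcases Nat.mod_two_eq_zero_or_one t with h3 | h3
      · have h4 : (t + 1) % 2 = 1 := by omega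
        simp [h3, h4]
      · have h4 : (t + 1) % 2 = 0 := by omega
        simp [h3, h4]
    rw [show (j + 1) * m = m + j * m by ring]
    cases b with
    | true =>
      rw [bv_ex R ty (j * m) m u (fun s hs => by
        have := hu 0 (by omega) s hs
        simpa using this), Alt]
      exact exists_congr fun w => and_congr_right fun hw => h1 w hw
    | false =>
      rw [bv_all R ty (j * m) m u (fun s hs => by
        have := hu 0 (by omega) s hs
        simpa using this), Alt]
      exact forall_congr' fun w => forall_congr' fun hw => h1 w hw

/-! ### The algorithm -/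

/-- the state: the direction and the value, the stack of the levels above (for each level: the
bit, and the value of the left half of the tree if the bit is `true`), the answers of the oracle
received so far in the evaluation of a leaf -/
abbrev T : Type := (Bool × Bool) × List (Bool × Bool) × List Bool

/-- the quantified bits -/
def lst (σ : List (Bool × Bool)) : List Bool := (σ.map (fun e => e.1)).reverse

theorem lst_length (σ : List (Bool × Bool)) : (lst σ).length = σ.length := by simp [lst]

theorem lst_cons (e : Bool × Bool) (σ : List (Bool × Bool)) : lst (e :: σ) = lst σ ++ [e.1] := by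
  simp [lst]

/-- the next action of the algorithm for the leaf -/
def dd (D : List Bool → List Bool) (x : List Bool) (t : T) : List Bool :=
  D (pairBits (pairBits x (lst t.2.1)) t.2.2)

/-- the next action -/
def eAct (D : List Bool → List Bool) (x : List Bool) (n : ℕ) (t : T) : List Bool :=
  if t.1.1 = true then (if t.2.1.length = 0 then [true, t.1.2] else [false])
  else if t.2.1.length < n then [false]
  else if (dd D x t).head? = some false then dd D x t
  else [false]

/-- the next state, if the answer is `b` -/
def eNext (D : List Bool → List Bool) (x : List Bool) (n : ℕ) (ty : ℕ → Bool) (P : ℕ) (b : Bool)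
    (t : T) : T :=
  if t.1.1 = true then
    (if t.2.1.length = 0 then t
    else if (t.2.1.head?.getD (false, false)).1 = false then
      ((false, false), (true, t.1.2) :: t.2.1.tail, [])
    else ((true, if ty t.2.1.tail.length = true then (t.2.1.head?.getD (false, false)).2 || t.1.2
        else (t.2.1.head?.getD (false, false)).2 && t.1.2), t.2.1.tail, []))
  else if t.2.1.length < n then ((false, false), (false, false) :: t.2.1, [])
  else if (dd D x t).head? = some false then
    ((false, false), t.2.1, if t.2.2.length < P then t.2.2 ++ [b] else [])
  else ((true, decide (dd D x t = [true, true])), t.2.1, [])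

theorem eNext_bound {D : List Bool → List Bool} {x : List Bool} {n : ℕ} {ty : ℕ → Bool} {P : ℕ}
    {b : Bool} {t : T} (h : t.2.1.length ≤ n ∧ t.2.2.length ≤ P) :
    (eNext D x n ty P b t).2.1.length ≤ n ∧ (eNext D x n ty P b t).2.2.length ≤ P := by
  obtain ⟨h1, h2⟩ := h
  unfold eNext
  split_ifs with c1 c2 c3 c4 c5 c6 c7
  · exact ⟨h1, h2⟩
  · refine ⟨?_, by simp⟩
    simp only [List.length_cons, List.length_tail]
    omega
  · refine ⟨?_, by simp⟩
    simp only [List.length_tail]
    omega
  · refine ⟨?_, by simp⟩
    simp only [List.length_tail]
    omega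
  · refine ⟨?_, by simp⟩
    simp only [List.length_cons]
    omega
  · refine ⟨h1, ?_⟩
    simp only [List.length_append, List.length_singleton]
    omega
  · exact ⟨h1, by simp⟩
  · exact ⟨h1, by simp⟩

/-- the state coded by the memory -/
def tst (s : List Bool) : T := (unbits T s).getD ((false, false), [], [])

theorem tst_nil : tst [] = ((false, false), [], []) := rfl

theorem tst_bits (t : T) : tst (bits t) = t := by
  unfold tst
  rw [unbits_bits]
  rfl

/-- the type of the quantifier at a position -/
def ty (m i : ℕ) : Bool := decide (i / m % 2 = 0)

section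

attribute [local fun_prop] poly_pairBits

attribute [local irreducible] unpair

theorem poly_tst : Poly tst := Poly.optGetD poly_unbits (NPC.Poly.const _)

variable {α : Type} [TEnc α]

theorem poly_lst : Poly lst := by
  unfold lst
  fun_prop

theorem poly_dd {D : List Bool → List Bool} (hD : Poly D) {x : α → List Bool} {t : α → T}
    (hx : Poly x) (ht : Poly t) : Poly (fun a => dd D (x a) (t a)) := by
  have h1 := poly_lst
  unfold dd
  fun_prop

theorem poly_eAct {D : List Bool → List Bool} (hD : Poly D) {x : α → List Bool} {t : α → T}
    {n : α → ℕ} (hx : Poly x) (ht : Poly t) (hn : Poly n) :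
    Poly (fun a => eAct D (x a) (n a) (t a)) := by
  have h1 := poly_dd hD hx ht
  unfold eAct
  fun_prop

theorem poly_eNext {D : List Bool → List Bool} (hD : Poly D) {x : α → List Bool} {t : α → T}
    {n m P : α → ℕ} {b : α → Bool} (hx : Poly x) (ht : Poly t) (hn : Poly n) (hm : Poly m)
    (hP : Poly P) (hb : Poly b) :
    Poly (fun a => eNext D (x a) (n a) (ty (m a)) (P a) (b a) (t a)) := by
  have h1 := poly_dd hD hx ht
  have h2 : Poly (fun a => (t a).2.1.head?.getD (false, false)) :=
    Poly.head?_getD (by fun_prop) _
  unfold eNext ty
  fun_prop

end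

end Psp

end Pool.Agent.W911.AL
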