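import Pool.Agent.W911.AL.Psp

/-!
# Polynomial space evaluates a growing number of alternations: the proof
-/

set_option autoImplicit false

namespace Pool.Agent.W911.AL

open Pool.Agent.NPC Pool.Agent.H622R2
open Pool.Agent.H620R2.Gauge (Oracle IsFP Alg SAlg IsPSPACE)
open Psp

/-- the depth of the tree -/
noncomputable def dpt (k : ℕ → ℕ) (p : Polynomial ℕ) (x : List Bool) : ℕ :=
  k x.length * p.eval x.length

/-- the bound for the number of answers -/
noncomputable def pans (M : Alg) (k : ℕ → ℕ) (p : Polynomial ℕ) (x : List Bool) : ℕ :=
  M.p.eval (2 * x.length + 1 + dpt k p x)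

/-- the algorithm -/
noncomputable def evalAlg (M : Alg) {k : ℕ → ℕ} (hk : Nice k) (p : Polynomial ℕ) : SAlg where
  act := fun y => eAct M.D (unpair y).1 (dpt k p (unpair y).1) (tst (unpair y).2)
  act_poly := by
    have h1 : Poly (fun y : List Bool => (unpair y).1) := Poly.fst poly_unpair
    have h2 : Poly (fun y : List Bool => (unpair y).2) := Poly.snd poly_unpair
    have hn : UPoly (fun y : List Bool => dpt k p (unpair y).1) :=
      UPoly.mul ((Up.nice_upoly hk).comp h1) (UPoly.eval (UPoly.length h1) p)
    exact polyTime_of_poly_list (poly_eAct (poly_of_polyTime M.poly) h1 (poly_tst.comp h2)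
      hn.toPoly)
  next := fun y => bits (eNext M.D (unpair y).1 (dpt k p (unpair y).1)
    (ty (p.eval (unpair y).1.length)) (pans M k p (unpair y).1)
    ((unpair y).2.head?.getD false) (tst (unpair y).2.tail))
  next_poly := by
    have h1 : Poly (fun y : List Bool => (unpair y).1) := Poly.fst poly_unpair
    have h2 : Poly (fun y : List Bool => (unpair y).2) := Poly.snd poly_unpair
    have hn : UPoly (fun y : List Bool => dpt k p (unpair y).1) :=
      UPoly.mul ((Up.nice_upoly hk).comp h1) (UPoly.eval (UPoly.length h1) p)
    have hP : UPoly (fun y : List Bool => pans M k p (unpair y).1) :=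
      UPoly.eval (UPoly.add (UPoly.add (UPoly.mul (UPoly.const 2) (UPoly.length h1))
        (UPoly.const 1)) hn) M.p
    exact polyTime_bits (poly_eNext (poly_of_polyTime M.poly) h1 (poly_tst.comp (Poly.tail h2))
      hn.toPoly (UPoly.eval (UPoly.length h1) p).toPoly hP.toPoly (Poly.head?_getD h2 false))

section

variable {M : Alg} {k : ℕ → ℕ} (hk : Nice k) (p : Polynomial ℕ) (A : Oracle) (x : List Bool)

theorem evalAlg_act (s : List Bool) :
    (evalAlg M hk p).act (pairBits x s) = eAct M.D x (dpt k p x) (tst s) := by
  show eAct M.D (unpair (pairBits x s)).1 _ _ = _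
  rw [unpair_pairBits]

theorem evalAlg_next (b : Bool) (s : List Bool) :
    (evalAlg M hk p).next (pairBits x (b :: s)) =
      bits (eNext M.D x (dpt k p x) (ty (p.eval x.length)) (pans M k p x) b (tst s)) := by
  show bits (eNext M.D (unpair (pairBits x (b :: s))).1 _ _ _ _ _) = _
  rw [unpair_pairBits]
  rfl

/-- the state `t` is reached -/
def Rch (t : Psp.T) : Prop := ∃ s, (evalAlg M hk p).Reach A x s ∧ tst s = t

theorem Rch.start : Rch (M := M) hk p A x ((false, false), [], []) :=
  ⟨[], SAlg.Reach.start, tst_nil⟩

variable {hk p A x}

theorem Rch.step {t : Psp.T} (h : Rch (M := M) hk p A x t) {q : List Bool}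
    (hq : eAct M.D x (dpt k p x) t = false :: q) :
    Rch (M := M) hk p A x
      (eNext M.D x (dpt k p x) (ty (p.eval x.length)) (pans M k p x) (A q) t) := by
  obtain ⟨s, h1, h2⟩ := h
  have h3 := SAlg.Reach.step (A := A) h1 (q := q) (by rw [evalAlg_act, h2]; exact hq)
  rw [evalAlg_next, h2] at h3
  exact ⟨_, h3, tst_bits _⟩

theorem Rch.leaf {V : List Bool → List Bool} (hV : ∀ y, M.out A y = some (V y))
    {σ : List (Bool × Bool)} (hσ : σ.length = dpt k p x)
    (h : Rch (M := M) hk p A x ((false, false), σ, [])) :
    Rch (M := M) hk p A x ((true, decide (V (pairBits x (lst σ)) = [true])), σ, []) := by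
  have hlen : (pairBits x (lst σ)).length = 2 * x.length + 1 + dpt k p x := by
    rw [Pool.Agent.H620R2.Gauge.length_pairBits, lst_length, hσ]
  have key : ∀ (n : ℕ) (a : List Bool), a.length + n = pans M k p x →
      Rch (M := M) hk p A x ((false, false), σ, a) →
      M.run A (pairBits x (lst σ)) n a = some (V (pairBits x (lst σ))) →
      Rch (M := M) hk p A x ((true, decide (V (pairBits x (lst σ)) = [true])), σ, []) := by
    intro n
    induction n with
    | zero => intro a _ _ h; simp [Alg.run] at h
    | succ n ih =>
      intro a ha hr h
      have hd : dd M.D x ((false, false), σ, a) = M.D (pairBits (pairBits x (lst σ)) a) := rfl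
      rcases hq : M.D (pairBits (pairBits x (lst σ)) a) with _ | ⟨c, q⟩
      · simp only [Alg.run, hq, Option.some.injEq] at h
        have h1 := hr.step (q := []) (by
          unfold eAct
          rw [hd, hq]
          simp [hσ])
        unfold eNext at h1
        rw [hd, hq] at h1
        simp only [Bool.false_eq_true, if_false, hσ, lt_irrefl, List.head?_nil, reduceCtorEq] at h1
        rw [← h]
        simpa using h1
      · cases c with
        | true =>
          simp only [Alg.run, hq, Option.some.injEq] at h
          have h1 := hr.step (q := []) (by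
            unfold eAct
            rw [hd, hq]
            simp [hσ])
          unfold eNext at h1
          rw [hd, hq] at h1
          simp only [Bool.false_eq_true, if_false, hσ, lt_irrefl, List.head?_cons,
            Option.some.injEq, reduceCtorEq] at h1
          rw [← h]
          simpa using h1
        | false =>
          simp only [Alg.run, hq] at h
          have h1 := hr.step (q := q) (by
            unfold eAct
            rw [hd, hq]
            simp [hσ])
          unfold eNext at h1
          rw [hd, hq] at h1
          simp only [Bool.false_eq_true, if_false, hσ, lt_irrefl, List.head?_cons,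
            if_true] at h1
          rw [if_pos (by omega)] at h1
          exact ih (a ++ [A q]) (by rw [List.length_append, List.length_singleton]; omega) h1 h
  refine key (pans M k p x) [] (by simp) h ?_
  have h1 := hV (pairBits x (lst σ))
  unfold Alg.out at h1
  rw [hlen] at h1
  exact h1

open Classical in
theorem Rch.sub {V : List Bool → List Bool} (hV : ∀ y, M.out A y = some (V y)) :
    ∀ (d : ℕ) (σ : List (Bool × Bool)), σ.length + d = dpt k p x →
    Rch (M := M) hk p A x ((false, false), σ, []) →
    Rch (M := M) hk p A x ((true, decide (BV (fun u => V (pairBits x u) = [true])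
      (ty (p.eval x.length)) d (lst σ))), σ, []) := by
  intro d
  induction d with
  | zero =>
    intro σ hσ h
    have h1 := h.leaf hV (by omega)
    convert h1 using 3
    exact decide_eq_decide.2 Iff.rfl
  | succ d ih =>
    intro σ hσ h
    -- the left half
    have h1 := h.step (q := []) (by
      unfold eAct
      have : σ.length < dpt k p x := by omega
      simp [this])
    unfold eNext at h1
    have hlt : σ.length < dpt k p x := by omega
    simp only [Bool.false_eq_true, if_false, hlt, if_true] at h1
    have h2 := ih ((false, false) :: σ) (by rw [List.length_cons]; omega) h1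
    rw [lst_cons] at h2
    set r0 : Bool := decide (BV (fun u => V (pairBits x u) = [true])
      (ty (p.eval x.length)) d (lst σ ++ [false])) with hr0
    -- the right half
    have h3 := h2.step (q := []) (by
      unfold eAct
      simp)
    unfold eNext at h3
    simp only [if_true, List.length_cons, Nat.add_eq_zero_iff, one_ne_zero, and_false, if_false,
      List.head?_cons, Option.getD_some, List.tail_cons] at h3
    have h4 := ih ((true, r0) :: σ) (by rw [List.length_cons]; omega) h3
    rw [lst_cons] at h4
    set r1 : Bool := decide (BV (fun u => V (pairBits x u) = [true])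
      (ty (p.eval x.length)) d (lst σ ++ [true])) with hr1
    have h5 := h4.step (q := []) (by
      unfold eAct
      simp)
    unfold eNext at h5
    simp only [if_true, List.length_cons, Nat.add_eq_zero_iff, one_ne_zero, and_false, if_false,
      List.head?_cons, Option.getD_some, List.tail_cons, Bool.true_eq_false] at h5
    convert h5 using 3
    rw [BV, lst_length]
    by_cases hty : ty (p.eval x.length) σ.length = true
    · rw [if_pos hty, hr0, hr1]
      simp only [hty, if_true]
      rw [Bool.eq_iff_iff]
      simp
    · rw [if_neg hty, hr0, hr1]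
      simp only [hty, if_false]
      rw [Bool.eq_iff_iff]
      simp

end

/-- Polynomial space contains the classes with a growing number of alternations. -/
theorem IsSigma.isPSPACE {A : Oracle} {k : ℕ → ℕ} (hk : Nice k) {L : Set (List Bool)}
    (hL : IsSigma A k L) : IsPSPACE A L := by
  classical
  obtain ⟨V, p, ⟨M, hM⟩, hx⟩ := hL
  obtain ⟨qk, hqk⟩ := Up.nice_bound' hk
  refine ⟨evalAlg M hk p, Polynomial.C 10 * (qk * p) + Polynomial.C 4 *
    (M.p.comp (2 * Polynomial.X + 1 + qk * p)) + Polynomial.C 20, fun x => ?_⟩
  have hd : dpt k p x ≤ (qk * p).eval x.length := by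
    rw [Polynomial.eval_mul]
    exact Nat.mul_le_mul_right _ (hqk _)
  have hpa : pans M k p x ≤ (M.p.comp (2 * Polynomial.X + 1 + qk * p)).eval x.length := by
    rw [Polynomial.eval_comp]
    apply eval_mono
    have : (2 * Polynomial.X + 1 + qk * p : Polynomial ℕ).eval x.length =
        2 * x.length + 1 + (qk * p).eval x.length := by simp
    rw [this]
    omega
  constructor
  · intro s hs
    have inv : (tst s).2.1.length ≤ dpt k p x ∧ (tst s).2.2.length ≤ pans M k p x ∧
        (s = [] ∨ s = bits (tst s)) := by
      induction hs with
      | start => exact ⟨by rw [tst_nil]; simp, by rw [tst_nil]; simp, Or.inl rfl⟩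
      | @step s q hs hr ih =>
        rw [evalAlg_next, tst_bits]
        obtain ⟨h1, h2⟩ := eNext_bound (D := M.D) (x := x) (n := dpt k p x)
          (ty := ty (p.eval x.length)) (P := pans M k p x) (b := A q) (t := tst s)
          ⟨ih.1, ih.2.1⟩
        exact ⟨h1, h2, Or.inr rfl⟩
    obtain ⟨h1, h2, h3⟩ := inv
    rcases h3 with h3 | h3
    · rw [h3]
      simp
    · rw [h3, bits_length]
      obtain ⟨t, ht⟩ : ∃ t, t = tst s := ⟨_, rfl⟩
      rw [← ht] at h1 h2 ⊢
      obtain ⟨⟨a, b⟩, σ, c⟩ := t
      simp only at h1 h2
      have e1 := sz_bool_le a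
      have e2 := sz_bool_le b
      have e3 : sz σ ≤ σ.length * (7 + 1) + 1 := sz_le_length_mul _ _ (fun e _ => by
        obtain ⟨e, e'⟩ := e
        have f1 := sz_bool_le e
        have f2 := sz_bool_le e'
        rw [sz_pair]
        omega)
      have e4 := sz_listBool_le c
      simp only [sz_pair, Polynomial.eval_add, Polynomial.eval_mul (p := Polynomial.C _),
        Polynomial.eval_C]
      omega
  · have h1 := (Rch.start (M := M) hk p A x).sub hM (dpt k p x) [] (by simp)
    obtain ⟨s, h2, h3⟩ := h1
    refine ⟨s, _, h2, by rw [evalAlg_act, h3]; unfold eAct; simp; rfl, ?_⟩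
    rw [hx x]
    have h4 := bv_alt (fun u => V (pairBits x u) = [true]) (ty (p.eval x.length))
      (p.eval x.length) (k x.length) true [] (by
        intro t _ s hs
        have hm : 0 < p.eval x.length := by omega
        unfold ty
        rw [List.length_nil, zero_add, Nat.add_comm, Nat.add_mul_div_right _ _ hm,
          Nat.div_eq_of_lt hs, zero_add]
        rcases Nat.mod_two_eq_zero_or_one t with h5 | h5 <;> simp [h5])
    rw [← h4]
    show _ ↔ [decide (BV _ _ (dpt k p x) (lst []))] = [true]
    simp only [List.cons.injEq, and_true, decide_eq_true_eq]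
    exact Iff.rfl

end Pool.Agent.W911.AL
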