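import Pool.Agent.W911.AL.Defs

/-!
# Larger windows for the numbers of children

The statements and the proofs are those of `InvStep.lean` and `GoodProb.lean` of `H591R3.PHG`,
with other constants.
-/

set_option autoImplicit false

namespace Pool.Agent.W911.AL

open Finset H568R2 Pool.Agent.H676 Pool.Agent.H620R2.Gauge Pool.Agent.NPC
open Pool.Agent.H591R3.PHG Pool.Agent.H591R3.PHG.GoodProbAux

theorem exp104 : Real.exp (104 / 100) ≤ 3 := by
  have h1 : Real.exp (104 / 100) = Real.exp 1 * Real.exp (4 / 100) := by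
    rw [← Real.exp_add]
    norm_num
  have h2 := Real.exp_one_lt_d9
  have h3 : Real.exp (4 / 100) ≤ 1 / (1 - 4 / 100) := by
    have h4 := Real.add_one_le_exp (-(4 / 100) : ℝ)
    have h5 : Real.exp (4 / 100) * Real.exp (-(4 / 100)) = 1 := by
      rw [← Real.exp_add]
      norm_num
    have h6 := Real.exp_pos (4 / 100 : ℝ)
    rw [le_div_iff₀ (by norm_num)]
    nlinarith
  rw [h1]
  have h7 := Real.exp_pos (4 / 100 : ℝ)
  have h8 := Real.exp_pos (1 : ℝ)
  nlinarith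

theorem combine_w {n T A B X Y W : ℝ} (hn : 5 ≤ n) (hT : 2 ^ 20 ≤ T) (h : T * (14.8 * n) ≤ W)
    (h1 : A ≤ Real.exp (7 / 10 * (8 * n * T))) (h2 : B ≤ Real.exp (-(W / 2)))
    (h3 : Real.exp (-(2 * n)) ≤ X) (h4 : Real.exp (-(36 * n)) ≤ Y) (hB : 0 ≤ B) (hX : 0 ≤ X) :
    A * B ≤ X * Y := by
  calc A * B ≤ Real.exp (7 / 10 * (8 * n * T)) * Real.exp (-(W / 2)) :=
        mul_le_mul h1 h2 hB (Real.exp_pos _).le
    _ = Real.exp (7 / 10 * (8 * n * T) + -(W / 2)) := (Real.exp_add _ _).symm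
    _ ≤ Real.exp (-(2 * n) + -(36 * n)) := by
        refine Real.exp_le_exp.mpr ?_
        have f2 : (0 : ℝ) ≤ n := by linarith
        have f3 := mul_le_mul_of_nonneg_left hT f2
        nlinarith
    _ = Real.exp (-(2 * n)) * Real.exp (-(36 * n)) := Real.exp_add _ _
    _ ≤ X * Y := mul_le_mul h3 h4 (Real.exp_pos _).le hX

theorem inv_step_w {n c : ℕ} (hn : 5 ≤ n) {law : Option Bool → ℝ} (h : Inv n law)
    (h1 : 15 * n ≤ c * (law none / 2 ^ (4 * n) + law (some true)))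
    (h2 : c * (law none / 2 ^ (4 * n) + law (some true)) ≤ 33 * n) :
    Inv n (nxt (1 / 2 ^ (4 * n)) (1 / 2 ^ (4 * n)) (1 / 2 ^ (2 * n)) (8 * n * 2 ^ (4 * n)) c
      law) := by
  have hnr : (5 : ℝ) ≤ n := by exact_mod_cast hn
  have hc0 : (0 : ℝ) ≤ c := Nat.cast_nonneg c
  have hT20 : (2 : ℝ) ^ 20 ≤ 2 ^ (4 * n) := pow_le_pow_right₀ (by norm_num) (by omega)
  have hX10 : (2 : ℝ) ^ 10 ≤ 2 ^ (2 * n) := pow_le_pow_right₀ (by norm_num) (by omega)
  have hP40 : (2 : ℝ) ^ 40 ≤ 2 ^ (8 * n) := pow_le_pow_right₀ (by norm_num) (by omega)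
  have hs : 1 ≤ 8 * n * 2 ^ (4 * n) := Nat.mul_pos (by omega) (by positivity)
  have hsc : ((8 * n * 2 ^ (4 * n) : ℕ) : ℝ) = 8 * n * 2 ^ (4 * n) := by push_cast; rfl
  have hexp1 : (2 : ℝ) ≤ Real.exp 1 := by
    have := Real.add_one_le_exp (1 : ℝ)
    linarith
  have hTe : (2 : ℝ) ^ (4 * n) ≤ Real.exp (8 * n) := by
    calc (2 : ℝ) ^ (4 * n) ≤ (Real.exp 1) ^ (4 * n) := pow_le_pow_left₀ (by norm_num) hexp1 _
      _ = Real.exp (4 * n) := by
          rw [← Real.exp_nat_mul]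
          push_cast
          rw [mul_one]
      _ ≤ Real.exp (8 * n) := Real.exp_le_exp.mpr (by linarith)
  have hXe : Real.exp (-(2 * n)) ≤ 1 / (2 : ℝ) ^ (2 * n) := by
    rw [Real.exp_neg, one_div]
    refine inv_anti₀ (by positivity) ?_
    calc (2 : ℝ) ^ (2 * n) ≤ (Real.exp 1) ^ (2 * n) := pow_le_pow_left₀ (by norm_num) hexp1 _
      _ = Real.exp (2 * n) := by
          rw [← Real.exp_nat_mul]
          push_cast
          rw [mul_one]
  have hT0 : (0 : ℝ) < 2 ^ (4 * n) := by positivity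
  have hX0 : (0 : ℝ) < 2 ^ (2 * n) := by positivity
  have ht0 : (0 : ℝ) < 1 / 2 ^ (4 * n) := by positivity
  have ht1 : (1 : ℝ) / 2 ^ (4 * n) < 1 := by
    rw [div_lt_one hT0]
    linarith
  have hξ0 : (0 : ℝ) < 1 / 2 ^ (2 * n) := by positivity
  have hξ2 : (1 : ℝ) / 2 ^ (2 * n) ≤ 1 / 2 ^ 10 := one_div_le_one_div_of_le (by positivity) hX10
  have hξ1 : (1 : ℝ) / 2 ^ (2 * n) ≤ 1 := hξ2.trans (by norm_num)
  obtain ⟨h0, hl, hR, hlo, hhi⟩ := h
  have hsmall : (1 - 1 / (2 : ℝ) ^ (4 * n)) ^ (8 * n * 2 ^ (4 * n)) ≤ Real.exp (-(8 * n)) := by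
    calc (1 - 1 / (2 : ℝ) ^ (4 * n)) ^ (8 * n * 2 ^ (4 * n))
        ≤ (Real.exp (-(1 / (2 : ℝ) ^ (4 * n)))) ^ (8 * n * 2 ^ (4 * n)) := by
          refine pow_le_pow_left₀ (by linarith) ?_ _
          have := Real.add_one_le_exp (-(1 / (2 : ℝ) ^ (4 * n)))
          linarith
      _ = Real.exp (-(8 * n)) := by
          rw [← Real.exp_nat_mul, hsc]
          congr 1
          field_simp
  have hcond : (1 - 1 / (2 : ℝ) ^ (2 * n)) * (1 - 1 / 2 ^ (4 * n)) ^ (8 * n * 2 ^ (4 * n)) /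
      (1 / 2 ^ (4 * n)) + 1 / 2 ^ (2 * n) * (1 - 1 / 2 ^ (4 * n)) ^ (8 * n * 2 ^ (4 * n)) ≤ 1 := by
    have hq0 : (0 : ℝ) ≤ (1 - 1 / 2 ^ (4 * n)) ^ (8 * n * 2 ^ (4 * n)) :=
      pow_nonneg (by linarith) _
    set q := (1 - 1 / (2 : ℝ) ^ (4 * n)) ^ (8 * n * 2 ^ (4 * n)) with hq
    have e1 : q * 2 ^ (4 * n) ≤ 1 := by
      calc q * 2 ^ (4 * n) ≤ Real.exp (-(8 * n)) * Real.exp (8 * n) :=
            mul_le_mul hsmall hTe hT0.le (Real.exp_pos _).le
        _ = 1 := by rw [← Real.exp_add, neg_add_cancel, Real.exp_zero]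
    have e2 : (1 - 1 / (2 : ℝ) ^ (2 * n)) * q / (1 / 2 ^ (4 * n)) =
        (1 - 1 / (2 : ℝ) ^ (2 * n)) * (q * 2 ^ (4 * n)) := by
      rw [div_div_eq_mul_div, div_one]
      ring
    rw [e2]
    have e3 : 1 / (2 : ℝ) ^ (2 * n) * q ≤ 1 / 2 ^ (2 * n) * (q * 2 ^ (4 * n)) := by
      refine mul_le_mul_of_nonneg_left ?_ hξ0.le
      exact le_mul_of_one_le_right hq0 (by linarith)
    have e4 : (0 : ℝ) ≤ 1 - 1 / 2 ^ (2 * n) := by linarith
    nlinarith [mul_le_mul_of_nonneg_left e1 e4, mul_le_mul_of_nonneg_left e1 hξ0.le]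
  -- the new value of p
  have hp' : nxt (1 / 2 ^ (4 * n)) (1 / 2 ^ (4 * n)) (1 / 2 ^ (2 * n)) (8 * n * 2 ^ (4 * n)) c
      law none / 2 ^ (4 * n) +
      nxt (1 / 2 ^ (4 * n)) (1 / 2 ^ (4 * n)) (1 / 2 ^ (2 * n)) (8 * n * 2 ^ (4 * n)) c
      law (some true) = (1 - (law none / 2 ^ (4 * n) + law (some true))) ^ c := by
    have e := nxt_p (c := c) (ξ := 1 / 2 ^ (2 * n)) ht0 ht1 ht0 hs hl
    rw [one_div_mul_eq_div, one_div_mul_eq_div] at e
    exact e
  set p := law none / 2 ^ (4 * n) + law (some true) with hp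
  have hL0 := h0 none
  have hR0 := h0 (some true)
  have hp0 : 0 ≤ p := add_nonneg (div_nonneg hL0 hT0.le) hR0
  have hp1 : p ≤ 1 / 2 ^ 40 := hhi.trans (one_div_le_one_div_of_le (by positivity) hP40)
  have hp2 : p ≤ 1 / 36 := hp1.trans (by norm_num)
  have hlo' : Real.exp (-(36 * n)) ≤ (1 - p) ^ c := by
    have e1 : Real.exp (-(35 / 34 * p)) ≤ 1 - p := by
      rw [Real.exp_neg]
      have e2 := Real.add_one_le_exp (35 / 34 * p)
      calc (Real.exp (35 / 34 * p))⁻¹ ≤ (35 / 34 * p + 1)⁻¹ := inv_anti₀ (by linarith) e2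
        _ ≤ 1 - p := by
            rw [inv_le_iff_one_le_mul₀ (by linarith)]
            nlinarith
    calc Real.exp (-(36 * n)) ≤ Real.exp (c * (-(35 / 34 * p))) := by
          refine Real.exp_le_exp.mpr ?_
          nlinarith
      _ = (Real.exp (-(35 / 34 * p))) ^ c := Real.exp_nat_mul _ c
      _ ≤ (1 - p) ^ c := pow_le_pow_left₀ (Real.exp_pos _).le e1 c
  have hhi' : (1 - p) ^ c ≤ 1 / 2 ^ (8 * n) := by
    calc (1 - p) ^ c ≤ (Real.exp (-p)) ^ c := by
          refine pow_le_pow_left₀ (by linarith) ?_ c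
          have := Real.add_one_le_exp (-p)
          linarith
      _ = Real.exp (c * (-p)) := (Real.exp_nat_mul _ c).symm
      _ ≤ Real.exp (-(8 * n)) := by
          refine Real.exp_le_exp.mpr ?_
          linarith
      _ ≤ 1 / 2 ^ (8 * n) := by
          rw [Real.exp_neg, one_div]
          refine inv_anti₀ (by positivity) ?_
          calc (2 : ℝ) ^ (8 * n) ≤ (Real.exp 1) ^ (8 * n) :=
                pow_le_pow_left₀ (by norm_num) hexp1 _
            _ = Real.exp (8 * n) := by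
                rw [← Real.exp_nat_mul]
                push_cast
                rw [mul_one]
  have hrare := nxt_true (c := c) (ξ := 1 / 2 ^ (2 * n)) ht0 ht1 ht0 hξ0.le hs h0 hl
  rw [one_div_mul_eq_div (2 ^ (4 * n)) (law none)] at hrare
  change _ ≤ 1 / 2 ^ (2 * n) * (1 - p) ^ c + _ at hrare
  have hE : 2 ^ (8 * n * 2 ^ (4 * n)) * (1 - law none / 2) ^ c ≤
      1 / 2 ^ (2 * n) * (1 - p) ^ c := by
    have hL1 : law none ≤ 1 := by
      rw [Fintype.sum_option, Fintype.sum_bool] at hl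
      have := h0 (some false)
      linarith
    have e1 := InvStepAux.two_pow_le n
    have e2 := InvStepAux.half_le c hL0 hL1
    have e3 : c * law none = 2 ^ (4 * n) * (c * p - c * law (some true)) := by
      rw [hp]
      field_simp
      ring
    have e4 : c * law (some true) ≤ 1 / 100 * (c * p) := by
      have f1 : law (some true) ≤ 1 / 100 * p := by
        refine hR.trans (mul_le_mul_of_nonneg_right ?_ hp0)
        linarith
      calc c * law (some true) ≤ c * (1 / 100 * p) := mul_le_mul_of_nonneg_left f1 hc0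
        _ = _ := by ring
    have e5 : 2 ^ (4 * n) * (14.8 * n) ≤ c * law none := by
      rw [e3]
      refine mul_le_mul_of_nonneg_left ?_ hT0.le
      linarith
    exact combine_w hnr hT20 e5 e1 e2 hXe hlo' (pow_nonneg (by linarith) _) hξ0.le
  refine ⟨fun v => nxt_nonneg ht0 ht1 ht0 hξ0.le hξ1 hs hcond h0 v, nxt_sum ht0 ht1 ht0 hs hl,
    ?_, ?_, ?_⟩
  · rw [hp']
    linarith
  · rw [hp']
    exact hlo'
  · rw [hp']
    exact hhi'


open Classical in
theorem good_prob_w {c D T : ℕ} {ξ : ℝ} (hT : 64 ≤ T) (h8 : 16 ∣ T) (hD : 16 * D ≤ T)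
    (hξ : 0 ≤ ξ) (hξ1 : ξ ≤ 1 / 32) {law : Option Bool → ℝ} (hn : ∀ v, 0 ≤ law v)
    (hl : ∑ v, law v = 1)
    (hR : law (some true) ≤ 2 * ξ * (law none / T + law (some true)))
    (hp1 : 48 / 100 ≤ c * (law none / T + law (some true)))
    (hp2 : c * (law none / T + law (some true)) ≤ 104 / 100) :
    1 / 2 ≤ ∑ σ : Fin c → Option Bool, (∏ i, law (σ i)) *
      (if Good (1 / T) (1 / 256) D σ then (1 : ℝ) else 0) := by
  obtain ⟨S, hTS⟩ := h8
  have hS : 4 ≤ S := by omega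
  have hTr : (0 : ℝ) < T := by
    have : 0 < T := by omega
    exact_mod_cast this
  have hc0 : (0 : ℝ) ≤ c := Nat.cast_nonneg c
  have h1 : (1 - law (some true)) ^ c - (1 / 16 ^ T) * (1 + (2 - 1) * law none) ^ c -
      4 ^ S * (1 + (1 / 2 - 1) * law none) ^ c ≤ ∑ σ : Fin c → Option Bool, (∏ i, law (σ i)) *
      (if Good (1 / T) (1 / 256) D σ then (1 : ℝ) else 0) := by
    rw [← sum_wu hl, ← sum_wn 2 hl, ← sum_wn (1 / 2) hl, ← prod_sum, ← prod_sum, ← prod_sum,
      Finset.mul_sum, Finset.mul_sum, ← Finset.sum_sub_distrib, ← Finset.sum_sub_distrib]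
    refine Finset.sum_le_sum fun σ _ => ?_
    refine le_trans (le_of_eq ?_) (mul_le_mul_of_nonneg_left (good_lower hS hTS hD σ)
      (Finset.prod_nonneg fun i _ => hn _))
    ring
  refine le_trans ?_ h1
  set L := law none with hL
  set R := law (some true) with hRR
  have hL0 : 0 ≤ L := hn _
  have hR0 : 0 ≤ R := hn _
  have hR1 : R ≤ 1 := by
    rw [sum_option_bool] at hl
    have := hn (some false)
    linarith
  have hL1 : L ≤ 1 := by
    rw [sum_option_bool] at hl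
    have := hn (some false)
    linarith
  -- c R ≤ 1/16 * c p
  have hcR : c * R ≤ 1 / 16 * (c * (L / T + R)) := by
    have e1 : 2 * ξ * (L / T + R) ≤ 1 / 16 * (L / T + R) := by
      refine mul_le_mul_of_nonneg_right (by linarith) ?_
      have := div_nonneg hL0 hTr.le
      linarith
    calc c * R ≤ c * (1 / 16 * (L / T + R)) := mul_le_mul_of_nonneg_left (hR.trans e1) hc0
      _ = _ := by ring
  have hcL : c * L = T * (c * (L / T + R) - c * R) := by
    field_simp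
    ring
  have hcL1 : c * L ≤ T * (104 / 100) := by
    rw [hcL]
    have e2 : c * (L / T + R) - c * R ≤ 104 / 100 := by
      have := mul_nonneg hc0 hR0
      linarith
    exact mul_le_mul_of_nonneg_left e2 hTr.le
  have hcL2 : 72 / 10 * S ≤ c * L := by
    rw [hcL]
    have e3 : 45 / 100 ≤ c * (L / T + R) - c * R := by linarith
    calc (72 : ℝ) / 10 * S = T * (45 / 100) := by rw [hTS]; push_cast; ring
      _ ≤ T * (c * (L / T + R) - c * R) := mul_le_mul_of_nonneg_left e3 hTr.le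
  have a1 : 1 - 7 / 100 ≤ (1 - R) ^ c := by
    have b1 := one_add_mul_le_pow (show (-2 : ℝ) ≤ -R by linarith) c
    rw [← sub_eq_add_neg] at b1
    have b2 : 1 / 16 * (c * (L / T + R)) ≤ 7 / 100 := by linarith
    linarith
  have a2 : (1 / 16 ^ T) * (1 + (2 - 1) * L) ^ c ≤ 1 / 4 := by
    have b1 : (1 + (2 - 1) * L) ^ c ≤ 3 ^ T := by
      calc (1 + (2 - 1) * L) ^ c ≤ (Real.exp L) ^ c := by
            refine pow_le_pow_left₀ (by linarith) ?_ c
            have := Real.add_one_le_exp L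
            linarith
        _ = Real.exp (c * L) := (Real.exp_nat_mul L c).symm
        _ ≤ Real.exp (T * (104 / 100)) := Real.exp_le_exp.mpr hcL1
        _ = (Real.exp (104 / 100)) ^ T := by rw [← Real.exp_nat_mul]
        _ ≤ 3 ^ T := pow_le_pow_left₀ (Real.exp_pos _).le exp104 T
    calc (1 / 16 ^ T) * (1 + (2 - 1) * L) ^ c ≤ (1 / 16 ^ T) * 3 ^ T :=
          mul_le_mul_of_nonneg_left b1 (by positivity)
      _ = (3 / 16 : ℝ) ^ T := by rw [div_pow]; ring
      _ ≤ (3 / 16 : ℝ) ^ 1 := pow_le_pow_of_le_one (by norm_num) (by norm_num) (by omega)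
      _ ≤ 1 / 4 := by norm_num
  have a3 : 4 ^ S * (1 + (1 / 2 - 1) * L) ^ c ≤ 1 / 16 := by
    have b1 : (1 + (1 / 2 - 1) * L) ^ c ≤ (1 / 16) ^ S := by
      calc (1 + (1 / 2 - 1) * L) ^ c ≤ (Real.exp (-(L / 2))) ^ c := by
            refine pow_le_pow_left₀ (by linarith) ?_ c
            have := Real.add_one_le_exp (-(L / 2))
            linarith
        _ = Real.exp (c * (-(L / 2))) := (Real.exp_nat_mul _ c).symm
        _ ≤ Real.exp (S * (-3)) := by
            refine Real.exp_le_exp.mpr ?_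
            have : (0 : ℝ) ≤ S := Nat.cast_nonneg S
            linarith
        _ = (Real.exp (-3)) ^ S := Real.exp_nat_mul _ S
        _ ≤ (1 / 16) ^ S := by
            refine pow_le_pow_left₀ (Real.exp_pos _).le ?_ S
            rw [Real.exp_neg, one_div]
            refine inv_anti₀ (by norm_num) ?_
            have e4 : Real.exp 3 = (Real.exp 1) ^ 3 := by
              rw [← Real.exp_nat_mul]
              norm_num
            rw [e4]
            have e5 : (2.7 : ℝ) ≤ Real.exp 1 := le_trans (by norm_num) Real.exp_one_gt_d9.le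
            calc (16 : ℝ) ≤ 2.7 ^ 3 := by norm_num
              _ ≤ (Real.exp 1) ^ 3 := pow_le_pow_left₀ (by norm_num) e5 3
    calc 4 ^ S * (1 + (1 / 2 - 1) * L) ^ c ≤ 4 ^ S * (1 / 16) ^ S :=
          mul_le_mul_of_nonneg_left b1 (by positivity)
      _ = (1 / 4 : ℝ) ^ S := by rw [← mul_pow]; norm_num
      _ ≤ (1 / 4 : ℝ) ^ 4 := pow_le_pow_of_le_one (by norm_num) (by norm_num) hS
      _ ≤ 1 / 16 := by norm_num
  linarith


end Pool.Agent.W911.AL
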